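import Pool.Agent.Helper53.LE.Stab

/-!
Structure of the degree sequence of a nearly extremal graph.
-/

namespace Pool.Agent.Helper53.LE

open Matrix Finset

variable {V : Type*} [Fintype V] [DecidableEq V]

/-- vertices of degree above `θ` -/
noncomputable def big (A : Matrix V V ℝ) (θ : ℝ) : Finset V := univ.filter (fun i => θ < dg A i)

/-- vertices of degree close to `θ` -/
noncomputable def exc (A : Matrix V V ℝ) (θ a : ℝ) : Finset V :=
  univ.filter (fun i => θ - a < dg A i ∧ dg A i < θ + a)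

lemma mem_big {A : Matrix V V ℝ} {θ : ℝ} {i : V} : i ∈ big A θ ↔ θ < dg A i := by
  simp [big]

lemma mem_exc {A : Matrix V V ℝ} {θ a : ℝ} {i : V} :
    i ∈ exc A θ a ↔ θ - a < dg A i ∧ dg A i < θ + a := by
  simp [exc]

/-- facts about the degree sequence of a nearly extremal graph -/
structure Base (A : Matrix V V ℝ) (θ n p δ η1 η2 : ℝ) : Prop where
  kap : |((big A θ).card : ℝ) - p| ≤ η1 * n
  low : ∑ i ∈ (big A θ)ᶜ, dg A i ≤ η1 * n ^ 2
  excc : ((exc A θ (δ * n)).card : ℝ) ≤ η2 * n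
  gap : θ + 4 * (δ * n) ≤ ((big A θ).card : ℝ)
  th : 20 * (δ * n) ≤ θ

theorem base {A : Matrix V V ℝ} (hA : IsGr A) {θ n p ε η δ η1 η2 : ℝ}
    (hnV : n = Fintype.card V) (hn : 0 < n) (hε : 0 < ε) (hε1 : ε ≤ 1 / 4) (hδ : δ = ε / 10)
    (hη : 0 < η) (hη1 : η1 = 3 * η / ε ^ 2) (hη2 : η2 = 2 * η1 / δ)
    (hη3 : 24 * (η1 + η2) ≤ δ ^ 4) (hηn : 1 ≤ η * n)
    (hp0 : 0 ≤ p) (hp : p ^ 2 = ∑ i, ∑ j, A i j)
    (h1 : 2 * ε * n ^ 2 ≤ p ^ 2) (h2 : p ^ 2 ≤ (1 / 2 - 2 * ε) * n ^ 2)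
    (hb1 : p ^ 2 ≤ θ * n) (hb2 : θ * n ≤ p ^ 2 + n)
    (hnear : p ^ 2 - θ * p - η * n ^ 2 ≤ ∑ i, max (dg A i - θ) 0) :
    Base A θ n p δ η1 η2 := by
  classical
  have hδ0 : 0 < δ := by rw [hδ]; positivity
  have hδ1 : δ ≤ 1 / 40 := by rw [hδ]; linarith
  have hη10 : 0 < η1 := by rw [hη1]; positivity
  have hη20 : 0 < η2 := by rw [hη2]; positivity
  have hδ4 : δ ^ 4 ≤ δ := by
    have : δ ^ 3 ≤ 1 := pow_le_one₀ hδ0.le (by linarith)
    nlinarith
  have hη4 : 4 * η ≤ ε ^ 2 := by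
    have h3 : η = η1 * ε ^ 2 / 3 := by rw [hη1]; field_simp
    have h4 : η1 ≤ 1 / 24 := by linarith
    rw [h3]
    linarith [sq_nonneg ε, mul_le_mul_of_nonneg_right h4 (sq_nonneg ε)]
  have hηη1 : η ≤ η1 := by
    rw [hη1, le_div_iff₀ (by positivity)]
    have : ε ^ 2 ≤ 1 := by nlinarith
    nlinarith
  set T := big A θ with hT
  set κ : ℝ := ((T.card : ℕ) : ℝ) with hκ
  have hκ0 : 0 ≤ κ := by positivity
  have hκn : κ ≤ n := by
    rw [hκ, hnV]
    exact_mod_cast Finset.card_le_univ T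
  set S1 : ℝ := ∑ i ∈ T, dg A i with hS1
  set D1 : ℝ := ∑ i ∈ Tᶜ, dg A i with hD1
  have hsum : S1 + D1 = p ^ 2 := by
    rw [hS1, hD1, Finset.sum_add_sum_compl, hp]; rfl
  have hmax : ∑ i, max (dg A i - θ) 0 = S1 - κ * θ := by
    have e1 : ∀ i, max (dg A i - θ) 0 = if θ < dg A i then dg A i - θ else 0 := by
      intro i
      split_ifs with h
      · rw [max_eq_left]; linarith
      · rw [max_eq_right]; linarith
    simp only [e1]
    rw [← Finset.sum_filter]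
    show ∑ i ∈ T, (dg A i - θ) = _
    rw [Finset.sum_sub_distrib, Finset.sum_const, nsmul_eq_mul]
  rw [hmax] at hnear
  have hD0 : 0 ≤ D1 := Finset.sum_nonneg fun i _ => dg_nonneg hA i
  have hi : D1 ≤ η * n ^ 2 + θ * (p - κ) := by linarith
  -- row defects
  have hrow : ∀ i ∈ T, ∑ j ∈ T, A i j ≤ κ - 1 := by
    intro i hiT
    rw [← Finset.sum_erase_add T _ hiT, hA.diag, add_zero]
    calc ∑ j ∈ T.erase i, A i j ≤ ∑ _j ∈ T.erase i, (1 : ℝ) :=
          Finset.sum_le_sum fun j _ => hA.le_one i j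
      _ = κ - 1 := by
          rw [Finset.sum_const, nsmul_eq_mul, mul_one, Finset.card_erase_of_mem hiT,
            Nat.cast_sub (Finset.card_pos.mpr ⟨i, hiT⟩)]
          simp [hκ]
  set M1 : ℝ := ∑ i ∈ T, ((κ - 1) - ∑ j ∈ T, A i j) with hM1
  have hM0 : 0 ≤ M1 := Finset.sum_nonneg fun i hi => by linarith [hrow i hi]
  have hM1' : M1 = κ * (κ - 1) - ∑ i ∈ T, ∑ j ∈ T, A i j := by
    rw [hM1, Finset.sum_sub_distrib, Finset.sum_const, nsmul_eq_mul]
  have hcross : S1 - ∑ i ∈ T, ∑ j ∈ T, A i j ≤ D1 := by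
    have e1 : S1 = ∑ i ∈ T, ∑ j ∈ T, A i j + ∑ i ∈ T, ∑ j ∈ Tᶜ, A i j := by
      rw [hS1, ← Finset.sum_add_distrib]
      refine Finset.sum_congr rfl fun i _ => ?_
      rw [dg, Finset.sum_add_sum_compl]
    have e2 : ∑ i ∈ T, ∑ j ∈ Tᶜ, A i j = ∑ j ∈ Tᶜ, ∑ i ∈ T, A j i := by
      refine (Finset.sum_comm (s := T) (t := Tᶜ) (f := fun i j => A i j)).trans ?_
      refine Finset.sum_congr rfl fun j _ => Finset.sum_congr rfl fun i _ => hA.symm _ _
    have e3 : ∑ j ∈ Tᶜ, ∑ i ∈ T, A j i ≤ D1 := by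
      refine Finset.sum_le_sum fun j _ => ?_
      rw [dg]
      exact Finset.sum_le_univ_sum_of_nonneg fun i => hA.nonneg _ _
    linarith
  have hii : p ^ 2 - κ ^ 2 + M1 ≤ 2 * D1 := by
    rw [hM1']; linarith
  have hiii : p ^ 2 - θ * p - η * n ^ 2 ≤ κ * (n - θ) := by
    have : S1 ≤ κ * n := by
      calc S1 ≤ ∑ _i ∈ T, n := Finset.sum_le_sum fun i _ => by rw [hnV]; exact dg_le hA i
        _ = κ * n := by rw [Finset.sum_const, nsmul_eq_mul]
    linarith
  obtain ⟨r1, r2, r3⟩ := real_core hn hε hε1 hη hη4 hηn hp0 h1 h2 hb1 hb2 hκ0 hκn hD0 hM0 hi hii hiii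
  rw [← hη1] at r1 r2 r3
  -- the margin
  have hpn : 2 * ε * n ≤ p := by
    by_contra h
    push Not at h
    have : p ^ 2 < (2 * ε * n) ^ 2 := pow_lt_pow_left₀ h hp0 (by norm_num)
    have q0 : ε * ε ≤ 1 / 2 * ε := mul_le_mul_of_nonneg_right (by linarith) hε.le
    have q1 : ε * ε * n ^ 2 ≤ 1 / 2 * ε * n ^ 2 :=
      mul_le_mul_of_nonneg_right q0 (by positivity)
    linarith [mul_pos hε (pow_pos hn 2)]
  have hp34 : p ≤ 3 / 4 * n := by
    by_contra h
    push Not at h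
    have : (3 / 4 * n) ^ 2 < p ^ 2 := pow_lt_pow_left₀ h (by positivity) (by norm_num)
    linarith [mul_pos hε (pow_pos hn 2), pow_pos hn 2]
  have hθle : θ ≤ p ^ 2 / n + 1 := by
    rw [← mul_le_mul_iff_left₀ hn]
    have : (p ^ 2 / n + 1) * n = p ^ 2 + n := by field_simp
    rw [this]; exact hb2
  have hpp : p ^ 2 / n ≤ p * (3 / 4) := by
    rw [div_le_iff₀ hn]
    have := mul_le_mul_of_nonneg_left hp34 hp0
    linarith
  have hη1δ : 2 * η1 ≤ δ := by linarith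
  have hgap0 : (ε / 2 - η) * n ≤ p - θ := by linarith
  have hgap : θ + 4 * (δ * n) ≤ κ := by
    have h5 : p - η1 * n ≤ κ := by
      have := abs_le.mp r1
      linarith [this.1]
    have h6 : (ε / 2 - η - η1) * n ≤ κ - θ := by linarith
    have h7 : 4 * δ ≤ ε / 2 - η - η1 := by rw [hδ]; rw [hδ] at hη1δ; linarith
    have h8 := mul_le_mul_of_nonneg_right h7 hn.le
    linarith
  have hth : 20 * (δ * n) ≤ θ := by
    have : 2 * ε * n * n ≤ θ * n := by linarith
    have := le_of_mul_le_mul_right this hn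
    rw [hδ]; linarith
  have h1δn : 1 ≤ δ * n := by nlinarith
  -- exceptional vertices
  set X := exc A θ (δ * n) with hX
  have hXT : ((X ∩ T).card : ℝ) * (2 * (δ * n)) ≤ M1 := by
    calc ((X ∩ T).card : ℝ) * (2 * (δ * n)) = ∑ _i ∈ X ∩ T, (2 * (δ * n)) := by
          rw [Finset.sum_const, nsmul_eq_mul]
      _ ≤ ∑ i ∈ X ∩ T, ((κ - 1) - ∑ j ∈ T, A i j) := by
          refine Finset.sum_le_sum fun i hi => ?_
          rw [Finset.mem_inter] at hi
          have h8 := (mem_exc.mp hi.1).2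
          have h9 : ∑ j ∈ T, A i j ≤ dg A i :=
            Finset.sum_le_univ_sum_of_nonneg fun j => hA.nonneg _ _
          linarith
      _ ≤ M1 := by
          refine Finset.sum_le_sum_of_subset_of_nonneg Finset.inter_subset_right ?_
          intro i hi _
          linarith [hrow i hi]
  have hXC : ((X ∩ Tᶜ).card : ℝ) * (δ * n) ≤ D1 := by
    calc ((X ∩ Tᶜ).card : ℝ) * (δ * n) = ∑ _i ∈ X ∩ Tᶜ, (δ * n) := by
          rw [Finset.sum_const, nsmul_eq_mul]
      _ ≤ ∑ i ∈ X ∩ Tᶜ, dg A i := by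
          refine Finset.sum_le_sum fun i hi => ?_
          rw [Finset.mem_inter] at hi
          have h8 := (mem_exc.mp hi.1).1
          linarith
      _ ≤ D1 := by
          refine Finset.sum_le_sum_of_subset_of_nonneg Finset.inter_subset_right ?_
          intro i _ _
          exact dg_nonneg hA i
  have hXcard : (X.card : ℝ) = ((X ∩ T).card : ℝ) + ((X ∩ Tᶜ).card : ℝ) := by
    have : X ∩ Tᶜ = X \ T := by ext i; simp
    rw [this]
    have := Finset.card_inter_add_card_sdiff X T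
    exact_mod_cast this.symm
  have hexc : (X.card : ℝ) ≤ η2 * n := by
    have hδn : 0 < δ * n := by positivity
    have a1 : ((X ∩ T).card : ℝ) ≤ η1 / (2 * δ) * n := by
      have : ((X ∩ T).card : ℝ) * (2 * (δ * n)) ≤ (η1 / (2 * δ) * n) * (2 * (δ * n)) := by
        have e : (η1 / (2 * δ) * n) * (2 * (δ * n)) = η1 * n ^ 2 := by field_simp
        rw [e]; linarith
      exact le_of_mul_le_mul_right this (by positivity)
    have a2 : ((X ∩ Tᶜ).card : ℝ) ≤ η1 / δ * n := by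
      have : ((X ∩ Tᶜ).card : ℝ) * (δ * n) ≤ (η1 / δ * n) * (δ * n) := by
        have e : (η1 / δ * n) * (δ * n) = η1 * n ^ 2 := by field_simp
        rw [e]; linarith
      exact le_of_mul_le_mul_right this (by positivity)
    have a3 : η1 / (2 * δ) = (η1 / δ) / 2 := by field_simp
    have a4 : η2 = 2 * (η1 / δ) := by rw [hη2]; ring
    have a5 : 0 < η1 / δ := by positivity
    rw [hXcard, a4]
    rw [a3] at a1
    linarith
  exact ⟨r1, r3, hexc, hgap, hth⟩

end Pool.Agent.Helper53.LE
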