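import Pool.Agent.Helper53.LE.Upper

/-!
Laplacian energy of a graph and complements.
-/

namespace Pool.Agent.Helper53.LE

open Matrix Finset

/-- The Laplacian energy of a graph on `n` vertices: the sum of the distances of the
eigenvalues of the Laplacian matrix (with multiplicity) from the average degree
`2 |E(G)| / n`. -/
noncomputable def laplacianEnergy {n : ℕ} (G : SimpleGraph (Fin n)) : ℝ :=
  haveI : DecidableRel G.Adj := Classical.decRel _
  ∑ i, |(SimpleGraph.isHermitian_lapMatrix (R := ℝ) G).eigenvalues i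
    - 2 * (G.edgeSet.ncard : ℝ) / n|

variable {V : Type*} [Fintype V] [DecidableEq V]

lemma isGr_adjMatrix (G : SimpleGraph V) [DecidableRel G.Adj] : IsGr (G.adjMatrix ℝ) := by
  refine ⟨?_, ?_, ?_⟩
  · intro i j; simp [SimpleGraph.adjMatrix_apply, G.adj_comm]
  · intro i; simp
  · intro i j
    rw [SimpleGraph.adjMatrix_apply]
    split_ifs <;> simp

lemma dg_adjMatrix (G : SimpleGraph V) [DecidableRel G.Adj] (i : V) :
    dg (G.adjMatrix ℝ) i = G.degree i := by
  rw [SimpleGraph.degree_eq_sum_if_adj, dg]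
  rfl

lemma lap_adjMatrix (G : SimpleGraph V) [DecidableRel G.Adj] :
    lap (G.adjMatrix ℝ) = G.lapMatrix ℝ := by
  unfold lap SimpleGraph.lapMatrix SimpleGraph.degMatrix
  congr 2
  ext i
  exact dg_adjMatrix G i

lemma sum_adjMatrix (G : SimpleGraph V) [DecidableRel G.Adj] :
    ∑ i, ∑ j, G.adjMatrix ℝ i j = 2 * (G.edgeSet.ncard : ℝ) := by
  have h1 : ∀ i, ∑ j, G.adjMatrix ℝ i j = G.degree i := fun i => dg_adjMatrix G i
  simp only [h1]
  have h2 := G.sum_degrees_eq_twice_card_edges
  have h3 : G.edgeSet.ncard = G.edgeFinset.card := by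
    rw [← SimpleGraph.coe_edgeFinset, Set.ncard_coe_finset]
  rw [h3]
  exact_mod_cast h2

lemma lap_mulVec_one {A : Matrix V V ℝ} (hA : IsGr A) : lap A *ᵥ (fun _ => (1 : ℝ)) = 0 := by
  ext i
  unfold lap
  rw [sub_mulVec, Pi.sub_apply, mulVec_diagonal]
  simp [mulVec, dotProduct, dg]

lemma trace_lap {A : Matrix V V ℝ} (hA : IsGr A) : (lap A).trace = ∑ i, ∑ j, A i j := by
  unfold lap
  rw [trace_sub, trace_diagonal]
  have : A.trace = 0 := by
    rw [Matrix.trace]; exact Finset.sum_eq_zero fun i _ => hA.diag i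
  rw [this, sub_zero]; rfl

lemma lap_isHermitian {A : Matrix V V ℝ} (hA : IsGr A) : (lap A).IsHermitian := by
  rw [IsHermitian, conjTranspose_eq_transpose_of_trivial]
  unfold lap
  rw [transpose_sub, diagonal_transpose]
  congr 1
  ext i j
  exact hA.symm j i

/-- the complement matrix -/
noncomputable def cpl (A : Matrix V V ℝ) : Matrix V V ℝ := fun i j => if i = j then 0 else 1 - A i j

lemma isGr_cpl {A : Matrix V V ℝ} (hA : IsGr A) : IsGr (cpl A) := by
  refine ⟨?_, ?_, ?_⟩
  · intro i j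
    unfold cpl
    by_cases h : i = j
    · subst h; rfl
    · rw [if_neg h, if_neg (Ne.symm h), hA.symm]
  · intro i; simp [cpl]
  · intro i j
    unfold cpl
    split_ifs
    · left; rfl
    · rcases hA.zo i j with h | h <;> rw [h] <;> norm_num

/-- the all-one matrix -/
def JJ (V : Type*) [Fintype V] : Matrix V V ℝ := of fun _ _ => (1 : ℝ)

lemma lap_cpl {A : Matrix V V ℝ} (hA : IsGr A) :
    lap A + lap (cpl A) = (Fintype.card V : ℝ) • (1 : Matrix V V ℝ) - JJ V := by
  ext i j
  have hd : dg (cpl A) i = (Fintype.card V : ℝ) - 1 - dg A i := by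
    unfold dg cpl
    have : ∀ j, (if i = j then 0 else 1 - A i j) = (1 - A i j) - (if i = j then 1 else 0) := by
      intro j
      split_ifs with h
      · subst h; rw [hA.diag]; ring
      · ring
    simp only [this, Finset.sum_sub_distrib, Finset.sum_const, Finset.card_univ, nsmul_eq_mul,
      mul_one, Finset.sum_ite_eq, Finset.mem_univ, if_true]
    ring
  unfold lap
  simp only [Matrix.add_apply, Matrix.sub_apply, Matrix.smul_apply, smul_eq_mul, JJ, of_apply]
  by_cases h : i = j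
  · subst h
    rw [diagonal_apply_eq, diagonal_apply_eq, hd, one_apply_eq, hA.diag, (isGr_cpl hA).diag]
    ring
  · rw [diagonal_apply_ne _ h, diagonal_apply_ne _ h, one_apply_ne h]
    simp only [cpl, h, if_false]
    ring

lemma lap_mul_J {A : Matrix V V ℝ} (hA : IsGr A) : lap A * JJ V = 0 := by
  ext i j
  have := congrFun (lap_mulVec_one hA) i
  simpa [Matrix.mul_apply, JJ, mulVec, dotProduct] using this

/-- complementary projection -/
lemma compl_proj {P : Matrix V V ℝ} (hP : IsProj P) (hPJ : P * JJ V = 0)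
    (hV : (Fintype.card V : ℝ) ≠ 0) :
    IsProj (1 - (1 / (Fintype.card V : ℝ)) • JJ V - P) := by
  have hJs : (JJ V)ᵀ = JJ V := rfl
  have hJP : JJ V * P = 0 := by
    have := congrArg transpose hPJ
    rwa [transpose_mul, hJs, hP.symm, transpose_zero] at this
  have hJJ : JJ V * JJ V = (Fintype.card V : ℝ) • JJ V := by
    ext i j
    simp [Matrix.mul_apply, JJ]
  refine ⟨?_, ?_⟩
  · rw [transpose_sub, transpose_sub, transpose_one, transpose_smul, hJs, hP.symm]
  · set c : ℝ := (Fintype.card V : ℝ) with hc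
    have e1 : (c⁻¹ • JJ V) * (c⁻¹ • JJ V) = c⁻¹ • JJ V := by
      rw [smul_mul_smul_comm, hJJ, smul_smul]
      congr 1
      field_simp
    rw [one_div]
    have e2 : (1 - c⁻¹ • JJ V - P) * (1 - c⁻¹ • JJ V - P) =
        1 - c⁻¹ • JJ V - P - (c⁻¹ • JJ V) + (c⁻¹ • JJ V) * (c⁻¹ • JJ V) + (c⁻¹ • JJ V) * P
          - P + P * (c⁻¹ • JJ V) + P * P := by
      generalize c⁻¹ • JJ V = X
      noncomm_ring
    rw [e2, e1, hP.idem, smul_mul_assoc, mul_smul_comm, hJP, hPJ]
    simp

/-- the trace identity for complements -/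
lemma trace_compl {A P : Matrix V V ℝ} (hA : IsGr A) (hPJ : P * JJ V = 0)
    (hJP : JJ V * P = 0) (hV : (Fintype.card V : ℝ) ≠ 0) (θ : ℝ) :
    ((lap (cpl A) - ((Fintype.card V : ℝ) - θ) • (1 : Matrix V V ℝ)) *
      (1 - (1 / (Fintype.card V : ℝ)) • JJ V - P)).trace =
    ((lap A - θ • (1 : Matrix V V ℝ)) * P).trace + (∑ i, ∑ j, cpl A i j)
      - ((Fintype.card V : ℝ) - θ) * ((Fintype.card V : ℝ) - 1) := by
  set c : ℝ := (Fintype.card V : ℝ) with hc
  have hLc : lap (cpl A) = c • (1 : Matrix V V ℝ) - JJ V - lap A := by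
    rw [← lap_cpl hA]; abel
  have hJ0 : lap (cpl A) * JJ V = 0 := lap_mul_J (isGr_cpl hA)
  have htJ : (JJ V).trace = c := by simp [JJ, Matrix.trace, hc]
  have ht1 : (1 : Matrix V V ℝ).trace = c := by rw [trace_one]
  have e1 : (lap (cpl A) * (1 - (1 / c) • JJ V - P)).trace =
      (∑ i, ∑ j, cpl A i j) - (lap (cpl A) * P).trace := by
    rw [mul_sub, mul_sub, mul_one, mul_smul_comm, hJ0, smul_zero, sub_zero, trace_sub,
      trace_lap (isGr_cpl hA)]
  have e2 : (lap (cpl A) * P).trace = c * P.trace - (lap A * P).trace := by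
    rw [hLc, sub_mul, sub_mul, smul_mul_assoc, one_mul, hJP, sub_zero, trace_sub, trace_smul,
      smul_eq_mul]
  rw [sub_mul, trace_sub, e1, e2, smul_mul_assoc, one_mul, trace_smul, trace_sub, trace_sub,
    trace_smul, htJ, ht1, sub_mul, trace_sub, smul_mul_assoc, one_mul, trace_smul]
  simp only [smul_eq_mul]
  field_simp
  ring

/-- a spectral projection for a positive threshold kills the all-one matrix -/
lemma spec_mul_J {A P : Matrix V V ℝ} (hA : IsGr A) {θ : ℝ} (hS : IsSpec (lap A) P θ)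
    (hθ : 0 < θ) : P * JJ V = 0 := by
  set x : V → ℝ := P *ᵥ (fun _ => 1) with hx
  have hLx : lap A *ᵥ x = 0 := by
    rw [hx, mulVec_mulVec, ← hS.comm, ← mulVec_mulVec, lap_mulVec_one hA, mulVec_zero]
  have hPx : P *ᵥ x = x := by rw [hx, mulVec_mulVec, hS.proj.idem]
  have h1 := hS.pos.dotProduct_mulVec_nonneg x
  rw [star_trivial, ← mulVec_mulVec, hPx, sub_mulVec, hLx, zero_sub, smul_mulVec, one_mulVec,
    dotProduct_neg, dotProduct_smul, smul_eq_mul] at h1
  have h2 : 0 ≤ x ⬝ᵥ x := by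
    rw [dotProduct]; exact Finset.sum_nonneg fun _ _ => mul_self_nonneg _
  have h3 : x ⬝ᵥ x = 0 := by nlinarith
  have h4 : x = 0 := by
    rw [dotProduct, Finset.sum_eq_zero_iff_of_nonneg (fun _ _ => mul_self_nonneg _)] at h3
    ext i
    exact mul_self_eq_zero.mp (h3 i (Finset.mem_univ i))
  ext i j
  have := congrFun h4 i
  simpa [hx, Matrix.mul_apply, JJ, mulVec, dotProduct] using this

end Pool.Agent.Helper53.LE
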