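import Pool.Agent.Helper53.LE.Upper
import Pool.Agent.Helper53.LE.Energy

/-!
Structure of nearly extremal graphs at every positive density: either the graph or its
complement is close to a clique.
-/

namespace Pool.Agent.Helper53.LE

open Matrix Finset

lemma real2 {u b k D M ε η : ℝ} (hε : 0 < ε) (hε1 : ε ≤ 1 / 4) (hη : 0 < η)
    (h1 : 2 * ε ≤ u ^ 2)
    (hb1 : u ^ 2 ≤ b) (hb2 : b ≤ 1) (hu1 : u ≤ 1) (hk1 : k ≤ 1) (hD0 : 0 ≤ D)
    (hM0 : 0 ≤ M) (hi : D ≤ η + b * (u - k)) (hii : u ^ 2 - k ^ 2 + M ≤ 2 * D)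
    (hc : ε / 4 ≤ u + k - 2 * b) :
    |k - u| ≤ 20 * η / ε ∧ M ≤ 20 * η / ε ∧ D ≤ 20 * η / ε := by
  have hstar : (u - k) * (u + k - 2 * b) + M ≤ 2 * η := by linarith
  have e20 : 20 * η / ε = 20 * (η / ε) := by ring
  have hηε : 4 * η ≤ η / ε := by
    rw [le_div_iff₀ hε]; nlinarith
  have hηε0 : 0 < η / ε := by positivity
  rw [e20]
  rcases le_or_gt k u with hku | hku
  · have h2 : (u - k) * (ε / 4) ≤ (u - k) * (u + k - 2 * b) :=
      mul_le_mul_of_nonneg_left hc (by linarith)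
    have h3 : u - k ≤ 8 * (η / ε) := by
      have : (u - k) * ε ≤ 8 * η := by linarith
      have h4 : u - k ≤ 8 * η / ε := by rw [le_div_iff₀ hε]; exact this
      calc u - k ≤ 8 * η / ε := h4
        _ = _ := by ring
    have h5 : 0 ≤ (u - k) * (u + k - 2 * b) := mul_nonneg (by linarith) (by linarith)
    have h6 : b * (u - k) ≤ 1 * (u - k) := mul_le_mul_of_nonneg_right hb2 (by linarith)
    refine ⟨?_, ?_, ?_⟩
    · rw [abs_of_nonpos (by linarith)]; linarith
    · linarith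
    · linarith
  · have h2 : b * (k - u) ≤ η := by linarith
    have h3 : (k - u) * (2 * ε) ≤ (k - u) * b :=
      mul_le_mul_of_nonneg_left (by linarith) (by linarith)
    have h4 : k - u ≤ η / ε / 2 := by
      rw [le_div_iff₀ (by norm_num), le_div_iff₀ hε]
      linarith
    have hb0 : 0 ≤ b := by linarith
    have h5 : (k - u) * (u + k - 2 * b) ≤ (k - u) * 2 :=
      mul_le_mul_of_nonneg_left (by linarith) (by linarith)
    have h6 : b * (u - k) ≤ 0 := mul_nonpos_of_nonneg_of_nonpos hb0 (by linarith)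
    refine ⟨?_, ?_, ?_⟩
    · rw [abs_of_pos (by linarith)]; linarith
    · linarith
    · linarith

lemma real2' {n p θ κ D M ε η : ℝ} (hn : 0 < n) (hε : 0 < ε) (hε1 : ε ≤ 1 / 4) (hη : 0 < η)
    (hp1 : p ≤ n) (h1 : 2 * ε * n ^ 2 ≤ p ^ 2)
    (hb1 : p ^ 2 ≤ θ * n) (hb2 : θ ≤ n) (hk1 : κ ≤ n) (hD0 : 0 ≤ D)
    (hM0 : 0 ≤ M) (hi : D ≤ η * n ^ 2 + θ * (p - κ)) (hii : p ^ 2 - κ ^ 2 + M ≤ 2 * D)
    (hc : ε / 4 * n ≤ p + κ - 2 * θ) :
    |κ - p| ≤ 20 * η / ε * n ∧ M ≤ 20 * η / ε * n ^ 2 ∧ D ≤ 20 * η / ε * n ^ 2 := by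
  have hn2 : 0 < n ^ 2 := by positivity
  have key := real2 (u := p / n) (b := θ / n) (k := κ / n) (D := D / n ^ 2) (M := M / n ^ 2)
    hε hε1 hη
    (by rw [div_pow, le_div_iff₀ hn2]; linarith)
    (by
      rw [div_pow, div_le_div_iff₀ hn2 hn]
      nlinarith)
    (by rw [div_le_one hn]; exact hb2)
    (by rw [div_le_one hn]; exact hp1)
    (by rw [div_le_one hn]; exact hk1)
    (by positivity) (by positivity)
    (by
      have : η + θ / n * (p / n - κ / n) = (η * n ^ 2 + θ * (p - κ)) / n ^ 2 := by field_simp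
      rw [this]
      exact div_le_div_of_nonneg_right hi hn2.le)
    (by
      have e1 : (p / n) ^ 2 - (κ / n) ^ 2 + M / n ^ 2 = (p ^ 2 - κ ^ 2 + M) / n ^ 2 := by
        field_simp
      have e2 : 2 * (D / n ^ 2) = (2 * D) / n ^ 2 := by ring
      rw [e1, e2]
      exact div_le_div_of_nonneg_right hii hn2.le)
    (by
      have e1 : p / n + κ / n - 2 * (θ / n) = (p + κ - 2 * θ) / n := by ring
      rw [e1, le_div_iff₀ hn]; exact hc)
  obtain ⟨k1, k2, k3⟩ := key
  refine ⟨?_, ?_, ?_⟩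
  · have : κ / n - p / n = (κ - p) / n := by ring
    rw [this, abs_div, abs_of_pos hn, div_le_iff₀ hn] at k1
    exact k1
  · rwa [div_le_iff₀ hn2] at k2
  · rwa [div_le_iff₀ hn2] at k3

/-- admissible constants, second version -/
structure CC (ε δ η η1 η2 n : ℝ) : Prop where
  hn : 0 < n
  hε : 0 < ε
  hε1 : ε ≤ 1 / 4
  hδ : δ = ε / 20
  hη : 0 < η
  hη1 : η1 = 20 * η / ε
  hη2 : η2 = 2 * η1 / δ
  hη3 : 24 * (η1 + η2 + η2) ≤ δ ^ 4
  c1 : 64 ≤ η ^ 2 * n
  c2 : 64 ≤ η * n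
  c3 : 400 ≤ δ ^ 2 * n
  c4 : 16 ≤ δ ^ 3 * n
  c5 : 1 ≤ δ ^ 4 * n

lemma exists_CC {ε : ℝ} (hε : 0 < ε) (hε1 : ε ≤ 1 / 4) (N : ℝ) :
    ∃ δ η η1 η2 : ℝ, ∃ n0 : ℕ, ∀ n : ℕ, n0 ≤ n → CC ε δ η η1 η2 n ∧ N ≤ n := by
  set δ : ℝ := ε / 20 with hδ
  have hδ0 : 0 < δ := by positivity
  have hδ1 : δ ≤ 1 / 80 := by rw [hδ]; linarith
  set η1 : ℝ := δ ^ 5 / 200 with hη1
  set η : ℝ := ε * η1 / 20 with hη
  have hη0 : 0 < η := by positivity
  obtain ⟨n0, hn0⟩ := exists_nat_ge (400 / η ^ 2 + 400 / δ ^ 4 + |N|)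
  refine ⟨δ, η, η1, 2 * η1 / δ, n0, fun n hn => ?_⟩
  have hn' : 400 / η ^ 2 + 400 / δ ^ 4 + |N| ≤ (n : ℝ) := hn0.trans (by exact_mod_cast hn)
  have p1 : 0 < 400 / η ^ 2 := by positivity
  have p2 : 0 < 400 / δ ^ 4 := by positivity
  have p3 := abs_nonneg N
  have hnpos : (0 : ℝ) < n := by linarith
  have q1 : 400 ≤ η ^ 2 * n := by
    have : 400 / η ^ 2 ≤ (n : ℝ) := by linarith
    rw [div_le_iff₀ (by positivity)] at this
    linarith
  have q3 : 400 ≤ δ ^ 4 * n := by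
    have : 400 / δ ^ 4 ≤ (n : ℝ) := by linarith
    rw [div_le_iff₀ (by positivity)] at this
    linarith
  have q2 : 400 ≤ δ ^ 3 * n := by
    have : δ ^ 4 * n ≤ δ ^ 3 * n := by
      apply mul_le_mul_of_nonneg_right _ hnpos.le
      nlinarith [pow_pos hδ0 3]
    linarith
  have hη1' : η ≤ 1 := by
    have h1 : δ ^ 5 ≤ 1 := pow_le_one₀ hδ0.le (by linarith)
    have h3 : ε * η1 ≤ 1 * 1 := by
      apply mul_le_mul (by linarith) _ (by positivity) (by norm_num)
      rw [hη1]; linarith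
    rw [hη]; linarith
  refine ⟨⟨hnpos, hε, hε1, hδ, hη0, ?_, rfl, ?_, by linarith, ?_, ?_, by linarith,
    by linarith⟩, ?_⟩
  · rw [hη]; field_simp
  · rw [hη1]
    have e : 24 * (δ ^ 5 / 200 + 2 * (δ ^ 5 / 200) / δ + 2 * (δ ^ 5 / 200) / δ)
        = (24 / 200 * δ + 96 / 200) * δ ^ 4 := by
      field_simp; ring
    rw [e]
    have : 24 / 200 * δ + 96 / 200 ≤ 1 := by linarith
    calc (24 / 200 * δ + 96 / 200) * δ ^ 4 ≤ 1 * δ ^ 4 :=
          mul_le_mul_of_nonneg_right this (by positivity)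
      _ = _ := by ring
  · have : η ^ 2 * n ≤ η * n := mul_le_mul_of_nonneg_right (by nlinarith) hnpos.le
    linarith
  · have : δ ^ 3 * n ≤ δ ^ 2 * n := by
      apply mul_le_mul_of_nonneg_right _ hnpos.le
      nlinarith [sq_nonneg δ]
    linarith
  · have := le_abs_self N
    linarith

lemma CC.facts {ε δ η η1 η2 n : ℝ} (h : CC ε δ η η1 η2 n) :
    0 < δ ∧ δ ≤ 1 / 80 ∧ 0 < η1 ∧ 0 < η2 ∧ 24 * η2 ≤ δ ^ 4 ∧ 24 * η1 ≤ δ ^ 4 ∧ δ ^ 4 ≤ δ / 100 ∧
      η ≤ η1 := by
  have hε := h.hε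
  have hη := h.hη
  have h1 : 0 < δ := by rw [h.hδ]; positivity
  have h2 : δ ≤ 1 / 80 := by rw [h.hδ]; linarith [h.hε1]
  have h3 : 0 < η1 := by rw [h.hη1]; positivity
  have h4 : 0 < η2 := by rw [h.hη2]; positivity
  have h5 : δ ^ 4 ≤ δ / 100 := by
    have : δ ^ 3 ≤ (1 / 80) ^ 3 := pow_le_pow_left₀ h1.le h2 3
    nlinarith
  have := h.hη3
  have h6 : η ≤ η1 := by
    rw [h.hη1, le_div_iff₀ hε]
    nlinarith [h.hε1]
  exact ⟨h1, h2, h3, h4, by linarith, by linarith, h5, h6⟩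

variable {V : Type*} [Fintype V] [DecidableEq V]

theorem base_T {A : Matrix V V ℝ} (hA : IsGr A) {θ n p ε η δ η1 η2 : ℝ}
    (hC : CC ε δ η η1 η2 n)
    (hnV : n = Fintype.card V)
    (hp0 : 0 ≤ p) (hp : p ^ 2 = ∑ i, ∑ j, A i j)
    (h1 : 2 * ε * n ^ 2 ≤ p ^ 2) (h2 : p ^ 2 ≤ (1 - 2 * ε) * n ^ 2)
    (hb1 : p ^ 2 ≤ θ * n) (hb2 : θ * n ≤ p ^ 2 + n) (T : Finset V)
    (hT1 : ∀ i ∈ T, θ - 1 ≤ dg A i) (hT2 : ∀ i, i ∉ T → dg A i ≤ θ + 1)
    (hnear : p ^ 2 - θ * p - η * n ^ 2 ≤ ∑ i ∈ T, dg A i - θ * T.card)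
    (hcase : ε / 4 * n ≤ p + T.card - 2 * θ) :
    Base A θ n p δ (η1 + η2) η2 := by
  classical
  obtain ⟨hδ0, hδ1, hη10, hη20, hη2δ, hη1δ, hδ4, hηη1⟩ := hC.facts
  have hn := hC.hn
  have hε := hC.hε
  have hε1 := hC.hε1
  have hη := hC.hη
  have hδ := hC.hδ
  have hηn := hC.c2
  have hpn : p ≤ n := by
    by_contra h
    push Not at h
    have : n ^ 2 < p ^ 2 := pow_lt_pow_left₀ h hn.le (by norm_num)
    linarith [mul_pos hε (pow_pos hn 2)]
  have hθn : θ ≤ n := by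
    have h3 : θ * n ≤ n * n := by
      have : n ≤ 2 * ε * n ^ 2 := by
        have h4 : 1 ≤ 2 * ε * n := by
          rw [hδ] at hη1δ
          have h5 : 64 ≤ η * n := hηn
          have h6 : η * n ≤ η1 * n := mul_le_mul_of_nonneg_right hηη1 hn.le
          have h7 : η1 ≤ ε := by
            have : (ε / 20) ^ 4 ≤ ε := by
              have : (ε / 20) ^ 3 ≤ 1 := pow_le_one₀ (by positivity) (by linarith)
              nlinarith
            linarith
          have h8 := mul_le_mul_of_nonneg_right h7 hn.le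
          linarith
        have h9 := mul_le_mul_of_nonneg_right h4 hn.le
        linarith
      linarith
    exact le_of_mul_le_mul_right h3 hn
  set κ : ℝ := ((T.card : ℕ) : ℝ) with hκ
  have hκ0 : 0 ≤ κ := by positivity
  have hκn : κ ≤ n := by
    rw [hκ, hnV]
    exact_mod_cast Finset.card_le_univ T
  set S1 : ℝ := ∑ i ∈ T, dg A i with hS1
  set D1 : ℝ := ∑ i ∈ Tᶜ, dg A i with hD1
  have hsum : S1 + D1 = p ^ 2 := by
    rw [hS1, hD1, Finset.sum_add_sum_compl, hp]; rfl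
  have hD0 : 0 ≤ D1 := Finset.sum_nonneg fun i _ => dg_nonneg hA i
  have hi : D1 ≤ η * n ^ 2 + θ * (p - κ) := by linarith
  -- row defects
  have hrow : ∀ i ∈ T, ∑ j ∈ T, A i j ≤ κ - 1 := by
    intro i hiT
    rw [← Finset.sum_erase_add T _ hiT, hA.diag, add_zero]
    calc ∑ j ∈ T.erase i, A i j ≤ ∑ _j ∈ T.erase i, (1 : ℝ) :=
          Finset.sum_le_sum fun j _ => hA.le_one i j
      _ = κ - 1 := by
          rw [Finset.sum_const, nsmul_eq_mul, mul_one, Finset.card_erase_of_mem hiT,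
            Nat.cast_sub (Finset.card_pos.mpr ⟨i, hiT⟩)]
          simp [hκ]
  set M1 : ℝ := ∑ i ∈ T, ((κ - 1) - ∑ j ∈ T, A i j) with hM1
  have hM0 : 0 ≤ M1 := Finset.sum_nonneg fun i hi => by linarith [hrow i hi]
  have hM1' : M1 = κ * (κ - 1) - ∑ i ∈ T, ∑ j ∈ T, A i j := by
    rw [hM1, Finset.sum_sub_distrib, Finset.sum_const, nsmul_eq_mul]
  have hcross : S1 - ∑ i ∈ T, ∑ j ∈ T, A i j ≤ D1 := by
    have e1 : S1 = ∑ i ∈ T, ∑ j ∈ T, A i j + ∑ i ∈ T, ∑ j ∈ Tᶜ, A i j := by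
      rw [hS1, ← Finset.sum_add_distrib]
      refine Finset.sum_congr rfl fun i _ => ?_
      rw [dg, Finset.sum_add_sum_compl]
    have e2 : ∑ i ∈ T, ∑ j ∈ Tᶜ, A i j = ∑ j ∈ Tᶜ, ∑ i ∈ T, A j i := by
      refine (Finset.sum_comm (s := T) (t := Tᶜ) (f := fun i j => A i j)).trans ?_
      refine Finset.sum_congr rfl fun j _ => Finset.sum_congr rfl fun i _ => hA.symm _ _
    have e3 : ∑ j ∈ Tᶜ, ∑ i ∈ T, A j i ≤ D1 := by
      refine Finset.sum_le_sum fun j _ => ?_
      rw [dg]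
      exact Finset.sum_le_univ_sum_of_nonneg fun i => hA.nonneg _ _
    linarith
  have hii : p ^ 2 - κ ^ 2 + M1 ≤ 2 * D1 := by
    rw [hM1']; linarith
  obtain ⟨r1, r2, r3⟩ := real2' hn hε hε1 hη hpn h1 hb1 hθn hκn hD0 hM0 hi hii hcase
  rw [← hC.hη1] at r1 r2 r3
  -- the margin
  have h2εn : 0 ≤ 2 * ε * n := by positivity
  have hpn2 : 2 * ε * n ≤ p := by
    by_contra h
    push Not at h
    have : p ^ 2 < (2 * ε * n) ^ 2 := pow_lt_pow_left₀ h hp0 (by norm_num)
    have q0 : ε * ε ≤ 1 / 2 * ε := mul_le_mul_of_nonneg_right (by linarith) hε.le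
    have q1 : ε * ε * n ^ 2 ≤ 1 / 2 * ε * n ^ 2 :=
      mul_le_mul_of_nonneg_right q0 (by positivity)
    linarith [mul_pos hε (pow_pos hn 2)]
  have hnp : ε * n ≤ n - p := by
    by_contra h
    push Not at h
    have h3 : (1 - ε) * n < p := by linarith
    have : ((1 - ε) * n) ^ 2 < p ^ 2 := pow_lt_pow_left₀ h3 (by linarith) (by norm_num)
    linarith [mul_pos (mul_pos hε hε) (pow_pos hn 2)]
  have hgap0 : ε / 2 * n ^ 2 ≤ p * (n - p) := by
    rcases le_or_gt p (n / 2) with h | h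
    · have : 2 * ε * n * (n / 2) ≤ p * (n - p) := by
        apply mul_le_mul hpn2 (by linarith) (by linarith) hp0
      linarith [mul_pos hε (pow_pos hn 2)]
    · have : (n / 2) * (ε * n) ≤ p * (n - p) := by
        apply mul_le_mul h.le hnp (by positivity) hp0
      linarith
  have hgap : θ + 5 * (δ * n) ≤ κ := by
    have h5 : p - η1 * n ≤ κ := by
      have := abs_le.mp r1
      linarith [this.1]
    have h6 : ε / 2 * n ^ 2 - n ≤ (p - θ) * n := by linarith
    have h7 : (ε / 2 - η) * n ≤ p - θ := by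
      have h8 : ((ε / 2 - η) * n) * n ≤ (p - θ) * n := by
        have : n ≤ η * n * n := by
          have := mul_le_mul_of_nonneg_right hηn hn.le
          linarith
        linarith
      exact le_of_mul_le_mul_right h8 hn
    have h9 : 5 * δ ≤ ε / 2 - η - η1 := by
      have : η1 ≤ δ / 2400 := by linarith
      rw [hδ] at this ⊢; linarith
    have h10 := mul_le_mul_of_nonneg_right h9 hn.le
    linarith
  have hth : 20 * (δ * n) ≤ θ := by
    have : 2 * ε * n * n ≤ θ * n := by linarith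
    have := le_of_mul_le_mul_right this hn
    rw [hδ]; linarith
  have h1δn : 2 ≤ δ * n := by
    have : η * n ≤ δ * n := mul_le_mul_of_nonneg_right (by linarith) hn.le
    linarith
  -- exceptional vertices
  set X := exc A θ (δ * n) with hX
  have hXT : ((X ∩ T).card : ℝ) * (2 * (δ * n)) ≤ M1 := by
    calc ((X ∩ T).card : ℝ) * (2 * (δ * n)) = ∑ _i ∈ X ∩ T, (2 * (δ * n)) := by
          rw [Finset.sum_const, nsmul_eq_mul]
      _ ≤ ∑ i ∈ X ∩ T, ((κ - 1) - ∑ j ∈ T, A i j) := by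
          refine Finset.sum_le_sum fun i hi => ?_
          rw [Finset.mem_inter] at hi
          have h8 := (mem_exc.mp hi.1).2
          have h9 : ∑ j ∈ T, A i j ≤ dg A i :=
            Finset.sum_le_univ_sum_of_nonneg fun j => hA.nonneg _ _
          linarith
      _ ≤ M1 := by
          refine Finset.sum_le_sum_of_subset_of_nonneg Finset.inter_subset_right ?_
          intro i hi _
          linarith [hrow i hi]
  have hXC : ((X ∩ Tᶜ).card : ℝ) * (δ * n) ≤ D1 := by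
    calc ((X ∩ Tᶜ).card : ℝ) * (δ * n) = ∑ _i ∈ X ∩ Tᶜ, (δ * n) := by
          rw [Finset.sum_const, nsmul_eq_mul]
      _ ≤ ∑ i ∈ X ∩ Tᶜ, dg A i := by
          refine Finset.sum_le_sum fun i hi => ?_
          rw [Finset.mem_inter] at hi
          have h8 := (mem_exc.mp hi.1).1
          linarith
      _ ≤ D1 := by
          refine Finset.sum_le_sum_of_subset_of_nonneg Finset.inter_subset_right ?_
          intro i _ _
          exact dg_nonneg hA i
  have hXcard : (X.card : ℝ) = ((X ∩ T).card : ℝ) + ((X ∩ Tᶜ).card : ℝ) := by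
    have : X ∩ Tᶜ = X \ T := by ext i; simp
    rw [this]
    have := Finset.card_inter_add_card_sdiff X T
    exact_mod_cast this.symm
  have hexc : (X.card : ℝ) ≤ η2 * n := by
    have hδn : 0 < δ * n := by positivity
    have a1 : ((X ∩ T).card : ℝ) ≤ η1 / (2 * δ) * n := by
      have : ((X ∩ T).card : ℝ) * (2 * (δ * n)) ≤ (η1 / (2 * δ) * n) * (2 * (δ * n)) := by
        have e : (η1 / (2 * δ) * n) * (2 * (δ * n)) = η1 * n ^ 2 := by field_simp
        rw [e]; linarith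
      exact le_of_mul_le_mul_right this (by positivity)
    have a2 : ((X ∩ Tᶜ).card : ℝ) ≤ η1 / δ * n := by
      have : ((X ∩ Tᶜ).card : ℝ) * (δ * n) ≤ (η1 / δ * n) * (δ * n) := by
        have e : (η1 / δ * n) * (δ * n) = η1 * n ^ 2 := by field_simp
        rw [e]; linarith
      exact le_of_mul_le_mul_right this (by positivity)
    have a3 : η1 / (2 * δ) = (η1 / δ) / 2 := by field_simp
    have a4 : η2 = 2 * (η1 / δ) := by rw [hC.hη2]; ring
    have a5 : 0 < η1 / δ := by positivity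
    rw [hXcard, a4]
    rw [a3] at a1
    linarith
  -- comparison of `T` with the set of vertices of degree above `θ`
  have hs1 : T ⊆ big A θ ∪ X := by
    intro i hi
    rw [Finset.mem_union, mem_big, hX, mem_exc]
    rcases lt_or_ge θ (dg A i) with h | h
    · left; exact h
    · right; have := hT1 i hi; constructor <;> linarith
  have hs2 : big A θ ⊆ T ∪ X := by
    intro i hi
    rw [Finset.mem_union, hX, mem_exc]
    by_cases h : i ∈ T
    · left; exact h
    · right; have := hT2 i h; have := mem_big.mp hi; constructor <;> linarith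
  have hc1 : κ ≤ (big A θ).card + X.card := by
    have := (Finset.card_le_card hs1).trans (Finset.card_union_le _ _)
    rw [hκ]; exact_mod_cast this
  have hc2 : ((big A θ).card : ℝ) ≤ κ + X.card := by
    have := (Finset.card_le_card hs2).trans (Finset.card_union_le _ _)
    rw [hκ]; exact_mod_cast this
  have hη2δ' : η2 * n ≤ δ * n := mul_le_mul_of_nonneg_right (by linarith) hn.le
  refine ⟨?_, ?_, hexc, ?_, hth⟩
  · have := abs_le.mp r1
    rw [abs_le]
    constructor <;> linarith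
  · have hsub : (big A θ)ᶜ ⊆ Tᶜ ∪ X := by
      intro i hi
      rw [Finset.mem_union, Finset.mem_compl]
      rw [Finset.mem_compl] at hi
      by_cases h : i ∈ T
      · right
        have := hs1 h
        rw [Finset.mem_union] at this
        exact this.resolve_left hi
      · left; exact h
    calc ∑ i ∈ (big A θ)ᶜ, dg A i ≤ ∑ i ∈ Tᶜ ∪ X, dg A i :=
          Finset.sum_le_sum_of_subset_of_nonneg hsub fun i _ _ => dg_nonneg hA i
      _ ≤ ∑ i ∈ Tᶜ, dg A i + ∑ i ∈ X, dg A i := by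
          rw [← Finset.sum_union_inter]
          have : 0 ≤ ∑ i ∈ Tᶜ ∩ X, dg A i := Finset.sum_nonneg fun i _ => dg_nonneg hA i
          linarith
      _ ≤ η1 * n ^ 2 + (η2 * n) * n := by
          have h10 : ∑ i ∈ X, dg A i ≤ X.card * n := by
            calc ∑ i ∈ X, dg A i ≤ ∑ _i ∈ X, n := Finset.sum_le_sum fun i _ => by
                  rw [hnV]; exact dg_le hA i
              _ = _ := by rw [Finset.sum_const, nsmul_eq_mul]
          have h11 : (X.card : ℝ) * n ≤ (η2 * n) * n := mul_le_mul_of_nonneg_right hexc hn.le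
          linarith
      _ = _ := by ring
  · linarith

end Pool.Agent.Helper53.LE
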