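import Pool.Agent.Helper53.LE.Graph

/-!
Comparison of a graph with the split graph on a vertex set `T`.
-/

namespace Pool.Agent.Helper53.LE

open Matrix Finset

variable {V : Type*} [Fintype V] [DecidableEq V]

lemma sum_split (T : Finset V) (f : V → V → ℝ) :
    ∑ i, ∑ j, f i j = ∑ i ∈ T, ∑ j ∈ T, f i j + ∑ i ∈ T, ∑ j ∈ Tᶜ, f i j
      + ∑ i ∈ Tᶜ, ∑ j ∈ T, f i j + ∑ i ∈ Tᶜ, ∑ j ∈ Tᶜ, f i j := by
  rw [← Finset.sum_add_sum_compl T (fun i => ∑ j, f i j)]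
  have h : ∀ i, ∑ j, f i j = ∑ j ∈ T, f i j + ∑ j ∈ Tᶜ, f i j := fun i =>
    (Finset.sum_add_sum_compl T (fun j => f i j)).symm
  simp only [h, Finset.sum_add_distrib]
  ring

theorem compare {A P : Matrix V V ℝ} (hA : IsGr A) (hP : IsProj P) (T : Finset V) {g : ℝ}
    (hg : 0 < g) (hgt : g ≤ (T.card : ℝ))
    (hd : ∀ u, u ∉ T → ∑ i ∈ T, A i u ≤ T.card - g)
    (he : 4 * (∑ i ∈ T, ∑ j ∈ Tᶜ, A i j) ≤ g ^ 2)
    (he2 : 24 * (T.card : ℝ) * (Tᶜ.card : ℝ) * (∑ i ∈ T, ∑ j ∈ Tᶜ, A i j) ≤ g ^ 4) :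
    ∑ i ∈ T, ∑ j ∈ Tᶜ, A i j * wt P i j + (1 / 2) * ∑ i ∈ T, ∑ j ∈ T, wt P i j
      ≤ T.card * P.trace + ∑ i ∈ T, ∑ j ∈ Tᶜ, A i j := by
  classical
  let e : {a // a ∈ T} ⊕ {a // ¬ a ∈ T} ≃ V := Equiv.sumCompl (fun a => a ∈ T)
  have hel : ∀ i : {a // a ∈ T}, e (Sum.inl i) = i.1 := fun i => rfl
  have her : ∀ j : {a // ¬ a ∈ T}, e (Sum.inr j) = j.1 := fun j => rfl
  set Q : Matrix ({a // a ∈ T} ⊕ {a // ¬ a ∈ T}) ({a // a ∈ T} ⊕ {a // ¬ a ∈ T}) ℝ :=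
    P.submatrix e e with hQ
  have hQP : IsProj Q := by
    refine ⟨?_, ?_⟩
    · rw [hQ, transpose_submatrix, hP.symm]
    · rw [hQ, submatrix_mul_equiv, hP.idem]
  set B : Matrix {a // a ∈ T} {a // ¬ a ∈ T} ℝ := fun i j => A i.1 j.1 with hB
  -- conversion of sums
  have sT : ∀ f : V → ℝ, ∑ i : {a // a ∈ T}, f i.1 = ∑ i ∈ T, f i := fun f =>
    Finset.sum_coe_sort T f
  have sC : ∀ f : V → ℝ, ∑ i : {a // ¬ a ∈ T}, f i.1 = ∑ i ∈ Tᶜ, f i := fun f =>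
    (Finset.sum_subtype Tᶜ (p := fun a => ¬ a ∈ T) (by intro x; simp) f).symm
  have hBe : ∑ i, ∑ j, B i j = ∑ i ∈ T, ∑ j ∈ Tᶜ, A i j := by
    rw [← sT (fun i => ∑ j ∈ Tᶜ, A i j)]
    exact Finset.sum_congr rfl fun i _ => sC (fun j => A i.1 j)
  have hcT : ((Fintype.card {a // a ∈ T} : ℕ) : ℝ) = (T.card : ℝ) := by
    rw [Fintype.card_coe]
  have hcC : ((Fintype.card {a // ¬ a ∈ T} : ℕ) : ℝ) = (Tᶜ.card : ℝ) := by
    have := sC (fun _ => (1 : ℝ))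
    simpa using this
  have main := split_main (B := B) (t := (T.card : ℝ)) (g := g)
    (fun i j => hA.nonneg _ _) (fun i j => hA.le_one _ _) hcT.symm hg hgt
    (by
      intro j
      have := hd j.1 j.2
      rw [← sT (fun i => A i j.1)] at this
      exact this)
    (by rw [hBe]; exact he)
    (by rw [hBe, hcC]; exact he2) hQP
  rw [trace_splitM B _ hQP, hBe] at main
  have e1 : ∑ i, ∑ j, B i j * wt Q (Sum.inl i) (Sum.inr j) =
      ∑ i ∈ T, ∑ j ∈ Tᶜ, A i j * wt P i j := by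
    rw [← sT (fun i => ∑ j ∈ Tᶜ, A i j * wt P i j)]
    exact Finset.sum_congr rfl fun i _ => sC (fun j => A i.1 j * wt P i.1 j)
  have e2 : ∑ i : {a // a ∈ T}, ∑ k : {a // a ∈ T}, Q (Sum.inl i) (Sum.inl k) =
      ∑ i ∈ T, ∑ k ∈ T, P i k := by
    rw [← sT (fun i => ∑ j ∈ T, P i j)]
    exact Finset.sum_congr rfl fun i _ => sT (fun j => P i.1 j)
  have e3 : ∑ j : {a // ¬ a ∈ T}, Q (Sum.inr j) (Sum.inr j) = ∑ j ∈ Tᶜ, P j j :=
    sC (fun j => P j j)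
  have e4 : ∑ i ∈ T, ∑ j ∈ T, wt P i j =
      2 * (T.card * ∑ i ∈ T, P i i) - 2 * ∑ i ∈ T, ∑ k ∈ T, P i k := by
    unfold wt
    simp only [Finset.sum_sub_distrib, Finset.sum_add_distrib, Finset.sum_const, nsmul_eq_mul,
      ← Finset.mul_sum]
    ring
  have e5 : P.trace = ∑ i ∈ T, P i i + ∑ j ∈ Tᶜ, P j j := by
    rw [Matrix.trace, Finset.sum_add_sum_compl]
    rfl
  rw [e1, e2, e3] at main
  rw [e4, e5]
  linarith [main]

theorem compare2 {A P : Matrix V V ℝ} (hA : IsGr A) (hP : IsProj P) (T : Finset V) {g : ℝ}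
    (hg : 0 < g) (hgt : g ≤ (T.card : ℝ))
    (hd : ∀ u, u ∉ T → ∑ i ∈ T, A i u ≤ T.card - g)
    (he : 4 * (∑ i ∈ T, ∑ j ∈ Tᶜ, A i j) ≤ g ^ 2)
    (he2 : 24 * (T.card : ℝ) * (Tᶜ.card : ℝ) * (∑ i ∈ T, ∑ j ∈ Tᶜ, A i j) ≤ g ^ 4) :
    (lap A * P).trace ≤ (∑ i, ∑ j, A i j) / 2 + T.card * P.trace
      - (T.card : ℝ) * (T.card - 1) / 2
      - (1 / 2) * ∑ i ∈ T, ∑ j ∈ T, (if i = j then 0 else (1 - A i j) * (wt P i j - 1))
      - (1 / 2) * ∑ i ∈ Tᶜ, ∑ j ∈ Tᶜ, A i j * (1 - wt P i j) := by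
  classical
  have h0 := compare hA hP T hg hgt hd he he2
  have h1 := trace_lap_mul' hA hP
  rw [sum_split T (fun i j => A i j * wt P i j)] at h1
  have h2 : ∑ i ∈ Tᶜ, ∑ j ∈ T, A i j * wt P i j = ∑ i ∈ T, ∑ j ∈ Tᶜ, A i j * wt P i j := by
    rw [Finset.sum_comm]
    refine Finset.sum_congr rfl fun i _ => Finset.sum_congr rfl fun j _ => ?_
    rw [hA.symm j i]; unfold wt; rw [hP.apply_symm j i]; ring
  have h3 : ∑ i ∈ Tᶜ, ∑ j ∈ T, A i j = ∑ i ∈ T, ∑ j ∈ Tᶜ, A i j := by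
    refine (Finset.sum_comm (s := Tᶜ) (t := T) (f := fun i j => A i j)).trans ?_
    refine Finset.sum_congr rfl fun i _ => Finset.sum_congr rfl fun j _ => ?_
    rw [hA.symm j i]
  have h4 := sum_split T (fun i j => A i j)
  rw [h3] at h4
  rw [h2] at h1
  have h5 : ∑ i ∈ T, ∑ j ∈ T, (if i = j then 0 else (1 - A i j) * (wt P i j - 1)) =
      ∑ i ∈ T, ∑ j ∈ T, wt P i j - ∑ i ∈ T, ∑ j ∈ T, A i j * wt P i j
        + ∑ i ∈ T, ∑ j ∈ T, A i j - (T.card : ℝ) * (T.card - 1) := by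
    have h6 : ∀ i ∈ T, ∑ j ∈ T, (if i = j then 0 else (1 - A i j) * (wt P i j - 1)) =
        ∑ j ∈ T, wt P i j - ∑ j ∈ T, A i j * wt P i j + ∑ j ∈ T, A i j - ((T.card : ℝ) - 1) := by
      intro i hi
      have h7 : ∀ j, (if i = j then 0 else (1 - A i j) * (wt P i j - 1)) =
          wt P i j - A i j * wt P i j + A i j - 1 + (if i = j then 1 else 0) := by
        intro j
        split_ifs with h
        · subst h
          have : wt P i i = 0 := by unfold wt; ring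
          rw [this, hA.diag]; ring
        · ring
      simp only [h7, Finset.sum_add_distrib, Finset.sum_sub_distrib, Finset.sum_const,
        nsmul_eq_mul, mul_one, Finset.sum_ite_eq, hi, if_true]
      ring
    rw [Finset.sum_congr rfl h6]
    simp only [Finset.sum_add_distrib, Finset.sum_sub_distrib, Finset.sum_const, nsmul_eq_mul]
    ring
  have h8 : ∑ i ∈ Tᶜ, ∑ j ∈ Tᶜ, A i j * (1 - wt P i j) =
      ∑ i ∈ Tᶜ, ∑ j ∈ Tᶜ, A i j - ∑ i ∈ Tᶜ, ∑ j ∈ Tᶜ, A i j * wt P i j := by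
    rw [← Finset.sum_sub_distrib]
    refine Finset.sum_congr rfl fun i _ => ?_
    rw [← Finset.sum_sub_distrib]
    refine Finset.sum_congr rfl fun j _ => by ring
  rw [h5, h8]
  linarith

end Pool.Agent.Helper53.LE
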