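import Pool.Agent.Helper53.LE.Energy3

/-!
Exact upper bound in the dense half, for all large `n`.
-/

namespace Pool.Agent.Helper53.LE

open Matrix Finset

theorem dense_exact {ε : ℝ} (hε : 0 < ε) : ∃ n₀ : ℕ, ∀ n m : ℕ, n₀ ≤ n →
    (1 / 4 + ε) * (n : ℝ) ^ 2 ≤ m → (m : ℝ) ≤ (1 / 2 - ε) * (n : ℝ) ^ 2 →
    ∀ K r : ℕ, r ≤ K → (2 * m : ℝ) + (K : ℝ) * (K + 1) + 2 * r = (n : ℝ) * (n - 1) →
      ∀ G : SimpleGraph (Fin n), G.edgeSet.ncard = m → laplacianEnergy G ≤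
        2 * (2 * m / n) + 2 * ((K : ℝ) * (K + 1) + r
        - (n - 2 * m / n) * K + max ((r : ℝ) - (n - 2 * m / n)) 0) := by
  set ε' : ℝ := min (ε / 2) (1 / 4) with hε'
  have hε'0 : 0 < ε' := lt_min (by linarith) (by norm_num)
  have hε'1 : ε' ≤ 1 / 4 := min_le_right _ _
  have hε'2 : ε' ≤ ε / 2 := min_le_left _ _
  obtain ⟨δ, η, η1, η2, n0, hC⟩ := exists_consts hε'0 hε'1
  obtain ⟨n1, hn1⟩ := exists_nat_ge (1 / ε + 10)
  refine ⟨max n0 n1, fun n m hn hm1 hm2 K r hr hreal G hG => ?_⟩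
  have hCn := hC n ((le_max_left _ _).trans hn)
  have hn1' : 1 / ε + 10 ≤ (n : ℝ) := hn1.trans (by exact_mod_cast (le_max_right n0 n1).trans hn)
  have hp : 0 < 1 / ε := by positivity
  have hnpos : (0 : ℝ) < n := by linarith
  have hεn : 1 ≤ ε * n := by
    have : 1 / ε ≤ (n : ℝ) := by linarith
    rwa [div_le_iff₀ hε, mul_comm] at this
  have hsum : (K : ℝ) * (K + 1) + 2 * r = n * (n - 1) - 2 * m := by linarith
  have g1 : 2 * ε' * (n : ℝ) ^ 2 ≤ (K : ℝ) * (K + 1) + 2 * r := by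
    rw [hsum]
    have : ε' * (n : ℝ) ^ 2 ≤ ε / 2 * (n : ℝ) ^ 2 :=
      mul_le_mul_of_nonneg_right hε'2 (by positivity)
    nlinarith
  have g2 : (K : ℝ) * (K + 1) + 2 * r ≤ (1 / 2 - 2 * ε') * (n : ℝ) ^ 2 := by
    rw [hsum]
    have : ε' * (n : ℝ) ^ 2 ≤ ε / 2 * (n : ℝ) ^ 2 :=
      mul_le_mul_of_nonneg_right hε'2 (by positivity)
    nlinarith
  exact energy_upper hCn G hG hr hreal g1 g2

lemma tri_exists (b : ℕ) : ∃ K r : ℕ, r ≤ K ∧ b = (K + 1).choose 2 + r := by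
  induction b with
  | zero => exact ⟨0, 0, le_refl _, by simp⟩
  | succ b ih =>
    obtain ⟨K, r, h1, h2⟩ := ih
    rcases Nat.lt_or_ge r K with h | h
    · exact ⟨K, r + 1, h, by omega⟩
    · refine ⟨K + 1, 0, Nat.zero_le _, ?_⟩
      have hrK : r = K := le_antisymm h1 h
      have : (K + 1 + 1).choose 2 = (K + 1).choose 1 + (K + 1).choose 2 :=
        Nat.choose_succ_succ _ _
      rw [Nat.choose_one_right] at this
      omega

end Pool.Agent.Helper53.LE
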