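import Pool.Agent.Helper53.LE.Base2

/-!
The dichotomy: a nearly extremal graph or its complement is close to a clique, and the upper
bound in the clique case.
-/

namespace Pool.Agent.Helper53.LE

open Matrix Finset

variable {V : Type*} [Fintype V] [DecidableEq V]

lemma dg_cpl {A : Matrix V V ℝ} (hA : IsGr A) (i : V) :
    dg (cpl A) i = (Fintype.card V : ℝ) - 1 - dg A i := by
  unfold dg cpl
  have : ∀ j, (if i = j then 0 else 1 - A i j) = (1 - A i j) - (if i = j then 1 else 0) := by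
    intro j
    split_ifs with h
    · subst h; rw [hA.diag]; ring
    · ring
  simp only [this, Finset.sum_sub_distrib, Finset.sum_const, Finset.card_univ, nsmul_eq_mul,
    mul_one, Finset.sum_ite_eq, Finset.mem_univ, if_true]
  ring

lemma sum_cpl' {A : Matrix V V ℝ} (hA : IsGr A) :
    ∑ i, ∑ j, cpl A i j =
      (Fintype.card V : ℝ) * ((Fintype.card V : ℝ) - 1) - ∑ i, ∑ j, A i j := by
  have : ∀ i, ∑ j, cpl A i j = (Fintype.card V : ℝ) - 1 - dg A i := fun i => dg_cpl hA i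
  simp only [this, Finset.sum_sub_distrib, Finset.sum_const, Finset.card_univ, nsmul_eq_mul,
    mul_one]
  have h2 : ∑ i, dg A i = ∑ i, ∑ j, A i j := rfl
  rw [h2]; ring

theorem dich {A : Matrix V V ℝ} (hA : IsGr A) {θ n p q ε η δ η1 η2 : ℝ}
    (hC : CC ε δ η η1 η2 n) (hnV : n = Fintype.card V)
    (hp0 : 0 ≤ p) (hp : p ^ 2 = ∑ i, ∑ j, A i j)
    (hq0 : 0 ≤ q) (hq : q ^ 2 = ∑ i, ∑ j, cpl A i j)
    (h1 : 2 * ε * n ^ 2 ≤ p ^ 2) (h2 : 2 * ε * n ^ 2 ≤ q ^ 2) (hθ : θ * n = p ^ 2)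
    (hn1 : p ^ 2 - θ * p - η / 2 * n ^ 2 ≤ ∑ i, max (dg A i - θ) 0)
    (hn2 : q ^ 2 - (n - θ) * q - η / 2 * n ^ 2 ≤ ∑ i, max (dg A i - θ) 0) :
    Base A θ n p δ (η1 + η2) η2 ∨ Base (cpl A) (n - θ) n q δ (η1 + η2) η2 := by
  classical
  obtain ⟨hδ0, hδ1, hη10, hη20, hη2δ, hη1δ, hδ4, hηη1⟩ := hC.facts
  have hn := hC.hn
  have hε := hC.hε
  have hε1 := hC.hε1
  have hη := hC.hη
  have hηn := hC.c2
  have hqp : q ^ 2 = n ^ 2 - n - p ^ 2 := by
    rw [hq, sum_cpl' hA, ← hnV, ← hp]; ring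
  have hηn2 : n ≤ η / 64 * n ^ 2 := by
    have := mul_le_mul_of_nonneg_right hηn hn.le
    linarith
  set T := big A θ with hT
  set κ : ℝ := ((T.card : ℕ) : ℝ) with hκ
  have hmax : ∑ i, max (dg A i - θ) 0 = ∑ i ∈ T, dg A i - θ * κ := by
    have e1 : ∀ i, max (dg A i - θ) 0 = if θ < dg A i then dg A i - θ else 0 := by
      intro i
      split_ifs with h
      · rw [max_eq_left]; linarith
      · rw [max_eq_right]; linarith
    simp only [e1]
    rw [← Finset.sum_filter]
    show ∑ i ∈ T, (dg A i - θ) = _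
    rw [Finset.sum_sub_distrib, Finset.sum_const, nsmul_eq_mul]
    ring
  rw [hmax] at hn1 hn2
  have hκn : κ ≤ n := by
    rw [hκ, hnV]
    exact_mod_cast Finset.card_le_univ T
  have hκ0 : 0 ≤ κ := by positivity
  rcases le_or_gt (ε / 4 * n) (p + κ - 2 * θ) with hcase | hcase
  · left
    refine base_T hA hC hnV hp0 hp h1 ?_ (by linarith) (by linarith) T ?_ ?_ ?_ hcase
    · linarith
    · intro i hi
      have := mem_big.mp hi
      linarith
    · intro i hi
      have : ¬ θ < dg A i := fun h => hi (mem_big.mpr h)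
      linarith
    · linarith
  · right
    have hcardc : ((Tᶜ.card : ℕ) : ℝ) = n - κ := by
      have := Finset.card_add_card_compl T
      have h3 : (T.card : ℝ) + (Tᶜ.card : ℝ) = n := by rw [hnV]; exact_mod_cast this
      linarith
    have hsumc : ∑ i ∈ Tᶜ, dg A i = p ^ 2 - ∑ i ∈ T, dg A i := by
      have h3 : ∑ i ∈ T, dg A i + ∑ i ∈ Tᶜ, dg A i = p ^ 2 := by
        rw [Finset.sum_add_sum_compl, hp]; rfl
      linarith
    have hAc := isGr_cpl hA
    refine base_T hAc hC hnV hq0 hq h2 ?_ ?_ ?_ Tᶜ ?_ ?_ ?_ ?_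
    · linarith
    · linarith
    · linarith
    · intro i hi
      rw [dg_cpl hA, ← hnV]
      rw [Finset.mem_compl, hT, mem_big] at hi
      linarith
    · intro i hi
      rw [dg_cpl hA, ← hnV]
      rw [Finset.mem_compl, not_not, hT, mem_big] at hi
      linarith
    · have e1 : ∑ i ∈ Tᶜ, dg (cpl A) i = (n - 1) * (n - κ) - (p ^ 2 - ∑ i ∈ T, dg A i) := by
        have : ∀ i ∈ Tᶜ, dg (cpl A) i = (n - 1) - dg A i := by
          intro i _
          rw [dg_cpl hA, ← hnV]
        rw [Finset.sum_congr rfl this, Finset.sum_sub_distrib, Finset.sum_const, nsmul_eq_mul,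
          hcardc, hsumc]
        ring
      rw [e1, hcardc]
      linarith
    · rw [hcardc]
      -- p + q is at least (1 + ε/2) n
      have hpq : 36 / 25 * ε ^ 2 * n ^ 4 ≤ (p * q) ^ 2 * 1 := by
        rcases le_or_gt (p ^ 2) (2 / 5 * n ^ 2) with h | h
        · have h3 : 1 / 2 * n ^ 2 ≤ q ^ 2 := by
            rw [hqp]
            have : n ≤ 1 / 64 * n ^ 2 := by
              have h5 : η ≤ 1 := by linarith
              have h6 : η * n ^ 2 ≤ 1 * n ^ 2 := mul_le_mul_of_nonneg_right h5 (by positivity)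
              linarith
            linarith
          have h4 : (2 * ε * n ^ 2) * (1 / 2 * n ^ 2) ≤ p ^ 2 * q ^ 2 :=
            mul_le_mul h1 h3 (by positivity) (by positivity)
          have h5 : 36 / 25 * ε ^ 2 * n ^ 4 ≤ ε * n ^ 4 := by
            have : 36 / 25 * ε ^ 2 ≤ ε := by
              have q0 : ε * ε ≤ 1 / 2 * ε := mul_le_mul_of_nonneg_right (by linarith) hε.le
              linarith
            exact mul_le_mul_of_nonneg_right this (by positivity)
          linarith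
        · have h4 : (2 / 5 * n ^ 2) * (2 * ε * n ^ 2) ≤ p ^ 2 * q ^ 2 :=
            mul_le_mul h.le h2 (by positivity) (by positivity)
          have h5 : 36 / 25 * ε ^ 2 * n ^ 4 ≤ 4 / 5 * ε * n ^ 4 := by
            have : 36 / 25 * ε ^ 2 ≤ 4 / 5 * ε := by
              have q0 : ε * ε ≤ 1 / 2 * ε := mul_le_mul_of_nonneg_right (by linarith) hε.le
              linarith
            exact mul_le_mul_of_nonneg_right this (by positivity)
          linarith
      have hpq2 : 6 / 5 * ε * n ^ 2 ≤ p * q := by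
        have h3 : (6 / 5 * ε * n ^ 2) ^ 2 ≤ (p * q) ^ 2 := by linarith
        exact abs_le_of_sq_le_sq' h3 (by positivity) |>.2
      have hsum : n + ε / 2 * n ≤ p + q := by
        have h3 : (n + ε / 2 * n) ^ 2 ≤ (p + q) ^ 2 := by
          have e1 : (p + q) ^ 2 = n ^ 2 - n + 2 * (p * q) := by linarith
          rw [e1]
          have h4 : n ≤ ε * n ^ 2 := by
            have h5 : η ≤ ε := by
              have : δ ≤ ε := by rw [hC.hδ]; linarith
              linarith
            have : η / 64 * n ^ 2 ≤ ε * n ^ 2 := mul_le_mul_of_nonneg_right (by linarith) (by positivity)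
            linarith
          have h6 : ε ^ 2 * n ^ 2 ≤ ε / 4 * n ^ 2 :=
            mul_le_mul_of_nonneg_right (by nlinarith) (by positivity)
          linarith [mul_pos hε (pow_pos hn 2)]
        exact abs_le_of_sq_le_sq' h3 (by positivity) |>.2
      linarith

/-- The upper bound, given the structure of a nearly extremal graph. -/
theorem upper_core {A P : Matrix V V ℝ} (hA : IsGr A) {θ n p δ η1 η2 : ℝ}
    (hS : IsSpec (lap A) P θ) (hB : Base A θ n p δ η1 η2) (hnV : n = Fintype.card V)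
    (hn : 0 < n) (hδ0 : 0 < δ) (hδ1 : δ ≤ 1 / 40) (hη10 : 0 < η1) (hη20 : 0 < η2)
    (hη3 : 24 * (η1 + η2) ≤ δ ^ 4) (c3 : 400 ≤ δ ^ 2 * n) (c4 : 1 ≤ δ ^ 3 * n)
    (hp0 : 0 ≤ p) (hp : p ^ 2 = ∑ i, ∑ j, A i j)
    {k : ℕ} (hk : P.trace = k) {K r : ℕ} (hr : r ≤ K)
    (hm : p ^ 2 = (K : ℝ) * (K + 1) + 2 * r) :
    ((lap A - θ • (1 : Matrix V V ℝ)) * P).trace ≤
      (K : ℝ) * (K + 1) + r - θ * K + max ((r : ℝ) - θ) 0 := by
  have hK0 : (0 : ℝ) ≤ K := Nat.cast_nonneg K
  have hr0 : (0 : ℝ) ≤ r := Nat.cast_nonneg r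
  have hrK : (r : ℝ) ≤ K := by exact_mod_cast hr
  have hδn : 0 < δ * n := by positivity
  have hθ0 : 0 ≤ θ := by linarith [hB.th]
  have hmax0 : 0 ≤ max ((r : ℝ) - θ) 0 := le_max_right _ _
  have hη2δ : 3 * η2 ≤ δ := by
    have hδ4 : δ ^ 4 ≤ δ := by
      have : δ ^ 3 ≤ 1 := pow_le_one₀ hδ0.le (by linarith)
      nlinarith
    linarith
  have hkey := key hA hS hB hnV hn hδ0 hδ1 c3 hη10 hη20 hη3
  have hlow := trace_lower hA hS hB hnV hn hδ0 c4 hη2δ
  set t : ℕ := (cliq A P θ (δ * n) (1 / 4)).card with ht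
  have hF : ((lap A - θ • (1 : Matrix V V ℝ)) * P).trace = (lap A * P).trace - θ * k := by
    rw [sub_mul, trace_sub, smul_mul_assoc, one_mul, trace_smul, smul_eq_mul, hk]
  rw [hF]
  rw [hk] at hkey hlow
  -- integrality
  have hint : (0 : ℝ) ≤ ((t : ℝ) - k) * ((t : ℝ) - k - 1) := by
    have : (0 : ℤ) ≤ ((t : ℤ) - k) * ((t : ℤ) - k - 1) := by
      rcases le_or_gt ((t : ℤ) - k) 0 with h | h
      · exact mul_nonneg_of_nonpos_of_nonpos h (by linarith)
      · exact mul_nonneg h.le (by linarith)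
    exact_mod_cast this
  have htr2 := trace_lap_le hA hS.proj
  rw [← hp] at hkey htr2
  rcases le_or_gt k K with hkK | hkK
  · have hkK' : (k : ℝ) ≤ K := by exact_mod_cast hkK
    have e1 : 0 ≤ ((K : ℝ) - k) * (((K : ℝ) + k + 1) / 2 - θ) := by
      apply mul_nonneg
      · linarith
      · linarith
    linarith
  · have hkK' : (K : ℝ) + 1 ≤ k := by exact_mod_cast hkK
    have e1 : θ * ((K : ℝ) + 1) ≤ θ * k := mul_le_mul_of_nonneg_left hkK' hθ0
    have e2 := le_max_left ((r : ℝ) - θ) 0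
    linarith

end Pool.Agent.Helper53.LE
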