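import Pool.Agent.Helper53.LE.Energy

/-!
Energy as a trace, upper bound in the dense half, and quasi-complete graphs.
-/

namespace Pool.Agent.Helper53.LE

open Matrix Finset

/-- real adjacency matrix -/
noncomputable def adjR {V : Type*} (G : SimpleGraph V) : Matrix V V ℝ :=
  haveI : DecidableRel G.Adj := Classical.decRel _
  G.adjMatrix ℝ

lemma adjR_apply {V : Type*} (G : SimpleGraph V) (i j : V) [Decidable (G.Adj i j)] :
    adjR G i j = if G.Adj i j then 1 else 0 := by
  unfold adjR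
  rw [SimpleGraph.adjMatrix_apply]
  congr

variable {V : Type*} [Fintype V] [DecidableEq V]

lemma isGr_adjR (G : SimpleGraph V) : IsGr (adjR G) :=
  @isGr_adjMatrix V _ _ G (Classical.decRel _)

lemma sum_adjR (G : SimpleGraph V) : ∑ i, ∑ j, adjR G i j = 2 * (G.edgeSet.ncard : ℝ) :=
  @sum_adjMatrix V _ _ G (Classical.decRel _)

lemma energy_spec {n : ℕ} (hn : 0 < n) (G : SimpleGraph (Fin n)) {c : ℝ}
    (hc : c = 2 * (G.edgeSet.ncard : ℝ) / n) :
    ∃ P, IsSpec (lap (adjR G)) P c ∧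
      laplacianEnergy G = 2 * ((lap (adjR G) - c • (1 : Matrix (Fin n) (Fin n) ℝ)) * P).trace ∧
      ∃ k : ℕ, P.trace = k := by
  letI : DecidableRel G.Adj := Classical.decRel _
  have hlap : lap (adjR G) = G.lapMatrix ℝ := @lap_adjMatrix (Fin n) _ _ G (Classical.decRel _)
  have hL : (G.lapMatrix ℝ).IsHermitian := SimpleGraph.isHermitian_lapMatrix (R := ℝ) G
  obtain ⟨P, hP, htr, hk⟩ := exists_isSpec hL c
  refine ⟨P, by rw [hlap]; exact hP, ?_, hk⟩
  rw [hlap, htr]
  have hn' : (0 : ℝ) < n := by exact_mod_cast hn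
  have hsum : ∑ i, (hL.eigenvalues i - c) = 0 := by
    have h1 := hL.trace_eq_sum_eigenvalues
    have h2 : (G.lapMatrix ℝ).trace = 2 * (G.edgeSet.ncard : ℝ) := by
      rw [← hlap, trace_lap (isGr_adjR G), sum_adjR]
    rw [Finset.sum_sub_distrib, Finset.sum_const, Finset.card_univ, Fintype.card_fin,
      nsmul_eq_mul]
    have h3 : ∑ i, hL.eigenvalues i = 2 * (G.edgeSet.ncard : ℝ) := by
      rw [← h2, h1]; simp
    rw [h3, hc]; field_simp; ring
  have habs : ∀ x : ℝ, |x| = 2 * max x 0 - x := by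
    intro x
    rcases le_total 0 x with h | h
    · rw [abs_of_nonneg h, max_eq_left h]; ring
    · rw [abs_of_nonpos h, max_eq_right h]; ring
  have he : laplacianEnergy G = ∑ i, |hL.eigenvalues i - c| := by
    unfold laplacianEnergy
    rw [hc]
  rw [he]
  simp only [habs]
  rw [Finset.sum_sub_distrib, hsum, sub_zero, Finset.mul_sum]

/-- total of the complement matrix -/
lemma sum_cpl {A : Matrix V V ℝ} (hA : IsGr A) :
    ∑ i, ∑ j, cpl A i j =
      (Fintype.card V : ℝ) * ((Fintype.card V : ℝ) - 1) - ∑ i, ∑ j, A i j := by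
  have : ∀ i j, cpl A i j = (1 - A i j) - (if i = j then 1 else 0) := by
    intro i j
    unfold cpl
    split_ifs with h
    · subst h; rw [hA.diag]; ring
    · ring
  simp only [this, Finset.sum_sub_distrib, Finset.sum_const, Finset.card_univ, nsmul_eq_mul,
    mul_one, Finset.sum_ite_eq, Finset.mem_univ, if_true]
  ring

/-- Upper bound for the energy in the dense half. -/
theorem energy_upper {n : ℕ} {ε δ η η1 η2 : ℝ} (hC : Consts ε δ η η1 η2 n)
    (G : SimpleGraph (Fin n)) {m K r : ℕ} (hm : G.edgeSet.ncard = m) (hr : r ≤ K)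
    (hKr : (2 * m : ℝ) + (K : ℝ) * (K + 1) + 2 * r = (n : ℝ) * (n - 1))
    (h1 : 2 * ε * (n : ℝ) ^ 2 ≤ (K : ℝ) * (K + 1) + 2 * r)
    (h2 : (K : ℝ) * (K + 1) + 2 * r ≤ (1 / 2 - 2 * ε) * (n : ℝ) ^ 2) :
    laplacianEnergy G ≤ 2 * (2 * m / n) +
      2 * ((K : ℝ) * (K + 1) + r - (n - 2 * m / n) * K + max ((r : ℝ) - (n - 2 * m / n)) 0) := by
  have hn := hC.hn
  have hn0 : 0 < n := by exact_mod_cast hn
  set c : ℝ := 2 * (m : ℝ) / n with hc
  have hA := isGr_adjR G
  set A := adjR G with hAd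
  have hsumA : ∑ i, ∑ j, A i j = 2 * m := by rw [hAd, sum_adjR, hm]
  have hcard : ((Fintype.card (Fin n) : ℕ) : ℝ) = n := by rw [Fintype.card_fin]
  have hcn : c * n = 2 * m := by rw [hc]; field_simp
  have hcpos : 0 < c := by
    have : 0 < c * n := by
      rw [hcn]
      have : (1 / 2 - 2 * ε) * (n : ℝ) ^ 2 < n * (n - 1) := by
        have h3 : 0 < ε := hC.hε
        have h4 : (4 : ℝ) ≤ n := by
          have := hC.c2
          have h5 : η ≤ 1 := by
            have h6 := hC.hη1
            have h7 := hC.hη3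
            have hf := hC.facts
            have h8 : η1 ≤ 1 := by
              have : δ ^ 4 ≤ 1 := pow_le_one₀ hf.1.le (by linarith [hf.2.1])
              linarith [hf.2.2.2.1]
            have h9 : η = η1 * ε ^ 2 / 3 := by rw [h6]; field_simp
            have h10 : ε ^ 2 ≤ 1 := pow_le_one₀ h3.le (by linarith [hC.hε1])
            rw [h9]
            nlinarith [hf.2.2.1]
          nlinarith [hC.hη]
        nlinarith [mul_pos h3 (pow_pos hn 2)]
      linarith
    exact pos_of_mul_pos_left this hn.le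
  obtain ⟨P, hP, hE, -⟩ := energy_spec hn0 G (c := c) (by rw [hm])
  have hPJ := spec_mul_J hA hP hcpos
  have hJP : JJ (Fin n) * P = 0 := by
    have := congrArg transpose hPJ
    rwa [transpose_mul, hP.proj.symm, transpose_zero] at this
  have hcard0 : ((Fintype.card (Fin n) : ℕ) : ℝ) ≠ 0 := by rw [hcard]; exact hn.ne'
  have hcompl := compl_proj hP.proj hPJ hcard0
  have htrc := trace_compl hA hPJ hJP hcard0 c
  have hAc := isGr_cpl hA
  have hsumAc : ∑ i, ∑ j, cpl A i j = (K : ℝ) * (K + 1) + 2 * r := by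
    rw [sum_cpl hA, hcard, hsumA]; linarith
  obtain ⟨P', hP', -, k, hk⟩ := exists_isSpec (lap_isHermitian hAc) ((n : ℝ) - c)
  have hle := hP'.trace_le hcompl
  have hp0 : 0 ≤ Real.sqrt ((K : ℝ) * (K + 1) + 2 * r) := Real.sqrt_nonneg _
  have hpsq : Real.sqrt ((K : ℝ) * (K + 1) + 2 * r) ^ 2 = (K : ℝ) * (K + 1) + 2 * r :=
    Real.sq_sqrt (by positivity)
  have hθn : ((n : ℝ) - c) * n = (K : ℝ) * (K + 1) + 2 * r + n := by linarith
  have hub := upper_main (p := Real.sqrt ((K : ℝ) * (K + 1) + 2 * r)) hAc hC hP' hcard.symm hp0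
    (by rw [hpsq, hsumAc]) (by rw [hpsq]; exact h1) (by rw [hpsq]; exact h2)
    (by rw [hpsq, hθn]; linarith) (by rw [hpsq, hθn]) hk hr hpsq
  rw [hcard] at htrc hle
  rw [htrc, hsumAc] at hle
  rw [hE]
  have e1 : ((n : ℝ) - c) * (n - 1) = (K : ℝ) * (K + 1) + 2 * r + c := by linarith
  rw [e1] at hle
  linarith

/-- indicator functions of the three parts of a quasi-complete graph -/
structure Ind (a b v : V → ℝ) : Prop where
  cases : ∀ i, (a i = 0 ∧ b i = 0 ∧ v i = 0) ∨ (a i = 1 ∧ b i = 0 ∧ v i = 0) ∨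
    (a i = 0 ∧ b i = 1 ∧ v i = 0) ∨ (a i = 0 ∧ b i = 0 ∧ v i = 1)
  uniq : ∀ i j, v i = 1 → v j = 1 → i = j

lemma sum_sum_mul (f g : V → ℝ) : ∑ i, ∑ j, f i * g j = (∑ i, f i) * ∑ j, g j := by
  rw [Finset.sum_mul_sum]

/-- the projection on the vectors supported by the nonisolated part and orthogonal to 1 -/
noncomputable def pr1 (σ : V → ℝ) (N : ℝ) : Matrix V V ℝ :=
  diagonal σ - of fun i j => σ i * σ j / N

lemma pr1_proj {σ : V → ℝ} {N : ℝ} (hσ : ∀ i, σ i * σ i = σ i) (hN : N ≠ 0)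
    (hs : ∑ i, σ i = N) : IsProj (pr1 σ N) := by
  refine ⟨?_, ?_⟩
  · unfold pr1
    rw [transpose_sub, diagonal_transpose]
    congr 1
    ext i j
    simp [mul_comm]
  · ext i j
    unfold pr1
    rw [sub_mul, mul_sub, mul_sub, diagonal_mul_diagonal]
    simp only [Matrix.sub_apply, hσ]
    rw [diagonal_mul, mul_diagonal, Matrix.mul_apply]
    simp only [of_apply]
    have h1 : ∑ x, σ i * σ x / N * (σ x * σ j / N) = σ i * σ j / N := by
      have : ∀ x, σ i * σ x / N * (σ x * σ j / N) = (σ i * σ j / N ^ 2) * σ x := by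
        intro x
        have := hσ x
        calc σ i * σ x / N * (σ x * σ j / N) = σ i * σ j * (σ x * σ x) / N ^ 2 := by
              field_simp
          _ = _ := by rw [this]; ring
      simp only [this, ← Finset.mul_sum, hs]
      field_simp
    rw [h1]
    have h2 : σ i * (σ i * σ j / N) = σ i * σ j / N := by
      calc σ i * (σ i * σ j / N) = (σ i * σ i) * σ j / N := by ring
        _ = _ := by rw [hσ]
    have h3 : σ i * σ j / N * σ j = σ i * σ j / N := by
      calc σ i * σ j / N * σ j = σ i * (σ j * σ j) / N := by ring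
        _ = _ := by rw [hσ]
    rw [h2, h3]; ring

lemma pr1_J {σ : V → ℝ} {N : ℝ} (hN : N ≠ 0) (hs : ∑ i, σ i = N) : pr1 σ N * JJ V = 0 := by
  ext i j
  rw [Matrix.mul_apply]
  simp only [pr1, JJ, of_apply, mul_one, Matrix.sub_apply, Finset.sum_sub_distrib,
    Matrix.zero_apply]
  have h1 : ∑ x, diagonal σ i x = σ i := by
    rw [Finset.sum_eq_single i]
    · simp
    · intro b _ hb; rw [diagonal_apply_ne _ (Ne.symm hb)]
    · simp
  have h2 : ∑ x, σ i * σ x / N = σ i := by
    rw [← Finset.sum_div, ← Finset.mul_sum, hs]; field_simp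
  rw [h1, h2, sub_self]

/-- subtracting a rank one projection -/
noncomputable def pr2 (P : Matrix V V ℝ) (β : V → ℝ) (q : ℝ) : Matrix V V ℝ :=
  P - of fun i j => β i * β j / q

lemma pr2_proj {P : Matrix V V ℝ} (hP : IsProj P) {β : V → ℝ} {q : ℝ} (hq : q ≠ 0)
    (hβ : ∑ i, β i * β i = q) (hPβ : ∀ i, ∑ j, P i j * β j = β i) : IsProj (pr2 P β q) := by
  refine ⟨?_, ?_⟩
  · unfold pr2
    rw [transpose_sub, hP.symm]
    congr 1
    ext i j
    simp [mul_comm]
  · ext i j
    unfold pr2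
    rw [sub_mul, mul_sub, mul_sub, hP.idem]
    simp only [Matrix.sub_apply, Matrix.mul_apply, of_apply]
    have h1 : ∑ x, P i x * (β x * β j / q) = β i * β j / q := by
      have : ∀ x, P i x * (β x * β j / q) = (P i x * β x) * (β j / q) := by
        intro x; ring
      simp only [this, ← Finset.sum_mul, hPβ i]
      ring
    have h2 : ∑ x, β i * β x / q * P x j = β i * β j / q := by
      have : ∀ x, β i * β x / q * P x j = (β i / q) * (P j x * β x) := by
        intro x; rw [hP.apply_symm x j]; ring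
      simp only [this, ← Finset.mul_sum, hPβ j]
      ring
    have h3 : ∑ x, β i * β x / q * (β x * β j / q) = β i * β j / q := by
      have : ∀ x, β i * β x / q * (β x * β j / q) = (β i * β j / q ^ 2) * (β x * β x) := by
        intro x; field_simp
      simp only [this, ← Finset.mul_sum, hβ]
      field_simp
    rw [h1, h2, h3]; ring

lemma pr2_J {P : Matrix V V ℝ} (hPJ : P * JJ V = 0) {β : V → ℝ} {q : ℝ}
    (hβ : ∑ i, β i = 0) : pr2 P β q * JJ V = 0 := by
  unfold pr2
  rw [sub_mul, hPJ, zero_sub, neg_eq_zero]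
  ext i j
  rw [Matrix.mul_apply]
  simp only [of_apply, JJ, mul_one, Matrix.zero_apply]
  rw [← Finset.sum_div, ← Finset.mul_sum, hβ, mul_zero, zero_div]

end Pool.Agent.Helper53.LE
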