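import Pool.Agent.Helper53.LE.Energy2

/-!
Quasi-complete graphs and the lower bound in the dense half.
-/

namespace Pool.Agent.Helper53.LE

open Matrix Finset

section general

variable {V : Type*} [Fintype V] [DecidableEq V]

/-- adjacency matrix of a quasi-complete graph, by indicators -/
def qcA (a b v : V → ℝ) : Matrix V V ℝ := fun i j =>
  if i = j then 0 else (a i + b i + v i) * (a j + b j + v j) - v i * b j - b i * v j

lemma trace_pr1 {σ : V → ℝ} {N : ℝ} (hσ : ∀ i, σ i * σ i = σ i) (hN : N ≠ 0)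
    (hs : ∑ i, σ i = N) : (pr1 σ N).trace = N - 1 := by
  unfold pr1
  rw [trace_sub, trace_diagonal, hs, Matrix.trace]
  simp only [diag_apply, of_apply, hσ]
  rw [← Finset.sum_div, hs, div_self hN]

lemma trace_pr2 {P : Matrix V V ℝ} {β : V → ℝ} {q : ℝ} (hq : q ≠ 0)
    (hβ : ∑ i, β i * β i = q) : (pr2 P β q).trace = P.trace - 1 := by
  unfold pr2
  rw [trace_sub, Matrix.trace, Matrix.trace]
  simp only [diag_apply, of_apply]
  rw [← Finset.sum_div, hβ, div_self hq]

lemma wt_pr2 {P : Matrix V V ℝ} {β : V → ℝ} {q : ℝ} (i j : V) :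
    wt (pr2 P β q) i j = wt P i j - (β i - β j) ^ 2 / q := by
  unfold wt pr2
  simp only [Matrix.sub_apply, of_apply]
  ring

lemma trace_lap_pr1 {A : Matrix V V ℝ} (hA : IsGr A) {σ : V → ℝ} {N : ℝ}
    (hσ : ∀ i, σ i * σ i = σ i) (hN : N ≠ 0) (hs : ∑ i, σ i = N)
    (hAσ : ∀ i j, A i j * σ i = A i j) :
    (lap A * pr1 σ N).trace = ∑ i, ∑ j, A i j := by
  have h1 := trace_lap_mul' hA (pr1_proj hσ hN hs)
  have h2 : ∑ i, ∑ j, A i j * wt (pr1 σ N) i j = ∑ i, ∑ j, A i j * 2 := by
    refine Finset.sum_congr rfl fun i _ => Finset.sum_congr rfl fun j _ => ?_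
    by_cases h : i = j
    · subst h; rw [hA.diag]; ring
    · unfold wt pr1
      simp only [Matrix.sub_apply, of_apply, diagonal_apply_eq, diagonal_apply_ne _ h, hσ]
      have e1 := hAσ i j
      have e2 : A i j * σ j = A i j := by rw [hA.symm]; exact hAσ j i
      have e3 : A i j * (σ i * σ j) = A i j := by rw [← mul_assoc, e1, e2]
      calc A i j * (σ i - σ i / N + (σ j - σ j / N) - 2 * (0 - σ i * σ j / N))
          = A i j * σ i * (1 - 1 / N) + A i j * σ j * (1 - 1 / N)
            + 2 * (A i j * (σ i * σ j)) / N := by ring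
        _ = _ := by rw [e1, e2, e3]; ring
  have h3 : ∑ i, ∑ j, A i j * 2 = 2 * ∑ i, ∑ j, A i j := by
    rw [Finset.mul_sum]
    refine Finset.sum_congr rfl fun i _ => ?_
    rw [Finset.mul_sum]
    exact Finset.sum_congr rfl fun j _ => mul_comm _ _
  linarith

lemma trace_lap_pr2 {A P : Matrix V V ℝ} (hA : IsGr A) (hP : IsProj P) {β : V → ℝ} {q : ℝ}
    (hP2 : IsProj (pr2 P β q)) :
    2 * (lap A * pr2 P β q).trace =
      2 * (lap A * P).trace - (∑ i, ∑ j, A i j * (β i - β j) ^ 2) / q := by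
  rw [trace_lap_mul' hA hP2, trace_lap_mul' hA hP]
  rw [Finset.sum_div, ← Finset.sum_sub_distrib]
  refine Finset.sum_congr rfl fun i _ => ?_
  rw [Finset.sum_div, ← Finset.sum_sub_distrib]
  refine Finset.sum_congr rfl fun j _ => ?_
  rw [wt_pr2]; ring

section qc

variable {a b v : V → ℝ} (hI : Ind a b v)
include hI

lemma Ind.aa (i : V) : a i * a i = a i := by
  rcases hI.cases i with h | h | h | h <;> simp [h]

lemma Ind.bb (i : V) : b i * b i = b i := by
  rcases hI.cases i with h | h | h | h <;> simp [h]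

lemma Ind.vv (i : V) : v i * v i = v i := by
  rcases hI.cases i with h | h | h | h <;> simp [h]

lemma Ind.ab (i : V) : a i * b i = 0 := by
  rcases hI.cases i with h | h | h | h <;> simp [h]

lemma Ind.av (i : V) : a i * v i = 0 := by
  rcases hI.cases i with h | h | h | h <;> simp [h]

lemma Ind.bv (i : V) : b i * v i = 0 := by
  rcases hI.cases i with h | h | h | h <;> simp [h]

lemma Ind.σσ (i : V) : (a i + b i + v i) * (a i + b i + v i) = a i + b i + v i := by
  rcases hI.cases i with h | h | h | h <;> simp [h]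

lemma Ind.qcA_isGr : IsGr (qcA a b v) := by
  refine ⟨?_, ?_, ?_⟩
  · intro i j
    unfold qcA
    by_cases h : i = j
    · subst h; rfl
    · rw [if_neg h, if_neg (Ne.symm h)]; ring
  · intro i; simp [qcA]
  · intro i j
    unfold qcA
    split_ifs with h
    · left; rfl
    · rcases hI.cases i with h1 | h1 | h1 | h1 <;> rcases hI.cases j with h2 | h2 | h2 | h2 <;>
        simp [h1, h2]

lemma Ind.qcA_sum {r s : ℝ} (ha : ∑ i, a i = r) (hb : ∑ i, b i = s) (hv : ∑ i, v i = 1) :
    ∑ i, ∑ j, qcA a b v i j = (r + s + 1) ^ 2 - (r + s + 1) - 2 * s := by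
  have h1 : ∀ i j, qcA a b v i j = (a i + b i + v i) * (a j + b j + v j) - v i * b j - b i * v j
      - (if i = j then (a i + b i + v i) else 0) := by
    intro i j
    unfold qcA
    split_ifs with h
    · subst h
      rw [hI.σσ, mul_comm (v i), hI.bv]; ring
    · ring
  simp only [h1, Finset.sum_sub_distrib, Finset.sum_ite_eq, Finset.mem_univ, if_true,
    sum_sum_mul, Finset.sum_add_distrib, ha, hb, hv]
  ring

lemma Ind.qcA_β {r s : ℝ} (ha : ∑ i, a i = r) (hb : ∑ i, b i = s) (hv : ∑ i, v i = 1) :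
    ∑ i, ∑ j, qcA a b v i j * ((b i - s * v i) - (b j - s * v j)) ^ 2 =
      2 * r * s + 2 * s ^ 2 * r := by
  have h1 : ∀ i j, qcA a b v i j * ((b i - s * v i) - (b j - s * v j)) ^ 2 =
      a i * b j + b i * a j + s ^ 2 * (a i * v j + v i * a j) := by
    intro i j
    unfold qcA
    split_ifs with h
    · subst h
      rw [mul_comm (b i) (a i), mul_comm (v i) (a i), hI.ab, hI.av]; ring
    · rcases hI.cases i with h1 | h1 | h1 | h1 <;> rcases hI.cases j with h2 | h2 | h2 | h2 <;>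
        simp [h1, h2]
  have h2 : ∀ i j, a i * b j + b i * a j + s ^ 2 * (a i * v j + v i * a j) =
      a i * b j + b i * a j + ((s ^ 2 * a i) * v j + (s ^ 2 * v i) * a j) := by
    intro i j; ring
  simp only [h1, h2, Finset.sum_add_distrib, sum_sum_mul]
  rw [← Finset.mul_sum, ← Finset.mul_sum, ha, hb, hv]
  ring

lemma Ind.qcA_supp (i j : V) : qcA a b v i j * (a i + b i + v i) = qcA a b v i j := by
  unfold qcA
  split_ifs with h
  · ring
  · rcases hI.cases i with h1 | h1 | h1 | h1 <;> rcases hI.cases j with h2 | h2 | h2 | h2 <;>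
      simp [h1, h2]

/-- lower bound for the sum of positive parts of the shifted Laplacian eigenvalues of a
quasi-complete graph, through explicit projections orthogonal to the all-one vector -/
lemma Ind.exists_proj {r s : ℝ} (ha : ∑ i, a i = r) (hb : ∑ i, b i = s) (hv : ∑ i, v i = 1)
    (hr : 0 ≤ r) (hs : 0 < s) (θ : ℝ) :
    ∃ P : Matrix V V ℝ, IsProj P ∧ P * JJ V = 0 ∧
      (r + s) * (r + s - 1) + r - θ * (r + s - 1) + max (r - θ) 0 =
        ((lap (qcA a b v) - θ • (1 : Matrix V V ℝ)) * P).trace := by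
  set σ : V → ℝ := fun i => a i + b i + v i with hσ
  set N : ℝ := r + s + 1 with hN
  have hN0 : N ≠ 0 := by positivity
  have hσσ : ∀ i, σ i * σ i = σ i := hI.σσ
  have hσs : ∑ i, σ i = N := by
    simp only [hσ, Finset.sum_add_distrib, ha, hb, hv]; rw [hN]
  have hgr := hI.qcA_isGr
  have hp1 := pr1_proj hσσ hN0 hσs
  have hJ1 : pr1 σ N * JJ V = 0 := pr1_J hN0 hσs
  have ht1 := trace_pr1 hσσ hN0 hσs
  have hL1 := trace_lap_pr1 hgr hσσ hN0 hσs hI.qcA_supp
  rw [hI.qcA_sum ha hb hv] at hL1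
  have e1 : ((lap (qcA a b v) - θ • (1 : Matrix V V ℝ)) * pr1 σ N).trace =
      (r + s) * (r + s - 1) + 2 * r - θ * (r + s) := by
    rw [sub_mul, trace_sub, hL1, smul_mul_assoc, one_mul, trace_smul, ht1, smul_eq_mul, hN]
    ring
  set β : V → ℝ := fun i => b i - s * v i with hβ
  set q : ℝ := s + s ^ 2 with hq
  have hq0 : q ≠ 0 := by positivity
  have hββ : ∑ i, β i * β i = q := by
    have : ∀ i, β i * β i = b i + s ^ 2 * v i := by
      intro i
      simp only [hβ]
      calc (b i - s * v i) * (b i - s * v i) = b i * b i - 2 * s * (b i * v i)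
            + s ^ 2 * (v i * v i) := by ring
        _ = _ := by rw [hI.bb, hI.bv, hI.vv]; ring
    simp only [this, Finset.sum_add_distrib, ← Finset.mul_sum, hb, hv]
    rw [hq]; ring
  have hβ0 : ∑ i, β i = 0 := by
    simp only [hβ, Finset.sum_sub_distrib, ← Finset.mul_sum, hb, hv]; ring
  have hσβ : ∀ i, σ i * β i = β i := by
    intro i
    simp only [hσ, hβ]
    rcases hI.cases i with h | h | h | h <;> simp [h]
  have hPβ : ∀ i, ∑ j, pr1 σ N i j * β j = β i := by
    intro i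
    simp only [pr1, Matrix.sub_apply, of_apply, sub_mul, Finset.sum_sub_distrib]
    have h1 : ∑ x, diagonal σ i x * β x = β i := by
      rw [Finset.sum_eq_single i]
      · rw [diagonal_apply_eq]; exact hσβ i
      · intro c _ hc; rw [diagonal_apply_ne _ (Ne.symm hc), zero_mul]
      · simp
    have h2 : ∑ x, σ i * σ x / N * β x = 0 := by
      have : ∀ x, σ i * σ x / N * β x = (σ i / N) * (σ x * β x) := by intro x; ring
      simp only [this, hσβ, ← Finset.mul_sum, hβ0, mul_zero]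
    rw [h1, h2, sub_zero]
  have hp2 := pr2_proj hp1 hq0 hββ hPβ
  have hJ2 : pr2 (pr1 σ N) β q * JJ V = 0 := pr2_J hJ1 hβ0
  have ht2 := trace_pr2 (P := pr1 σ N) hq0 hββ
  rw [ht1] at ht2
  have hL2 := trace_lap_pr2 hgr hp1 hp2
  have hβ2 : ∑ i, ∑ j, qcA a b v i j * (β i - β j) ^ 2 = 2 * r * s + 2 * s ^ 2 * r :=
    hI.qcA_β ha hb hv
  rw [hβ2, hL1] at hL2
  have e2 : ((lap (qcA a b v) - θ • (1 : Matrix V V ℝ)) * pr2 (pr1 σ N) β q).trace =
      (r + s) * (r + s - 1) + r - θ * (r + s - 1) := by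
    rw [sub_mul, trace_sub, smul_mul_assoc, one_mul, trace_smul, ht2, smul_eq_mul]
    have h3 : (2 * r * s + 2 * s ^ 2 * r) / q = 2 * r := by
      rw [hq]; field_simp
    rw [h3] at hL2
    have h4 : (lap (qcA a b v) * pr2 (pr1 σ N) β q).trace =
        (r + s + 1) ^ 2 - (r + s + 1) - 2 * s - r := by linarith
    rw [h4, hN]; ring
  rcases le_total (r - θ) 0 with h | h
  · refine ⟨_, hp2, hJ2, ?_⟩
    rw [max_eq_right h, e2]; ring
  · refine ⟨_, hp1, hJ1, ?_⟩
    rw [max_eq_left h, e1]; ring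

end qc

end general

/-- indicator of an interval in `Fin n` -/
def ivl {n : ℕ} (x y : ℕ) (i : Fin n) : ℝ := if x ≤ i.val ∧ i.val < y then 1 else 0

lemma sum_ivl {n x y : ℕ} (hxy : x ≤ y) (hy : y ≤ n) :
    ∑ i : Fin n, ivl x y i = (y : ℝ) - x := by
  unfold ivl
  rw [Fin.sum_univ_eq_sum_range (fun i => if x ≤ i ∧ i < y then (1 : ℝ) else 0) n,
    Finset.sum_boole]
  have : (Finset.range n).filter (fun i => x ≤ i ∧ i < y) = Finset.Ico x y := by
    ext i
    simp only [Finset.mem_filter, Finset.mem_range, Finset.mem_Ico]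
    constructor
    · intro h; exact h.2
    · intro h; exact ⟨lt_of_lt_of_le h.2 hy, h⟩
  rw [this, Nat.card_Ico, Nat.cast_sub hxy]

/-- the quasi-complete graph: a complete graph on the first `K + 1` vertices, and the next
vertex is joined to the first `r` vertices -/
def qc (n K r : ℕ) : SimpleGraph (Fin n) where
  Adj i j := i ≠ j ∧ i.val ≤ K + 1 ∧ j.val ≤ K + 1 ∧ ¬ (i.val = K + 1 ∧ r ≤ j.val) ∧
    ¬ (j.val = K + 1 ∧ r ≤ i.val)
  symm := ⟨fun i j h => ⟨h.1.symm, h.2.2.1, h.2.1, h.2.2.2.2, h.2.2.2.1⟩⟩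
  loopless := ⟨fun i h => h.1 rfl⟩

instance (n K r : ℕ) : DecidableRel (qc n K r).Adj := fun i j => by
  unfold qc; infer_instance

lemma qc_ind {n K r : ℕ} (hr : r ≤ K) :
    Ind (ivl (n := n) 0 r) (ivl (n := n) r (K + 1)) (ivl (n := n) (K + 1) (K + 2)) := by
  refine ⟨?_, ?_⟩
  · intro i
    unfold ivl
    by_cases h1 : i.val < r
    · right; left
      exact ⟨if_pos (by omega), if_neg (by omega), if_neg (by omega)⟩
    · by_cases h2 : i.val < K + 1
      · right; right; left
        exact ⟨if_neg (by omega), if_pos (by omega), if_neg (by omega)⟩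
      · by_cases h3 : i.val < K + 2
        · right; right; right
          exact ⟨if_neg (by omega), if_neg (by omega), if_pos (by omega)⟩
        · left
          exact ⟨if_neg (by omega), if_neg (by omega), if_neg (by omega)⟩
  · intro i j hi hj
    unfold ivl at hi hj
    split_ifs at hi hj with h1 h2
    · apply Fin.ext; omega
    · norm_num at hj
    · norm_num at hi
    · norm_num at hi

lemma ivl_pos {n x y : ℕ} {i : Fin n} (h : x ≤ i.val ∧ i.val < y) : ivl x y i = 1 := if_pos h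

lemma ivl_neg {n x y : ℕ} {i : Fin n} (h : ¬ (x ≤ i.val ∧ i.val < y)) : ivl x y i = 0 := if_neg h

lemma adjR_qc {n K r : ℕ} (hr : r ≤ K) :
    adjR (qc n K r) = qcA (ivl (n := n) 0 r) (ivl (n := n) r (K + 1))
      (ivl (n := n) (K + 1) (K + 2)) := by
  ext i j
  rw [adjR_apply]
  unfold qcA
  by_cases hij : i = j
  · subst hij
    rw [if_pos rfl, if_neg]
    intro h; exact h.1 rfl
  · rw [if_neg hij]
    have hne : i.val ≠ j.val := fun h => hij (Fin.ext h)
    have hc : ∀ k : Fin n, k.val < r ∨ (r ≤ k.val ∧ k.val < K + 1) ∨ k.val = K + 1 ∨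
      K + 2 ≤ k.val := by intro k; omega
    have v1 : ∀ k : Fin n, k.val < r → ivl 0 r k = 1 ∧ ivl r (K + 1) k = 0 ∧
        ivl (K + 1) (K + 2) k = 0 := fun k hk =>
      ⟨ivl_pos (by omega), ivl_neg (by omega), ivl_neg (by omega)⟩
    have v2 : ∀ k : Fin n, (r ≤ k.val ∧ k.val < K + 1) → ivl 0 r k = 0 ∧ ivl r (K + 1) k = 1 ∧
        ivl (K + 1) (K + 2) k = 0 := fun k hk =>
      ⟨ivl_neg (by omega), ivl_pos (by omega), ivl_neg (by omega)⟩
    have v3 : ∀ k : Fin n, k.val = K + 1 → ivl 0 r k = 0 ∧ ivl r (K + 1) k = 0 ∧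
        ivl (K + 1) (K + 2) k = 1 := fun k hk =>
      ⟨ivl_neg (by omega), ivl_neg (by omega), ivl_pos (by omega)⟩
    have v4 : ∀ k : Fin n, K + 2 ≤ k.val → ivl 0 r k = 0 ∧ ivl r (K + 1) k = 0 ∧
        ivl (K + 1) (K + 2) k = 0 := fun k hk =>
      ⟨ivl_neg (by omega), ivl_neg (by omega), ivl_neg (by omega)⟩
    have hadj : (qc n K r).Adj i j ↔ (i.val ≤ K + 1 ∧ j.val ≤ K + 1 ∧
        ¬ (i.val = K + 1 ∧ r ≤ j.val) ∧ ¬ (j.val = K + 1 ∧ r ≤ i.val)) := by
      constructor
      · intro h; exact h.2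
      · intro h; exact ⟨hij, h⟩
    rcases hc i with hi | hi | hi | hi
    · obtain ⟨e1, e2, e3⟩ := v1 i hi
      rw [e1, e2, e3]
      rcases hc j with hj | hj | hj | hj
      · obtain ⟨f1, f2, f3⟩ := v1 j hj
        rw [f1, f2, f3, if_pos (hadj.mpr (by omega))]; norm_num
      · obtain ⟨f1, f2, f3⟩ := v2 j hj
        rw [f1, f2, f3, if_pos (hadj.mpr (by omega))]; norm_num
      · obtain ⟨f1, f2, f3⟩ := v3 j hj
        rw [f1, f2, f3, if_pos (hadj.mpr (by omega))]; norm_num
      · obtain ⟨f1, f2, f3⟩ := v4 j hj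
        rw [f1, f2, f3, if_neg (fun h => absurd (hadj.mp h) (by omega))]; norm_num
    · obtain ⟨e1, e2, e3⟩ := v2 i hi
      rw [e1, e2, e3]
      rcases hc j with hj | hj | hj | hj
      · obtain ⟨f1, f2, f3⟩ := v1 j hj
        rw [f1, f2, f3, if_pos (hadj.mpr (by omega))]; norm_num
      · obtain ⟨f1, f2, f3⟩ := v2 j hj
        rw [f1, f2, f3, if_pos (hadj.mpr (by omega))]; norm_num
      · obtain ⟨f1, f2, f3⟩ := v3 j hj
        rw [f1, f2, f3, if_neg (fun h => absurd (hadj.mp h) (by omega))]; norm_num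
      · obtain ⟨f1, f2, f3⟩ := v4 j hj
        rw [f1, f2, f3, if_neg (fun h => absurd (hadj.mp h) (by omega))]; norm_num
    · obtain ⟨e1, e2, e3⟩ := v3 i hi
      rw [e1, e2, e3]
      rcases hc j with hj | hj | hj | hj
      · obtain ⟨f1, f2, f3⟩ := v1 j hj
        rw [f1, f2, f3, if_pos (hadj.mpr (by omega))]; norm_num
      · obtain ⟨f1, f2, f3⟩ := v2 j hj
        rw [f1, f2, f3, if_neg (fun h => absurd (hadj.mp h) (by omega))]; norm_num
      · exfalso; omega
      · obtain ⟨f1, f2, f3⟩ := v4 j hj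
        rw [f1, f2, f3, if_neg (fun h => absurd (hadj.mp h) (by omega))]; norm_num
    · obtain ⟨e1, e2, e3⟩ := v4 i hi
      rw [e1, e2, e3, if_neg (fun h => absurd (hadj.mp h) (by omega))]
      ring

lemma adjR_compl {V : Type*} [Fintype V] [DecidableEq V] (G : SimpleGraph V) :
    adjR Gᶜ = cpl (adjR G) := by
  classical
  ext i j
  unfold cpl
  rw [adjR_apply, adjR_apply]
  by_cases h : i = j
  · subst h; simp
  · rw [if_neg h]
    by_cases h2 : G.Adj i j
    · rw [if_pos h2, if_neg]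
      · ring
      · intro h3; rw [SimpleGraph.compl_adj] at h3; exact h3.2 h2
    · rw [if_neg h2, if_pos]
      · ring
      · rw [SimpleGraph.compl_adj]; exact ⟨h, h2⟩

/-- Lower bound: the complement of a quasi-complete graph. -/
theorem energy_lower {n m K r : ℕ} (hr : r ≤ K) (hK : K + 2 < n)
    (hKr : (2 * m : ℝ) + (K : ℝ) * (K + 1) + 2 * r = (n : ℝ) * (n - 1)) :
    (qc n K r)ᶜ.Connected ∧ (qc n K r)ᶜ.edgeSet.ncard = m ∧
      2 * (2 * m / n) + 2 * ((K : ℝ) * (K + 1) + r - (n - 2 * m / n) * K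
        + max ((r : ℝ) - (n - 2 * m / n)) 0) ≤ laplacianEnergy (qc n K r)ᶜ := by
  have hn : (0 : ℝ) < n := by
    have : 0 < n := by omega
    exact_mod_cast this
  have hI : Ind _ _ _ := qc_ind (n := n) hr
  have ha : ∑ i : Fin n, ivl 0 r i = (r : ℝ) := by
    rw [sum_ivl (Nat.zero_le r) (by omega)]; simp
  have hb : ∑ i : Fin n, ivl r (K + 1) i = (K : ℝ) + 1 - r := by
    rw [sum_ivl (by omega) (by omega)]; push_cast; ring
  have hv : ∑ i : Fin n, ivl (K + 1) (K + 2) i = (1 : ℝ) := by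
    rw [sum_ivl (by omega) (by omega)]; push_cast; ring
  have hcardV : ((Fintype.card (Fin n) : ℕ) : ℝ) = n := by rw [Fintype.card_fin]
  have hAgr := isGr_adjR (qc n K r)
  have hsQ : ∑ i, ∑ j, adjR (qc n K r) i j = (K : ℝ) * (K + 1) + 2 * r := by
    rw [adjR_qc hr, hI.qcA_sum ha hb hv]; ring
  have hsG : ∑ i, ∑ j, adjR (qc n K r)ᶜ i j = 2 * m := by
    rw [adjR_compl, sum_cpl hAgr, hsQ, hcardV]; linarith
  have hm : (qc n K r)ᶜ.edgeSet.ncard = m := by
    rw [sum_adjR] at hsG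
    have : (((qc n K r)ᶜ.edgeSet.ncard : ℕ) : ℝ) = m := by linarith
    exact_mod_cast this
  refine ⟨?_, hm, ?_⟩
  · -- the last vertex is adjacent to everything
    have hlast : ∀ i : Fin n, i ≠ ⟨K + 2, hK⟩ → (qc n K r)ᶜ.Adj i ⟨K + 2, hK⟩ := by
      intro i hi
      rw [SimpleGraph.compl_adj]
      refine ⟨hi, ?_⟩
      intro h
      have := h.2.2.1
      simp at this
    rw [SimpleGraph.connected_iff_exists_forall_reachable]
    refine ⟨⟨K + 2, hK⟩, fun w => ?_⟩
    by_cases hw : w = ⟨K + 2, hK⟩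
    · rw [hw]
    · exact (hlast w hw).symm.reachable
  · set c : ℝ := 2 * (m : ℝ) / n with hc
    have hcn : c * n = 2 * m := by rw [hc]; field_simp
    obtain ⟨P, hP, hE, -⟩ := energy_spec (by omega : 0 < n) (qc n K r)ᶜ (c := c) (by rw [hm])
    have hrs : (0 : ℝ) < (K : ℝ) + 1 - r := by
      have : (r : ℝ) ≤ K := by exact_mod_cast hr
      linarith
    obtain ⟨P', hP', hPJ, hval⟩ := hI.exists_proj ha hb hv (Nat.cast_nonneg r) hrs ((n : ℝ) - c)
    have hJP : JJ (Fin n) * P' = 0 := by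
      have := congrArg transpose hPJ
      rwa [transpose_mul, hP'.symm, transpose_zero] at this
    have hcard0 : ((Fintype.card (Fin n) : ℕ) : ℝ) ≠ 0 := by rw [hcardV]; exact hn.ne'
    have hcompl := compl_proj hP' hPJ hcard0
    have htrc := trace_compl hI.qcA_isGr hPJ hJP hcard0 ((n : ℝ) - c)
    rw [← adjR_qc hr, ← adjR_compl] at htrc
    rw [← adjR_qc hr] at hval
    have hle := hP.trace_le hcompl
    rw [hcardV] at htrc hle
    have e0 : (n : ℝ) - (n - c) = c := by ring
    rw [e0] at htrc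
    rw [htrc, ← hval, hsG] at hle
    rw [hE]
    linarith
end Pool.Agent.Helper53.LE
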