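import Pool.Agent.Helper53.LE.Key

/-!
Final form of the upper bound for nearly extremal graphs.
-/

namespace Pool.Agent.Helper53.LE

open Matrix Finset

variable {V : Type*} [Fintype V] [DecidableEq V]

/-- rows of the missing sum inside the clique side are nonnegative -/
lemma miss_row {A P : Matrix V V ℝ} (hA : IsGr A) {θ n p δ η1 η2 : ℝ}
    (hS : IsSpec (lap A) P θ) (hB : Base A θ n p δ η1 η2) (hnV : n = Fintype.card V)
    (hn : 0 < n) (hδ0 : 0 < δ) (hδn : 400 ≤ δ ^ 2 * n) (hη2δ : 3 * η2 ≤ δ) {i : V}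
    (hi : i ∈ cliq A P θ (δ * n) (1 / 4)) :
    0 ≤ ∑ j ∈ cliq A P θ (δ * n) (1 / 4),
      (if i = j then 0 else (1 - A i j) * (wt P i j - 1)) := by
  classical
  have ha : 0 < δ * n := by positivity
  set T := cliq A P θ (δ * n) (1 / 4) with hT
  have hP := hS.proj
  have hhi : ∀ j, θ + δ * n ≤ dg A j → 1 - P j j ≤ 1 / 400 := fun j hj =>
    hi_diag hA hS hnV hn hδ0 hδn hj
  -- pairs with a vertex of large degree
  have hpair : ∀ u v, u ≠ v → θ + δ * n ≤ dg A u → v ∈ T → 1 + 1 / 8 ≤ wt P u v := by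
    intro u v huv hu hv
    have h1 := hhi u hu
    have h2 := hi_off hP huv h1
    have h3 : 1 / 4 ≤ P v v := by
      rcases mem_cliq.mp hv with h | h
      · have := hhi v h; linarith
      · exact h.2
    have h4 := le_abs_self (P u v)
    unfold wt; linarith
  have hwsymm : ∀ u v, wt P u v = wt P v u := by
    intro u v; unfold wt; rw [hP.apply_symm u v]; ring
  rcases mem_cliq.mp hi with h | h
  · refine Finset.sum_nonneg fun j hj => ?_
    split_ifs with hij
    · exact le_refl _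
    · apply mul_nonneg
      · have := hA.le_one i j; linarith
      · have := hpair i j hij h hj; linarith
  · obtain ⟨⟨h1, h2⟩, h3⟩ := h
    obtain ⟨c1, c2, c3⟩ := cliq_card (A := A) (P := P) (θ := θ) (τ := 1 / 4) ha
    have hsub : hiS A θ (δ * n) ⊆ T := by
      intro j hj
      rw [hT, mem_cliq]; left; exact mem_hiS.mp hj
    have hrest : T \ hiS A θ (δ * n) ⊆ exc A θ (δ * n) := by
      intro j hj
      rw [Finset.mem_sdiff, mem_hiS] at hj
      rw [mem_exc]
      rcases mem_cliq.mp hj.1 with h | h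
      · exact absurd h hj.2
      · exact h.1
    rw [← Finset.sum_sdiff hsub]
    have hne : ∀ j ∈ hiS A θ (δ * n), i ≠ j := by
      intro j hj hij
      subst hij
      have := mem_hiS.mp hj
      linarith
    have s1 : -((exc A θ (δ * n)).card : ℝ) ≤ ∑ j ∈ T \ hiS A θ (δ * n),
        (if i = j then 0 else (1 - A i j) * (wt P i j - 1)) := by
      calc -((exc A θ (δ * n)).card : ℝ) ≤ -((T \ hiS A θ (δ * n)).card : ℝ) := by
            have := Finset.card_le_card hrest
            have : ((T \ hiS A θ (δ * n)).card : ℝ) ≤ ((exc A θ (δ * n)).card : ℝ) := by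
              exact_mod_cast this
            linarith
        _ = ∑ _j ∈ T \ hiS A θ (δ * n), (-1 : ℝ) := by
            rw [Finset.sum_const, nsmul_eq_mul]; ring
        _ ≤ _ := by
            refine Finset.sum_le_sum fun j _ => ?_
            split_ifs with hij
            · norm_num
            · have w0 := wt_nonneg hP i j
              rcases hA.zo i j with h | h <;> rw [h]
              · linarith
              · linarith
    have s2 : (1 / 8) * (((hiS A θ (δ * n)).card : ℝ) - dg A i) ≤ ∑ j ∈ hiS A θ (δ * n),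
        (if i = j then 0 else (1 - A i j) * (wt P i j - 1)) := by
      calc (1 / 8) * (((hiS A θ (δ * n)).card : ℝ) - dg A i)
          ≤ (1 / 8) * (((hiS A θ (δ * n)).card : ℝ) - ∑ j ∈ hiS A θ (δ * n), A i j) := by
            have : ∑ j ∈ hiS A θ (δ * n), A i j ≤ dg A i :=
              Finset.sum_le_univ_sum_of_nonneg fun j => hA.nonneg _ _
            linarith
        _ = ∑ j ∈ hiS A θ (δ * n), (1 / 8) * (1 - A i j) := by
            rw [← Finset.mul_sum, Finset.sum_sub_distrib, Finset.sum_const, nsmul_eq_mul, mul_one]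
        _ ≤ _ := by
            refine Finset.sum_le_sum fun j hj => ?_
            rw [if_neg (hne j hj), mul_comm]
            apply mul_le_mul_of_nonneg_left
            · have := hpair j i (hne j hj).symm (mem_hiS.mp hj) hi
              rw [hwsymm i j]; linarith
            · have := hA.le_one i j; linarith
    have hexc := hB.excc
    have hgap := hB.gap
    have h3 : 3 * (η2 * n) ≤ δ * n := by nlinarith
    linarith

/-- rows of the sum outside the clique side are nonnegative -/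
lemma out_row {A P : Matrix V V ℝ} (hA : IsGr A) {θ n δ : ℝ}
    (hS : IsSpec (lap A) P θ) (hnV : n = Fintype.card V)
    (hn : 0 < n) (hδ0 : 0 < δ) (hδn : 400 ≤ δ ^ 2 * n) {i : V}
    (hi : i ∉ cliq A P θ (δ * n) (1 / 4)) : P i i ≤ 1 / 4 := by
  rw [mem_cliq] at hi
  push Not at hi
  obtain ⟨h1, h2⟩ := hi
  rcases le_or_gt (dg A i + δ * n) θ with h | h
  · have := lo_diag hA hS hnV hn hδ0 hδn h
    linarith
  · exact (h2 ⟨by linarith, h1⟩).le

theorem key {A P : Matrix V V ℝ} (hA : IsGr A) {θ n p δ η1 η2 : ℝ}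
    (hS : IsSpec (lap A) P θ) (hB : Base A θ n p δ η1 η2) (hnV : n = Fintype.card V)
    (hn : 0 < n) (hδ0 : 0 < δ) (hδ1 : δ ≤ 1 / 40) (hδn : 400 ≤ δ ^ 2 * n)
    (hη10 : 0 < η1) (hη20 : 0 < η2) (hη3 : 24 * (η1 + η2) ≤ δ ^ 4) :
    (lap A * P).trace ≤ (∑ i, ∑ j, A i j) / 2
      + ((cliq A P θ (δ * n) (1 / 4)).card : ℝ) * P.trace
      - ((cliq A P θ (δ * n) (1 / 4)).card : ℝ) * ((cliq A P θ (δ * n) (1 / 4)).card - 1) / 2 := by
  have h0 := cliq_compare (τ := 1 / 4) hA hS.proj hB hnV hn hδ0 hδ1 hη10 hη20 hη3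
  have hδ4 : δ ^ 4 ≤ δ := by
    have : δ ^ 3 ≤ 1 := pow_le_one₀ hδ0.le (by linarith)
    nlinarith
  have hη2δ : 3 * η2 ≤ δ := by linarith
  have h1 : 0 ≤ ∑ i ∈ cliq A P θ (δ * n) (1 / 4), ∑ j ∈ cliq A P θ (δ * n) (1 / 4),
      (if i = j then 0 else (1 - A i j) * (wt P i j - 1)) :=
    Finset.sum_nonneg fun i hi => miss_row hA hS hB hnV hn hδ0 hδn hη2δ hi
  have h2 : 0 ≤ ∑ i ∈ (cliq A P θ (δ * n) (1 / 4))ᶜ, ∑ j ∈ (cliq A P θ (δ * n) (1 / 4))ᶜ,
      A i j * (1 - wt P i j) := by
    refine Finset.sum_nonneg fun i hi => Finset.sum_nonneg fun j hj => ?_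
    rw [Finset.mem_compl] at hi hj
    have e1 := out_row hA hS hnV hn hδ0 hδn hi
    have e2 := out_row hA hS hnV hn hδ0 hδn hj
    have e3 := wt_le hS.proj i j
    exact mul_nonneg (hA.nonneg _ _) (by linarith)
  linarith

/-- lower bound for the trace of `P` -/
lemma trace_lower {A P : Matrix V V ℝ} (hA : IsGr A) {θ n p δ η1 η2 : ℝ}
    (hS : IsSpec (lap A) P θ) (hB : Base A θ n p δ η1 η2) (hnV : n = Fintype.card V)
    (hn : 0 < n) (hδ0 : 0 < δ) (hδn3 : 1 ≤ δ ^ 3 * n) (hη2δ : 3 * η2 ≤ δ) :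
    θ + 2 * (δ * n) ≤ P.trace := by
  classical
  have ha : 0 < δ * n := by positivity
  obtain ⟨c1, c2, c3⟩ := cliq_card (A := A) (P := P) (θ := θ) (τ := 1 / 4) ha
  have h1 : ∑ i ∈ hiS A θ (δ * n), (1 - P i i) ≤ δ * n := by
    have h2 : ∀ i ∈ hiS A θ (δ * n), 1 - P i i ≤ δ := by
      intro i hi
      have h3 := spec_hi hA hS i ha (mem_hiS.mp hi)
      have h4 := dg_le hA i
      rw [← hnV] at h4
      have h5 : 0 ≤ 1 - P i i := by linarith [hS.proj.diag_le_one i]
      have h6 : (δ * n) ^ 2 * (1 - P i i) ≤ (δ * n) ^ 2 * δ := by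
        have : n ≤ (δ * n) ^ 2 * δ := by
          calc n = n * 1 := by ring
            _ ≤ n * (δ ^ 3 * n) := mul_le_mul_of_nonneg_left hδn3 hn.le
            _ = _ := by ring
        linarith
      exact le_of_mul_le_mul_left h6 (by positivity)
    calc ∑ i ∈ hiS A θ (δ * n), (1 - P i i) ≤ ∑ _i ∈ hiS A θ (δ * n), δ :=
          Finset.sum_le_sum h2
      _ = (hiS A θ (δ * n)).card * δ := by rw [Finset.sum_const, nsmul_eq_mul]
      _ ≤ n * δ := by
          apply mul_le_mul_of_nonneg_right _ hδ0.le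
          rw [hnV]; exact_mod_cast Finset.card_le_univ _
      _ = δ * n := by ring
  have h2 : ∑ i ∈ hiS A θ (δ * n), P i i ≤ P.trace := by
    rw [Matrix.trace]
    exact Finset.sum_le_univ_sum_of_nonneg fun i => hS.proj.diag_nonneg i
  rw [Finset.sum_sub_distrib, Finset.sum_const, nsmul_eq_mul, mul_one] at h1
  have hexc := hB.excc
  have hgap := hB.gap
  have h3 : 3 * (η2 * n) ≤ δ * n := by nlinarith
  linarith

end Pool.Agent.Helper53.LE
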