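import Pool.Agent.Helper53.LE.Sparse3
import Pool.Agent.Helper53.LE.Energy3

/-!
Upper bound for the Laplacian energy of connected graphs at every positive density.
-/

namespace Pool.Agent.Helper53.LE

open Matrix Finset

lemma rooted_of_connected {V : Type*} [Fintype V] [DecidableEq V] {G : SimpleGraph V}
    (h : G.Connected) : Rooted (adjR G) := by
  classical
  intro z
  have h1 : ∀ u, u ≠ z → ∃ v, G.Adj u v ∧ G.dist v z < G.dist u z := by
    intro u hu
    obtain ⟨w, hw⟩ := (h.preconnected u z).exists_walk_length_eq_dist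
    cases w with
    | nil => exact absurd rfl hu
    | cons hadj w' =>
      refine ⟨_, hadj, ?_⟩
      have h2 := SimpleGraph.dist_le w'
      rw [SimpleGraph.Walk.length_cons] at hw
      omega
  refine ⟨fun u => if hu : u ≠ z then (h1 u hu).choose else u, fun u => G.dist u z, ?_⟩
  intro u hu
  have h3 := (h1 u hu).choose_spec
  simp only [dif_pos hu]
  refine ⟨?_, h3.2⟩
  rw [adjR_apply, if_pos h3.1]

/-- the triangular estimate `t k - t (t-1)/2 ≤ k (k+1)/2` -/
lemma tri_le (t k : ℕ) : (t : ℝ) * k - t * (t - 1) / 2 ≤ (k : ℝ) * (k + 1) / 2 := by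
  have hint : (0 : ℝ) ≤ ((t : ℝ) - k) * ((t : ℝ) - k - 1) := by
    have : (0 : ℤ) ≤ ((t : ℤ) - k) * ((t : ℤ) - k - 1) := by
      rcases le_or_gt ((t : ℤ) - k) 0 with h | h
      · exact mul_nonneg_of_nonpos_of_nonpos h (by linarith)
      · exact mul_nonneg h.le (by linarith)
    exact_mod_cast this
  linarith

theorem energy_upper2 {n : ℕ} {ε δ η η1 η2 : ℝ} (hC : CC ε δ η η1 η2 n)
    (G : SimpleGraph (Fin n)) (hG : G.Connected) {m K r Kd rd : ℕ} (hm : G.edgeSet.ncard = m)
    (hr : r < K) (hKr : (2 * m : ℝ) = (K : ℝ) * (K + 1) + 2 * (n - 1 - K) + 2 * r)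
    (hrd : rd ≤ Kd) (hKd : (2 * m : ℝ) + (Kd : ℝ) * (Kd + 1) + 2 * rd = (n : ℝ) * (n - 1))
    (h1 : 2 * ε * (n : ℝ) ^ 2 ≤ 2 * m) (h2 : 2 * ε * (n : ℝ) ^ 2 ≤ (n : ℝ) * (n - 1) - 2 * m) :
    laplacianEnergy G ≤ max
      (2 * (m + (K : ℝ) * (K + 1) / 2 - 2 * m / n * K
        + max ((r : ℝ) + 1 - 2 * m / n + 8 / δ ^ 3 / n * (K - r)) 0))
      (2 * (2 * m / n) + 2 * ((Kd : ℝ) * (Kd + 1) + rd - (n - 2 * m / n) * Kd
        + max ((rd : ℝ) - (n - 2 * m / n)) 0)) := by
  classical
  by_contra hcon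
  push Not at hcon
  obtain ⟨hδ0, hδ1, hη10, hη20, hη2δ, hη1δ, hδ4, hηη1⟩ := hC.facts
  have hn := hC.hn
  have hε := hC.hε
  have hη := hC.hη
  have hn0 : 0 < n := by exact_mod_cast hn
  set c : ℝ := 2 * (m : ℝ) / n with hc
  have hA := isGr_adjR G
  set A := adjR G with hAd
  have hsumA : ∑ i, ∑ j, A i j = 2 * m := by rw [hAd, sum_adjR, hm]
  have hcard : ((Fintype.card (Fin n) : ℕ) : ℝ) = n := by rw [Fintype.card_fin]
  have hcn : c * n = 2 * m := by rw [hc]; field_simp
  obtain ⟨P, hP, hE, k, hk⟩ := energy_spec hn0 G (c := c) (by rw [hm])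
  set F := ((lap A - c • (1 : Matrix (Fin n) (Fin n) ℝ)) * P).trace with hF
  have hF1 : (m + (K : ℝ) * (K + 1) / 2 - c * K
        + max ((r : ℝ) + 1 - c + 8 / δ ^ 3 / n * (K - r)) 0) < F := by
    have := (le_max_left _ _).trans_lt hcon
    rw [hE] at this
    linarith
  have hF2 : c + ((Kd : ℝ) * (Kd + 1) + rd - (n - c) * Kd
        + max ((rd : ℝ) - (n - c)) 0) < F := by
    have := (le_max_right _ _).trans_lt hcon
    rw [hE] at this
    linarith
  have hK0 : (0 : ℝ) ≤ K := Nat.cast_nonneg K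
  have hr0 : (0 : ℝ) ≤ r := Nat.cast_nonneg r
  have hrK : (r : ℝ) + 1 ≤ K := by exact_mod_cast hr
  have hKd0 : (0 : ℝ) ≤ Kd := Nat.cast_nonneg Kd
  have hrd0 : (0 : ℝ) ≤ rd := Nat.cast_nonneg rd
  have hrdK : (rd : ℝ) ≤ Kd := by exact_mod_cast hrd
  set p : ℝ := Real.sqrt (2 * m) with hp
  have hp0 : 0 ≤ p := Real.sqrt_nonneg _
  have hpsq : p ^ 2 = 2 * m := Real.sq_sqrt (by positivity)
  set q : ℝ := Real.sqrt ((n : ℝ) * (n - 1) - 2 * m) with hq
  have hq0 : 0 ≤ q := Real.sqrt_nonneg _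
  have hnn : 0 ≤ 2 * ε * (n : ℝ) ^ 2 := by positivity
  have hqsq : q ^ 2 = (n : ℝ) * (n - 1) - 2 * m := Real.sq_sqrt (by linarith)
  have hsumAc : ∑ i, ∑ j, cpl A i j = (n : ℝ) * (n - 1) - 2 * m := by
    rw [sum_cpl hA, hcard, hsumA]
  have hm0 : (0 : ℝ) ≤ m := Nat.cast_nonneg m
  have hc0 : 0 ≤ c := by rw [hc]; positivity
  have hpn : p ≤ n := by
    by_contra h
    push Not at h
    have : (n : ℝ) ^ 2 < p ^ 2 := pow_lt_pow_left₀ h hn.le (by norm_num)
    linarith
  have hqn : q ≤ n := by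
    by_contra h
    push Not at h
    have : (n : ℝ) ^ 2 < q ^ 2 := pow_lt_pow_left₀ h hn.le (by norm_num)
    linarith
  have hKn1 : (K : ℝ) + 1 ≤ n := by
    by_contra h
    push Not at h
    have h4 : (n : ℝ) ≤ K := by
      have : n < K + 1 := by exact_mod_cast h
      have : n ≤ K := by omega
      exact_mod_cast this
    have h1n : (1 : ℝ) ≤ n := by exact_mod_cast hn0
    have h5 : 0 ≤ ((K : ℝ) - n) * (K + n - 1) := mul_nonneg (by linarith) (by linarith)
    have h6 : 0 < 2 * ε * (n : ℝ) ^ 2 := by positivity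
    linarith
  have hKp' : (K : ℝ) ≤ p := by
    by_contra h
    push Not at h
    have h3 : p ^ 2 < (K : ℝ) ^ 2 := pow_lt_pow_left₀ h hp0 (by norm_num)
    linarith
  have hKdq : (Kd : ℝ) ≤ q := by
    by_contra h
    push Not at h
    have h3 : q ^ 2 < (Kd : ℝ) ^ 2 := pow_lt_pow_left₀ h hq0 (by norm_num)
    linarith
  have hcn' : c ≤ n := by
    have : c * n ≤ n * n := by rw [hcn]; linarith
    exact le_of_mul_le_mul_right this hn
  have hηn := hC.c2
  have hηn2 : (n : ℝ) ≤ η / 64 * (n : ℝ) ^ 2 := by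
    have := mul_le_mul_of_nonneg_right hηn hn.le
    linarith
  have hcr := crude hA hP.proj c hcard.symm (η := η / 8) (by positivity)
    (by have := hC.c1; linarith)
  rw [← hF] at hcr
  have hmx1 : 0 ≤ max ((r : ℝ) + 1 - c + 8 / δ ^ 3 / n * (K - r)) 0 := le_max_right _ _
  have hmx2 : 0 ≤ max ((rd : ℝ) - (n - c)) 0 := le_max_right _ _
  have hn1 : p ^ 2 - c * p - η / 2 * (n : ℝ) ^ 2 ≤ ∑ i, max (dg A i - c) 0 := by
    have h3 : c * K ≤ c * p := mul_le_mul_of_nonneg_left hKp' hc0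
    rw [hpsq]
    have h4 : (m : ℝ) + (K : ℝ) * (K + 1) / 2 ≥ 2 * m - 2 * n := by linarith
    linarith
  have hn2 : q ^ 2 - (n - c) * q - η / 2 * (n : ℝ) ^ 2 ≤ ∑ i, max (dg A i - c) 0 := by
    have h3 : (n - c) * Kd ≤ (n - c) * q := mul_le_mul_of_nonneg_left hKdq (by linarith)
    have h4 : (Kd : ℝ) * (Kd + 1) + rd ≥ q ^ 2 - n := by
      rw [hqsq]; linarith
    linarith
  rcases dich hA hC hcard.symm hp0 (by rw [hpsq, hsumA]) hq0 (by rw [hqsq, hsumAc])
    (by rw [hpsq]; exact h1) (by rw [hqsq]; exact h2) (by rw [hcn, hpsq]) hn1 hn2 with hB | hB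
  · -- the graph is close to a clique
    have H : Hyp A P c n p δ (η1 + η2) η2 :=
      ⟨hA, hP, hB, hcard.symm, hn, hδ0, hδ1, by linarith, hη20, hC.hη3, hC.c3, hC.c4, hp0, hpn,
        by rw [hpsq, hsumA]⟩
    have hFk : F = (lap A * P).trace - c * k := by
      rw [hF, sub_mul, trace_sub, smul_mul_assoc, one_mul, trace_smul, smul_eq_mul, hk]
    have hδn : 0 < δ * n := by positivity
    have hth := hB.th
    rcases le_or_gt k K with hkK | hkK
    · have hkey := key hA hP hB hcard.symm hn hδ0 (by linarith) hC.c3 (by linarith) hη20 hC.hη3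
      have hlow := trace_lower hA hP hB hcard.symm hn hδ0 (by linarith [hC.c4]) (by linarith)
      rw [hk, hsumA] at hkey
      rw [hk] at hlow
      have htri := tri_le (cliq A P c (δ * n) (1 / 4)).card k
      have hkK' : (k : ℝ) ≤ K := by exact_mod_cast hkK
      have e1 : 0 ≤ ((K : ℝ) - k) * (((K : ℝ) + k + 1) / 2 - c) := by
        apply mul_nonneg
        · linarith
        · linarith
      linarith
    · have hkK' : (K : ℝ) + 1 ≤ k := by exact_mod_cast hkK
      have hkn : (k : ℝ) ≤ n := by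
        rw [← hk, Matrix.trace]
        calc ∑ i, P.diag i ≤ ∑ _i : Fin n, (1 : ℝ) :=
              Finset.sum_le_sum fun i _ => hP.proj.diag_le_one i
          _ = n := by simp
      set x : ℝ := k - (K + 1) with hx
      have hx0 : 0 ≤ x := by rw [hx]; linarith
      set s : ℝ := (k : ℝ) * (k + 1) / 2 + n - 1 - k - p ^ 2 / 2 with hs
      have hsx : s = (K - r) + x * ((k : ℝ) + K) / 2 := by
        rw [hs, hpsq, hx]
        have : (m : ℝ) = ((K : ℝ) * (K + 1) + 2 * (n - 1 - K) + 2 * r) / 2 := by linarith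
        rw [this]; ring
      have hs0 : 0 ≤ s := by
        rw [hsx]
        have : 0 ≤ x * ((k : ℝ) + K) / 2 := by positivity
        linarith
      have hs1 : s ≤ (K - r) + x * n := by
        rw [hsx]
        have : x * ((k : ℝ) + K) / 2 ≤ x * n := by
          have h5 : x * (((k : ℝ) + K) / 2) ≤ x * n :=
            mul_le_mul_of_nonneg_left (by linarith) hx0
          linarith
        linarith
      have hPJ := spec_mul_J hA hP (by linarith : 0 < c)
      have hsp := H.sparse (rooted_of_connected hG) hPJ hk hs hs0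
      have h8 : 0 < 8 / δ ^ 3 / n := by positivity
      have h9 : 8 / δ ^ 3 / n * s ≤ 8 / δ ^ 3 / n * (K - r) + 8 / δ ^ 3 * x := by
        have := mul_le_mul_of_nonneg_left hs1 h8.le
        have e : 8 / δ ^ 3 / n * ((K - r) + x * n) =
            8 / δ ^ 3 / n * (K - r) + 8 / δ ^ 3 * x := by field_simp
        linarith
      have h10 : 1 + 8 / δ ^ 3 ≤ c := by
        have h11 : 1 / δ ^ 3 ≤ δ * n := by
          rw [div_le_iff₀ (by positivity)]
          have := hC.c5
          linarith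
        have h12 : 1 ≤ 1 / δ ^ 3 := by
          rw [le_div_iff₀ (by positivity)]
          have : δ ^ 3 ≤ 1 := pow_le_one₀ hδ0.le (by linarith)
          linarith
        have h13 : 8 / δ ^ 3 = 8 * (1 / δ ^ 3) := by ring
        rw [h13]
        linarith
      have h14 : x * (1 + 8 / δ ^ 3) ≤ x * c := mul_le_mul_of_nonneg_left h10 hx0
      have h15 := le_max_left ((r : ℝ) + 1 - c + 8 / δ ^ 3 / n * (K - r)) 0
      rw [hpsq] at hsp
      have h16 : (k : ℝ) = x + (K + 1) := by rw [hx]; ring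
      rw [h16] at hsp hFk
      linarith
  · -- the complement is close to a clique
    have hAc := isGr_cpl hA
    have hcpos : 0 < c := by
      have : 0 < c * n := by
        rw [hcn]
        have : 0 < 2 * ε * (n : ℝ) ^ 2 := by positivity
        linarith
      exact pos_of_mul_pos_left this hn.le
    have hPJ := spec_mul_J hA hP hcpos
    have hJP : JJ (Fin n) * P = 0 := by
      have := congrArg transpose hPJ
      rwa [transpose_mul, hP.proj.symm, transpose_zero] at this
    have hcard0 : ((Fintype.card (Fin n) : ℕ) : ℝ) ≠ 0 := by rw [hcard]; exact hn.ne'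
    have hcompl := compl_proj hP.proj hPJ hcard0
    have htrc := trace_compl hA hPJ hJP hcard0 c
    obtain ⟨P', hP', -, k', hk'⟩ := exists_isSpec (lap_isHermitian hAc) ((n : ℝ) - c)
    have hle := hP'.trace_le hcompl
    have hub := upper_core hAc hP' hB hcard.symm hn hδ0 (by linarith) (by linarith) hη20 hC.hη3
      hC.c3 (by linarith [hC.c4]) hq0 (by rw [hqsq, hsumAc]) hk' hrd (by rw [hqsq]; linarith)
    rw [hcard] at htrc hle
    rw [htrc, hsumAc, ← hF] at hle
    have e1 : ((n : ℝ) - c) * (n - 1) = (n : ℝ) * (n - 1) - 2 * m + c := by linarith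
    rw [e1] at hle
    linarith

end Pool.Agent.Helper53.LE
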