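import Mathlib

/-!
Existence of a nonnegative solution of a Riccati type equation, by the Knaster-Tarski theorem.
-/

namespace Pool.Agent.Helper53.LE

open Matrix Finset

variable {α β : Type*} [Fintype α] [Fintype β]

/-- the quadratic term `(W Bᵀ W) i j` -/
noncomputable def quad (B W : Matrix α β ℝ) (i : α) (j : β) : ℝ :=
  ∑ j', ∑ i', W i j' * B i' j' * W i' j

lemma quad_eq (B W : Matrix α β ℝ) (i : α) (j : β) : (W * Bᵀ * W) i j = quad B W i j := by
  simp only [Matrix.mul_apply, quad, Finset.sum_mul, transpose_apply]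
  rw [Finset.sum_comm]

lemma quad_nonneg {B W : Matrix α β ℝ} (hB : ∀ i j, 0 ≤ B i j) (hW : ∀ i j, 0 ≤ W i j)
    (i : α) (j : β) : 0 ≤ quad B W i j :=
  Finset.sum_nonneg fun _ _ => Finset.sum_nonneg fun _ _ =>
    mul_nonneg (mul_nonneg (hW _ _) (hB _ _)) (hW _ _)

lemma quad_mono {B W W' : Matrix α β ℝ} (hB : ∀ i j, 0 ≤ B i j) (hW : ∀ i j, 0 ≤ W i j)
    (hWW : ∀ i j, W i j ≤ W' i j) (i : α) (j : β) : quad B W i j ≤ quad B W' i j := by
  refine Finset.sum_le_sum fun j' _ => Finset.sum_le_sum fun i' _ => ?_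
  have h1 : W i j' * B i' j' ≤ W' i j' * B i' j' := mul_le_mul_of_nonneg_right (hWW _ _) (hB _ _)
  exact mul_le_mul h1 (hWW _ _) (hW _ _)
    (mul_nonneg ((hW _ _).trans (hWW _ _)) (hB _ _))

lemma quad_const {B : Matrix α β ℝ} (ω : ℝ) (i : α) (j : β) :
    quad B (fun _ _ => ω) i j = ω ^ 2 * ∑ i', ∑ j', B i' j' := by
  simp only [quad]
  rw [Finset.sum_comm, Finset.mul_sum]
  refine Finset.sum_congr rfl fun i' _ => ?_
  rw [Finset.mul_sum]
  refine Finset.sum_congr rfl fun j' _ => ?_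
  ring

theorem exists_fix {B : Matrix α β ℝ} (hB : ∀ i j, 0 ≤ B i j) (hB1 : ∀ i j, B i j ≤ 1)
    {D : α → β → ℝ} {g : ℝ} (hg : 0 < g) (hD : ∀ i j, g ≤ D i j)
    (he : 4 * (∑ i, ∑ j, B i j) ≤ g ^ 2) :
    ∃ W : Matrix α β ℝ, (∀ i j, 0 ≤ W i j) ∧ (∀ i j, W i j ≤ 2 / g) ∧
      ∀ i j, D i j * W i j = (1 - B i j) + quad B W i j := by
  classical
  have hω : (0 : ℝ) ≤ 2 / g := by positivity
  haveI : Fact ((0 : ℝ) ≤ 2 / g) := ⟨hω⟩
  let X := α → β → Set.Icc (0 : ℝ) (2 / g)
  have hDpos : ∀ i j, 0 < D i j := fun i j => lt_of_lt_of_le hg (hD i j)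
  have hbound : ∀ (W : Matrix α β ℝ), (∀ i j, 0 ≤ W i j) → (∀ i j, W i j ≤ 2 / g) → ∀ i j,
      ((1 - B i j) + quad B W i j) / D i j ≤ 2 / g := by
    intro W h0 h1 i j
    have h2 : quad B W i j ≤ (2 / g) ^ 2 * ∑ i', ∑ j', B i' j' := by
      rw [← quad_const (B := B) (2 / g) i j]
      exact quad_mono hB h0 h1 i j
    have h3 : (2 / g) ^ 2 * ∑ i', ∑ j', B i' j' ≤ 1 := by
      rw [div_pow, div_mul_eq_mul_div, div_le_one (by positivity)]
      linarith
    rw [div_le_div_iff₀ (hDpos i j) hg]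
    have h4 := hB i j
    have h5 := hD i j
    nlinarith
  have hnn : ∀ (W : Matrix α β ℝ), (∀ i j, 0 ≤ W i j) → ∀ i j,
      0 ≤ ((1 - B i j) + quad B W i j) / D i j := by
    intro W h0 i j
    apply div_nonneg _ (hDpos i j).le
    have := quad_nonneg hB h0 i j
    have := hB1 i j
    linarith
  let f : X →o X :=
    { toFun := fun W i j =>
        ⟨((1 - B i j) + quad B (fun i j => (W i j : ℝ)) i j) / D i j,
          hnn _ (fun i j => (W i j).2.1) i j,
          hbound _ (fun i j => (W i j).2.1) (fun i j => (W i j).2.2) i j⟩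
      monotone' := by
        intro W W' h i j
        show ((1 - B i j) + quad B (fun i j => (W i j : ℝ)) i j) / D i j ≤
          ((1 - B i j) + quad B (fun i j => (W' i j : ℝ)) i j) / D i j
        apply div_le_div_of_nonneg_right _ (hDpos i j).le
        have : quad B (fun i j => (W i j : ℝ)) i j ≤ quad B (fun i j => (W' i j : ℝ)) i j :=
          quad_mono hB (fun i j => (W i j).2.1) (fun i j => h i j) i j
        linarith }
  have hfix := f.isFixedPt_lfp
  refine ⟨fun i j => (f.lfp i j : ℝ), fun i j => (f.lfp i j).2.1, fun i j => (f.lfp i j).2.2, ?_⟩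
  intro i j
  have h1 : (f (f.lfp)) i j = f.lfp i j := by
    have : f (f.lfp) = f.lfp := hfix
    rw [this]
  have h2 : ((f (f.lfp)) i j : ℝ) =
      ((1 - B i j) + quad B (fun i j => (f.lfp i j : ℝ)) i j) / D i j := rfl
  have h3 : (f.lfp i j : ℝ) =
      ((1 - B i j) + quad B (fun i j => (f.lfp i j : ℝ)) i j) / D i j := by
    rw [← h2, h1]
  have h4 := (hDpos i j).ne'
  field_simp at h3
  linarith

/-- column sums of the solution are one -/
theorem colsum_eq_one {B W : Matrix α β ℝ} (hB : ∀ i j, 0 ≤ B i j)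
    {t g : ℝ} (ht : t = Fintype.card α) (hg : 0 < g)
    (hd : ∀ j, ∑ i, B i j ≤ t - g)
    (he : 4 * (∑ i, ∑ j, B i j) ≤ g ^ 2)
    (hW0 : ∀ i j, 0 ≤ W i j) (hW1 : ∀ i j, W i j ≤ 2 / g)
    (hW : ∀ i j, (t + ∑ j', B i j' - ∑ i', B i' j) * W i j = (1 - B i j) + quad B W i j)
    (j : β) : ∑ i, W i j = 1 := by
  classical
  set e : ℝ := ∑ i, ∑ j, B i j with hedef
  have he0 : 0 ≤ e := Finset.sum_nonneg fun _ _ => Finset.sum_nonneg fun _ _ => hB _ _
  -- the identity for column sums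
  have key : ∀ j, (t - ∑ i', B i' j) * (∑ i, W i j - 1) =
      ∑ j', ∑ i', (∑ i, W i j' - 1) * B i' j' * W i' j := by
    intro j
    have h1 : ∑ i, (t + ∑ j', B i j' - ∑ i', B i' j) * W i j =
        ∑ i, ((1 - B i j) + quad B W i j) := Finset.sum_congr rfl fun i _ => hW i j
    have h2 : ∑ i, ((1 - B i j) + quad B W i j) =
        (t - ∑ i', B i' j) + ∑ i, quad B W i j := by
      rw [Finset.sum_add_distrib, Finset.sum_sub_distrib]
      simp [ht]
    have h3 : ∑ i, quad B W i j = ∑ j', ∑ i', (∑ i, W i j') * B i' j' * W i' j := by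
      simp only [quad]
      rw [Finset.sum_comm]
      refine Finset.sum_congr rfl fun j' _ => ?_
      rw [Finset.sum_comm]
      refine Finset.sum_congr rfl fun i' _ => ?_
      rw [Finset.sum_mul, Finset.sum_mul]
    have h4 : ∑ i, (t + ∑ j', B i j' - ∑ i', B i' j) * W i j =
        (t - ∑ i', B i' j) * (∑ i, W i j) + ∑ j', ∑ i', B i' j' * W i' j := by
      have : ∀ i, (t + ∑ j', B i j' - ∑ i', B i' j) * W i j =
          (t - ∑ i', B i' j) * W i j + ∑ j', B i j' * W i j := by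
        intro i
        rw [← Finset.sum_mul]; ring
      simp only [this]
      rw [Finset.sum_add_distrib, ← Finset.mul_sum]
      congr 1
      rw [Finset.sum_comm]
    have h5 : ∑ j', ∑ i', (∑ i, W i j' - 1) * B i' j' * W i' j =
        ∑ j', ∑ i', (∑ i, W i j') * B i' j' * W i' j - ∑ j', ∑ i', B i' j' * W i' j := by
      rw [← Finset.sum_sub_distrib]
      refine Finset.sum_congr rfl fun j' _ => ?_
      rw [← Finset.sum_sub_distrib]
      refine Finset.sum_congr rfl fun i' _ => ?_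
      ring
    rw [h5, ← h3]
    rw [h4, h2] at h1
    linarith
  -- sup norm argument
  by_cases hne : Nonempty β
  · obtain ⟨j0, -, hj0⟩ := Finset.exists_max_image univ (fun j => |∑ i, W i j - 1|)
      ⟨Classical.choice hne, Finset.mem_univ _⟩
    set μ : ℝ := |∑ i, W i j0 - 1| with hμ
    have hμ0 : 0 ≤ μ := abs_nonneg _
    have h6 : (t - ∑ i', B i' j0) * μ ≤ μ * (2 / g) * e := by
      have h7 : |∑ j', ∑ i', (∑ i, W i j' - 1) * B i' j' * W i' j0| ≤
          ∑ j', ∑ i', μ * (2 / g) * B i' j' := by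
        refine (Finset.abs_sum_le_sum_abs _ _).trans (Finset.sum_le_sum fun j' _ => ?_)
        refine (Finset.abs_sum_le_sum_abs _ _).trans (Finset.sum_le_sum fun i' _ => ?_)
        rw [abs_mul, abs_mul, abs_of_nonneg (hB i' j'), abs_of_nonneg (hW0 i' j0)]
        have h8 := hj0 j' (Finset.mem_univ _)
        have h9 : |∑ i, W i j' - 1| * B i' j' ≤ μ * B i' j' :=
          mul_le_mul_of_nonneg_right h8 (hB _ _)
        calc |∑ i, W i j' - 1| * B i' j' * W i' j0 ≤ (μ * B i' j') * (2 / g) :=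
              mul_le_mul h9 (hW1 _ _) (hW0 _ _) (mul_nonneg hμ0 (hB _ _))
          _ = _ := by ring
      have h10 : ∑ j', ∑ i', μ * (2 / g) * B i' j' = μ * (2 / g) * e := by
        rw [hedef, Finset.sum_comm, Finset.mul_sum]
        refine Finset.sum_congr rfl fun i' _ => ?_
        rw [Finset.mul_sum]
      rw [h10, ← key j0, abs_mul] at h7
      have h11 : 0 ≤ t - ∑ i', B i' j0 := by linarith [hd j0]
      rwa [abs_of_nonneg h11] at h7
    have h12 : g * μ ≤ (t - ∑ i', B i' j0) * μ :=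
      mul_le_mul_of_nonneg_right (by linarith [hd j0]) hμ0
    have h13 : μ * (2 / g) * e ≤ μ * (g / 2) := by
      have : (2 / g) * e ≤ g / 2 := by
        rw [div_mul_eq_mul_div, div_le_div_iff₀ hg (by norm_num)]
        linarith
      calc μ * (2 / g) * e = μ * ((2 / g) * e) := by ring
        _ ≤ _ := mul_le_mul_of_nonneg_left this hμ0
    have h14 : μ = 0 := by nlinarith
    have h15 : |∑ i, W i j - 1| ≤ 0 := by rw [← h14]; exact hj0 j (Finset.mem_univ _)
    have := abs_nonpos_iff.mp h15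
    linarith
  · exact absurd ⟨j⟩ hne

end Pool.Agent.Helper53.LE
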