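import Pool.Agent.Helper53.LE.Split2

/-!
Graph matrices, Laplacians, and the comparison with a split graph.
-/

namespace Pool.Agent.Helper53.LE

open Matrix Finset

variable {V : Type*} [Fintype V] [DecidableEq V]

/-- adjacency matrices of simple graphs -/
structure IsGr (A : Matrix V V ℝ) : Prop where
  symm : ∀ i j, A i j = A j i
  diag : ∀ i, A i i = 0
  zo : ∀ i j, A i j = 0 ∨ A i j = 1

lemma IsGr.nonneg {A : Matrix V V ℝ} (h : IsGr A) (i j : V) : 0 ≤ A i j := by
  rcases h.zo i j with h | h <;> rw [h]; exact zero_le_one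

lemma IsGr.le_one {A : Matrix V V ℝ} (h : IsGr A) (i j : V) : A i j ≤ 1 := by
  rcases h.zo i j with h | h <;> rw [h]; exact zero_le_one

lemma IsGr.sq {A : Matrix V V ℝ} (h : IsGr A) (i j : V) : A i j ^ 2 = A i j := by
  rcases h.zo i j with h | h <;> rw [h] <;> norm_num

/-- degree -/
noncomputable def dg (A : Matrix V V ℝ) (i : V) : ℝ := ∑ j, A i j

/-- Laplacian -/
noncomputable def lap (A : Matrix V V ℝ) : Matrix V V ℝ := diagonal (dg A) - A

/-- the weight of a pair -/
noncomputable def wt (P : Matrix V V ℝ) (i j : V) : ℝ := P i i + P j j - 2 * P i j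

lemma IsProj.apply_symm {P : Matrix V V ℝ} (hP : IsProj P) (i j : V) : P i j = P j i := by
  have := congrFun (congrFun hP.symm j) i
  simpa using this

lemma IsProj.sum_sq {P : Matrix V V ℝ} (hP : IsProj P) (i : V) : ∑ j, P i j ^ 2 = P i i := by
  have h1 := congrFun (congrFun hP.idem i) i
  rw [Matrix.mul_apply] at h1
  rw [← h1]
  refine Finset.sum_congr rfl fun j _ => ?_
  rw [hP.apply_symm j i]; ring

lemma IsProj.diag_nonneg {P : Matrix V V ℝ} (hP : IsProj P) (i : V) : 0 ≤ P i i := by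
  rw [← hP.sum_sq i]; exact Finset.sum_nonneg fun _ _ => sq_nonneg _

lemma IsProj.diag_le_one {P : Matrix V V ℝ} (hP : IsProj P) (i : V) : P i i ≤ 1 := by
  have h := hP.compl.diag_nonneg i
  rw [Matrix.sub_apply, one_apply_eq] at h
  linarith

/-- `P i j ^ 2 ≤ P i i * P j j` -/
lemma IsProj.sq_le {P : Matrix V V ℝ} (hP : IsProj P) (i j : V) :
    P i j ^ 2 ≤ P i i * P j j := by
  have h1 := congrFun (congrFun hP.idem i) j
  rw [Matrix.mul_apply] at h1
  have h2 := Finset.sum_mul_sq_le_sq_mul_sq univ (fun k => P i k) (fun k => P k j)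
  rw [h1, hP.sum_sq i] at h2
  have h3 : ∑ k, P k j ^ 2 = P j j := by
    rw [← hP.sum_sq j]
    refine Finset.sum_congr rfl fun k _ => by rw [hP.apply_symm k j]
  rwa [h3] at h2

lemma IsProj.abs_le {P : Matrix V V ℝ} (hP : IsProj P) (i j : V) :
    2 * |P i j| ≤ P i i + P j j := by
  have h1 := hP.sq_le i j
  have h2 := hP.diag_nonneg i
  have h3 := hP.diag_nonneg j
  have h4 : (2 * |P i j|) ^ 2 ≤ (P i i + P j j) ^ 2 := by
    rw [mul_pow, sq_abs]; linarith [sq_nonneg (P i i - P j j)]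
  exact abs_le_of_sq_le_sq' h4 (by linarith) |>.2

lemma wt_nonneg {P : Matrix V V ℝ} (hP : IsProj P) (i j : V) : 0 ≤ wt P i j := by
  have := hP.abs_le i j
  have := le_abs_self (P i j)
  unfold wt; linarith

lemma wt_le {P : Matrix V V ℝ} (hP : IsProj P) (i j : V) : wt P i j ≤ 2 * (P i i + P j j) := by
  have := hP.abs_le i j
  have := neg_abs_le (P i j)
  unfold wt; linarith

lemma wt_compl {P : Matrix V V ℝ} {i j : V} (hij : i ≠ j) :
    wt P i j = 2 - wt (1 - P) i j := by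
  unfold wt
  rw [Matrix.sub_apply, Matrix.sub_apply, Matrix.sub_apply, one_apply_eq, one_apply_eq,
    one_apply_ne hij]
  ring

lemma wt_le_two {P : Matrix V V ℝ} (hP : IsProj P) (i j : V) : wt P i j ≤ 2 := by
  by_cases h : i = j
  · subst h; unfold wt; linarith
  · rw [wt_compl h]
    have := wt_nonneg hP.compl i j
    linarith

lemma trace_lap_mul {A P : Matrix V V ℝ} (hA : IsGr A) (hP : IsProj P) :
    (lap A * P).trace = ∑ i, dg A i * P i i - ∑ i, ∑ j, A i j * P i j := by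
  unfold lap
  rw [sub_mul, trace_sub]
  congr 1
  · rw [Matrix.trace]
    refine Finset.sum_congr rfl fun i _ => ?_
    rw [diag_apply, diagonal_mul]
  · rw [Matrix.trace]
    refine Finset.sum_congr rfl fun i _ => ?_
    rw [diag_apply, Matrix.mul_apply]
    refine Finset.sum_congr rfl fun j _ => ?_
    rw [hP.apply_symm j i]

lemma trace_lap_mul' {A P : Matrix V V ℝ} (hA : IsGr A) (hP : IsProj P) :
    2 * (lap A * P).trace = ∑ i, ∑ j, A i j * wt P i j := by
  rw [trace_lap_mul hA hP]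
  have h1 : ∑ i, ∑ j, A i j * wt P i j =
      ∑ i, ∑ j, A i j * P i i + ∑ i, ∑ j, A i j * P j j - 2 * ∑ i, ∑ j, A i j * P i j := by
    rw [Finset.mul_sum, ← Finset.sum_add_distrib, ← Finset.sum_sub_distrib]
    refine Finset.sum_congr rfl fun i _ => ?_
    rw [Finset.mul_sum, ← Finset.sum_add_distrib, ← Finset.sum_sub_distrib]
    refine Finset.sum_congr rfl fun j _ => ?_
    unfold wt; ring
  have h2 : ∑ i, ∑ j, A i j * P i i = ∑ i, dg A i * P i i := by
    refine Finset.sum_congr rfl fun i _ => ?_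
    rw [dg, Finset.sum_mul]
  have h3 : ∑ i, ∑ j, A i j * P j j = ∑ i, dg A i * P i i := by
    rw [Finset.sum_comm]
    refine Finset.sum_congr rfl fun i _ => ?_
    rw [dg, Finset.sum_mul]
    refine Finset.sum_congr rfl fun j _ => by rw [hA.symm j i]
  rw [h1, h2, h3]; ring

/-- trace formula for the split matrix -/
lemma trace_splitM {α β : Type*} [Fintype α] [Fintype β] [DecidableEq α] [DecidableEq β]
    (B : Matrix α β ℝ) (t : ℝ) {Q : Matrix (α ⊕ β) (α ⊕ β) ℝ} (hQ : IsProj Q) :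
    (splitM B t * Q).trace = ∑ i, ∑ j, B i j * wt Q (Sum.inl i) (Sum.inr j)
      - ∑ i, ∑ k, Q (Sum.inl i) (Sum.inl k) - t * ∑ j, Q (Sum.inr j) (Sum.inr j) := by
  have hl : ∀ i, (splitM B t * Q) (Sum.inl i) (Sum.inl i) =
      (∑ j, B i j) * Q (Sum.inl i) (Sum.inl i) - ∑ k, Q (Sum.inl i) (Sum.inl k)
        - ∑ j, B i j * Q (Sum.inl i) (Sum.inr j) := by
    intro i
    simp only [splitM, Matrix.mul_apply, Fintype.sum_sum_type, fromBlocks_apply₁₁,
      fromBlocks_apply₁₂, Matrix.sub_apply, of_apply, Matrix.neg_apply, sub_mul, one_mul, neg_mul,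
      Finset.sum_sub_distrib, Finset.sum_neg_distrib]
    have h1 : ∑ x, diagonal (fun i => ∑ j, B i j) i x * Q (Sum.inl x) (Sum.inl i) =
        (∑ j, B i j) * Q (Sum.inl i) (Sum.inl i) := by
      rw [Finset.sum_eq_single i]
      · simp
      · intro b _ hb; rw [diagonal_apply_ne _ (Ne.symm hb), zero_mul]
      · simp
    have h2 : ∑ x, Q (Sum.inl x) (Sum.inl i) = ∑ k, Q (Sum.inl i) (Sum.inl k) :=
      Finset.sum_congr rfl fun k _ => hQ.apply_symm _ _
    have h3 : ∑ x, B i x * Q (Sum.inr x) (Sum.inl i) = ∑ j, B i j * Q (Sum.inl i) (Sum.inr j) :=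
      Finset.sum_congr rfl fun k _ => by rw [hQ.apply_symm (Sum.inr k)]
    rw [h1, h2, h3]; ring
  have hr : ∀ j, (splitM B t * Q) (Sum.inr j) (Sum.inr j) =
      (∑ i, B i j - t) * Q (Sum.inr j) (Sum.inr j) - ∑ i, B i j * Q (Sum.inl i) (Sum.inr j) := by
    intro j
    simp only [splitM, Matrix.mul_apply, Fintype.sum_sum_type, fromBlocks_apply₂₁,
      fromBlocks_apply₂₂, Matrix.neg_apply, transpose_apply, neg_mul, Finset.sum_neg_distrib]
    have h1 : ∑ x, diagonal (fun j => ∑ i, B i j - t) j x * Q (Sum.inr x) (Sum.inr j) =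
        (∑ i, B i j - t) * Q (Sum.inr j) (Sum.inr j) := by
      rw [Finset.sum_eq_single j]
      · simp
      · intro b _ hb; rw [diagonal_apply_ne _ (Ne.symm hb), zero_mul]
      · simp
    rw [h1]; ring
  rw [Matrix.trace]
  simp only [diag_apply, Fintype.sum_sum_type, hl, hr]
  have e1 : ∑ i, ∑ j, B i j * wt Q (Sum.inl i) (Sum.inr j) =
      ∑ i, (∑ j, B i j) * Q (Sum.inl i) (Sum.inl i)
      + ∑ j, (∑ i, B i j) * Q (Sum.inr j) (Sum.inr j)
      - 2 * ∑ i, ∑ j, B i j * Q (Sum.inl i) (Sum.inr j) := by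
    have h1 : ∑ j, (∑ i, B i j) * Q (Sum.inr j) (Sum.inr j) =
        ∑ i, ∑ j, B i j * Q (Sum.inr j) (Sum.inr j) := by
      rw [Finset.sum_comm]
      exact Finset.sum_congr rfl fun j _ => by rw [Finset.sum_mul]
    rw [h1, Finset.mul_sum, ← Finset.sum_add_distrib, ← Finset.sum_sub_distrib]
    refine Finset.sum_congr rfl fun i _ => ?_
    rw [Finset.sum_mul, Finset.mul_sum, ← Finset.sum_add_distrib, ← Finset.sum_sub_distrib]
    refine Finset.sum_congr rfl fun j _ => ?_
    unfold wt; ring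
  have e2 : ∑ j, ∑ i, B i j * Q (Sum.inl i) (Sum.inr j) =
      ∑ i, ∑ j, B i j * Q (Sum.inl i) (Sum.inr j) := Finset.sum_comm
  rw [e1]
  simp only [Finset.sum_sub_distrib, sub_mul]
  have e3 : ∑ j, t * Q (Sum.inr j) (Sum.inr j) = t * ∑ j, Q (Sum.inr j) (Sum.inr j) := by
    rw [Finset.mul_sum]
  rw [e2, e3]
  ring

end Pool.Agent.Helper53.LE
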