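import Pool.Agent.Helper53.LE.Base

/-!
The sharp upper bound for nearly extremal graphs.
-/

namespace Pool.Agent.Helper53.LE

open Matrix Finset

variable {V : Type*} [Fintype V] [DecidableEq V]

/-- vertices of degree at least `θ + a` -/
noncomputable def hiS (A : Matrix V V ℝ) (θ a : ℝ) : Finset V :=
  univ.filter (fun i => θ + a ≤ dg A i)

lemma mem_hiS {A : Matrix V V ℝ} {θ a : ℝ} {i : V} : i ∈ hiS A θ a ↔ θ + a ≤ dg A i := by
  simp [hiS]

/-- the clique side: large degree, or exceptional degree and weight at least `τ` -/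
noncomputable def cliq (A P : Matrix V V ℝ) (θ a τ : ℝ) : Finset V :=
  univ.filter (fun i => θ + a ≤ dg A i ∨ ((θ - a < dg A i ∧ dg A i < θ + a) ∧ τ ≤ P i i))

lemma mem_cliq {A P : Matrix V V ℝ} {θ a τ : ℝ} {i : V} :
    i ∈ cliq A P θ a τ ↔
      θ + a ≤ dg A i ∨ ((θ - a < dg A i ∧ dg A i < θ + a) ∧ τ ≤ P i i) := by
  simp [cliq]

/-- cardinalities of the parts -/
lemma cliq_card {A P : Matrix V V ℝ} {θ a τ : ℝ} (ha : 0 < a) :
    ((cliq A P θ a τ).card : ℝ) ≤ (big A θ).card + (exc A θ a).card ∧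
    ((big A θ).card : ℝ) ≤ (hiS A θ a).card + (exc A θ a).card ∧
    ((hiS A θ a).card : ℝ) ≤ (cliq A P θ a τ).card := by
  refine ⟨?_, ?_, ?_⟩
  · have : cliq A P θ a τ ⊆ big A θ ∪ exc A θ a := by
      intro i hi
      rw [Finset.mem_union, mem_big, mem_exc]
      rcases mem_cliq.mp hi with h | h
      · left; linarith
      · right; exact h.1
    exact_mod_cast (Finset.card_le_card this).trans (Finset.card_union_le _ _)
  · have : big A θ ⊆ hiS A θ a ∪ exc A θ a := by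
      intro i hi
      rw [Finset.mem_union, mem_hiS, mem_exc]
      have := mem_big.mp hi
      rcases le_or_gt (θ + a) (dg A i) with h | h
      · left; exact h
      · right; constructor <;> linarith
    exact_mod_cast (Finset.card_le_card this).trans (Finset.card_union_le _ _)
  · have : hiS A θ a ⊆ cliq A P θ a τ := by
      intro i hi
      rw [mem_cliq]; left; exact mem_hiS.mp hi
    exact_mod_cast Finset.card_le_card this

/-- edges leaving the clique side -/
lemma cliq_edges {A P : Matrix V V ℝ} (hA : IsGr A) {θ a τ : ℝ} (ha : 0 < a) :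
    ∑ i ∈ cliq A P θ a τ, ∑ j ∈ (cliq A P θ a τ)ᶜ, A i j ≤
      ∑ j ∈ (cliq A P θ a τ)ᶜ, dg A j ∧
    ∑ j ∈ (cliq A P θ a τ)ᶜ, dg A j ≤
      ∑ j ∈ (big A θ)ᶜ, dg A j + (exc A θ a).card * (Fintype.card V : ℝ) := by
  constructor
  · refine (Finset.sum_comm (s := cliq A P θ a τ) (t := (cliq A P θ a τ)ᶜ)
      (f := fun i j => A i j)).trans_le ?_
    refine Finset.sum_le_sum fun j _ => ?_
    calc ∑ i ∈ cliq A P θ a τ, A i j = ∑ i ∈ cliq A P θ a τ, A j i :=
          Finset.sum_congr rfl fun i _ => hA.symm i j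
      _ ≤ dg A j := Finset.sum_le_univ_sum_of_nonneg fun i => hA.nonneg _ _
  · have hsub : (cliq A P θ a τ)ᶜ ⊆ (big A θ)ᶜ ∪ exc A θ a := by
      intro i hi
      rw [Finset.mem_compl, mem_cliq] at hi
      push Not at hi
      rw [Finset.mem_union, Finset.mem_compl, mem_big, mem_exc]
      rcases le_or_gt (dg A i) θ with h | h
      · left; linarith
      · right; constructor <;> linarith [hi.1]
    calc ∑ j ∈ (cliq A P θ a τ)ᶜ, dg A j ≤ ∑ j ∈ (big A θ)ᶜ ∪ exc A θ a, dg A j :=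
          Finset.sum_le_sum_of_subset_of_nonneg hsub fun i _ _ => dg_nonneg hA i
      _ ≤ ∑ j ∈ (big A θ)ᶜ, dg A j + ∑ j ∈ exc A θ a, dg A j := by
          rw [← Finset.sum_union_inter]
          have : 0 ≤ ∑ j ∈ (big A θ)ᶜ ∩ exc A θ a, dg A j :=
            Finset.sum_nonneg fun i _ => dg_nonneg hA i
          linarith
      _ ≤ _ := by
          have : ∑ j ∈ exc A θ a, dg A j ≤ ∑ _j ∈ exc A θ a, (Fintype.card V : ℝ) :=
            Finset.sum_le_sum fun j _ => dg_le hA j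
          rw [Finset.sum_const, nsmul_eq_mul] at this
          linarith

/-- the comparison inequality applies to the clique side -/
lemma cliq_compare {A P : Matrix V V ℝ} (hA : IsGr A) {θ n p δ η1 η2 τ : ℝ} (hP : IsProj P)
    (hB : Base A θ n p δ η1 η2) (hnV : n = Fintype.card V) (hn : 0 < n) (hδ0 : 0 < δ)
    (hδ1 : δ ≤ 1 / 40) (hη10 : 0 < η1) (hη20 : 0 < η2) (hη3 : 24 * (η1 + η2) ≤ δ ^ 4) :
    (lap A * P).trace ≤ (∑ i, ∑ j, A i j) / 2 + ((cliq A P θ (δ * n) τ).card : ℝ) * P.trace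
      - ((cliq A P θ (δ * n) τ).card : ℝ) * ((cliq A P θ (δ * n) τ).card - 1) / 2
      - (1 / 2) * ∑ i ∈ cliq A P θ (δ * n) τ, ∑ j ∈ cliq A P θ (δ * n) τ,
          (if i = j then 0 else (1 - A i j) * (wt P i j - 1))
      - (1 / 2) * ∑ i ∈ (cliq A P θ (δ * n) τ)ᶜ, ∑ j ∈ (cliq A P θ (δ * n) τ)ᶜ,
          A i j * (1 - wt P i j) := by
  classical
  have ha : 0 < δ * n := by positivity
  set T := cliq A P θ (δ * n) τ with hT
  obtain ⟨c1, c2, c3⟩ := cliq_card (A := A) (P := P) (θ := θ) (τ := τ) ha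
  obtain ⟨e1, e2⟩ := cliq_edges (A := A) (P := P) hA (θ := θ) (τ := τ) ha
  have hδ4 : δ ^ 4 ≤ δ ^ 2 := by
    have : δ ^ 2 ≤ 1 := pow_le_one₀ hδ0.le (by linarith)
    nlinarith [sq_nonneg δ]
  have hδ2 : δ ^ 2 ≤ δ := by nlinarith
  have hTge : θ + 3 * (δ * n) ≤ (T.card : ℝ) := by
    have h1 := hB.gap
    have h2 := hB.excc
    have h3 : 2 * (η2 * n) ≤ δ * n := by nlinarith
    rw [← hT] at c3
    linarith
  have hθ0 : 0 < θ := by have := hB.th; linarith
  have hesum : ∑ i ∈ T, ∑ j ∈ Tᶜ, A i j ≤ (η1 + η2) * n ^ 2 := by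
    have h1 := hB.low
    have h2 := hB.excc
    have h3 : ((exc A θ (δ * n)).card : ℝ) * (Fintype.card V : ℝ) ≤ (η2 * n) * n := by
      rw [← hnV]; exact mul_le_mul_of_nonneg_right h2 hn.le
    calc ∑ i ∈ T, ∑ j ∈ Tᶜ, A i j ≤ η1 * n ^ 2 + (η2 * n) * n := by linarith
      _ = _ := by ring
  have he0 : 0 ≤ ∑ i ∈ T, ∑ j ∈ Tᶜ, A i j :=
    Finset.sum_nonneg fun _ _ => Finset.sum_nonneg fun _ _ => hA.nonneg _ _
  refine compare2 hA hP T ha (by linarith) ?_ ?_ ?_
  · intro u hu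
    have h1 : dg A u < θ + δ * n := by
      rw [hT, mem_cliq] at hu
      push Not at hu
      exact hu.1
    have h2 : ∑ i ∈ T, A i u ≤ dg A u := by
      calc ∑ i ∈ T, A i u = ∑ i ∈ T, A u i := Finset.sum_congr rfl fun i _ => hA.symm i u
        _ ≤ dg A u := Finset.sum_le_univ_sum_of_nonneg fun i => hA.nonneg _ _
    linarith
  · have : 4 * (η1 + η2) ≤ δ ^ 2 := by linarith
    calc 4 * ∑ i ∈ T, ∑ j ∈ Tᶜ, A i j ≤ 4 * ((η1 + η2) * n ^ 2) := by linarith
      _ = (4 * (η1 + η2)) * n ^ 2 := by ring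
      _ ≤ δ ^ 2 * n ^ 2 := mul_le_mul_of_nonneg_right this (by positivity)
      _ = _ := by ring
  · have hTn : (T.card : ℝ) ≤ n := by
      rw [hnV]; exact_mod_cast Finset.card_le_univ T
    have hTcn : (Tᶜ.card : ℝ) ≤ n := by
      rw [hnV]; exact_mod_cast Finset.card_le_univ _
    calc 24 * (T.card : ℝ) * (Tᶜ.card : ℝ) * ∑ i ∈ T, ∑ j ∈ Tᶜ, A i j
        ≤ 24 * n * n * ((η1 + η2) * n ^ 2) := by
          apply mul_le_mul
          · apply mul_le_mul
            · linarith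
            · exact hTcn
            · positivity
            · positivity
          · exact hesum
          · exact he0
          · positivity
      _ = (24 * (η1 + η2)) * n ^ 4 := by ring
      _ ≤ δ ^ 4 * n ^ 4 := mul_le_mul_of_nonneg_right hη3 (by positivity)
      _ = _ := by ring

/-- diagonal bounds off the exceptional set -/
lemma hi_diag {A P : Matrix V V ℝ} (hA : IsGr A) {θ n δ : ℝ} (hS : IsSpec (lap A) P θ)
    (hnV : n = Fintype.card V) (hn : 0 < n) (hδ0 : 0 < δ) (hδn : 400 ≤ δ ^ 2 * n) {i : V}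
    (hi : θ + δ * n ≤ dg A i) : 1 - P i i ≤ 1 / 400 := by
  have h1 := spec_hi hA hS i (by positivity : 0 < δ * n) hi
  have h2 := dg_le hA i
  rw [← hnV] at h2
  have h3 : 0 ≤ 1 - P i i := by linarith [hS.proj.diag_le_one i]
  have h4 : 400 * n * (1 - P i i) ≤ n := by
    have : 400 * n * (1 - P i i) ≤ (δ * n) ^ 2 * (1 - P i i) := by
      apply mul_le_mul_of_nonneg_right _ h3
      nlinarith
    linarith
  have h5 : n * (400 * (1 - P i i)) ≤ n * 1 := by linarith
  have := le_of_mul_le_mul_left h5 hn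
  linarith

lemma lo_diag {A P : Matrix V V ℝ} (hA : IsGr A) {θ n δ : ℝ} (hS : IsSpec (lap A) P θ)
    (hnV : n = Fintype.card V) (hn : 0 < n) (hδ0 : 0 < δ) (hδn : 400 ≤ δ ^ 2 * n) {i : V}
    (hi : dg A i + δ * n ≤ θ) : P i i ≤ 1 / 400 := by
  have h1 := spec_lo hA hS i (by positivity : 0 < δ * n) hi
  have h2 := dg_le hA i
  rw [← hnV] at h2
  have h3 : 0 ≤ P i i := hS.proj.diag_nonneg i
  have h4 : 400 * n * (P i i) ≤ n := by
    have : 400 * n * (P i i) ≤ (δ * n) ^ 2 * (P i i) := by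
      apply mul_le_mul_of_nonneg_right _ h3
      nlinarith
    linarith
  have h5 : n * (400 * (P i i)) ≤ n * 1 := by linarith
  have := le_of_mul_le_mul_left h5 hn
  linarith

/-- off-diagonal bound at a vertex of large degree -/
lemma hi_off {P : Matrix V V ℝ} (hP : IsProj P) {i j : V} (hij : i ≠ j)
    (hi : 1 - P i i ≤ 1 / 400) : |P i j| ≤ 1 / 20 := by
  have h1 := hP.compl.sq_le i j
  rw [Matrix.sub_apply, Matrix.sub_apply, Matrix.sub_apply, one_apply_eq, one_apply_eq,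
    one_apply_ne hij] at h1
  have h2 := hP.diag_nonneg j
  have h3 := hP.diag_le_one i
  have h4 : P i j ^ 2 ≤ (1 / 20) ^ 2 := by nlinarith
  exact abs_le_of_sq_le_sq h4 (by norm_num)

end Pool.Agent.Helper53.LE
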