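import Pool.Agent.Helper53.LE.Energy3

/-!
Threshold graphs with a dominating vertex: lower bound in the sparse half.
-/

namespace Pool.Agent.Helper53.LE

open Matrix Finset

section general

variable {V : Type*} [Fintype V] [DecidableEq V]

/-- as `Ind.exists_proj`, with the support of the projection -/
lemma Ind.exists_proj' {a b v : V → ℝ} (hI : Ind a b v) {r s : ℝ} (ha : ∑ i, a i = r)
    (hb : ∑ i, b i = s) (hv : ∑ i, v i = 1)
    (hr : 0 ≤ r) (hs : 0 < s) (θ : ℝ) :
    ∃ P : Matrix V V ℝ, IsProj P ∧ P * JJ V = 0 ∧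
      (∀ i, a i + b i + v i = 0 → ∀ j, P i j = 0) ∧
      (r + s) * (r + s - 1) + r - θ * (r + s - 1) + max (r - θ) 0 =
        ((lap (qcA a b v) - θ • (1 : Matrix V V ℝ)) * P).trace := by
  set σ : V → ℝ := fun i => a i + b i + v i with hσ
  set N : ℝ := r + s + 1 with hN
  have hN0 : N ≠ 0 := by positivity
  have hσσ : ∀ i, σ i * σ i = σ i := hI.σσ
  have hσs : ∑ i, σ i = N := by
    simp only [hσ, Finset.sum_add_distrib, ha, hb, hv]; rw [hN]
  have hgr := hI.qcA_isGr
  have hp1 := pr1_proj hσσ hN0 hσs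
  have hJ1 : pr1 σ N * JJ V = 0 := pr1_J hN0 hσs
  have ht1 := trace_pr1 hσσ hN0 hσs
  have hL1 := trace_lap_pr1 hgr hσσ hN0 hσs hI.qcA_supp
  rw [hI.qcA_sum ha hb hv] at hL1
  have hsup1 : ∀ i, σ i = 0 → ∀ j, pr1 σ N i j = 0 := by
    intro i hi j
    unfold pr1
    rw [Matrix.sub_apply, of_apply, hi]
    by_cases h : i = j
    · subst h; rw [diagonal_apply_eq, hi]; ring
    · rw [diagonal_apply_ne _ h]; ring
  have e1 : ((lap (qcA a b v) - θ • (1 : Matrix V V ℝ)) * pr1 σ N).trace =
      (r + s) * (r + s - 1) + 2 * r - θ * (r + s) := by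
    rw [sub_mul, trace_sub, hL1, smul_mul_assoc, one_mul, trace_smul, ht1, smul_eq_mul, hN]
    ring
  set β : V → ℝ := fun i => b i - s * v i with hβ
  set q : ℝ := s + s ^ 2 with hq
  have hq0 : q ≠ 0 := by positivity
  have hββ : ∑ i, β i * β i = q := by
    have : ∀ i, β i * β i = b i + s ^ 2 * v i := by
      intro i
      simp only [hβ]
      calc (b i - s * v i) * (b i - s * v i) = b i * b i - 2 * s * (b i * v i)
            + s ^ 2 * (v i * v i) := by ring
        _ = _ := by rw [hI.bb, hI.bv, hI.vv]; ring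
    simp only [this, Finset.sum_add_distrib, ← Finset.mul_sum, hb, hv]
    rw [hq]; ring
  have hβ0 : ∑ i, β i = 0 := by
    simp only [hβ, Finset.sum_sub_distrib, ← Finset.mul_sum, hb, hv]; ring
  have hσβ : ∀ i, σ i * β i = β i := by
    intro i
    simp only [hσ, hβ]
    rcases hI.cases i with h | h | h | h <;> simp [h]
  have hPβ : ∀ i, ∑ j, pr1 σ N i j * β j = β i := by
    intro i
    simp only [pr1, Matrix.sub_apply, of_apply, sub_mul, Finset.sum_sub_distrib]
    have h1 : ∑ x, diagonal σ i x * β x = β i := by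
      rw [Finset.sum_eq_single i]
      · rw [diagonal_apply_eq]; exact hσβ i
      · intro c _ hc; rw [diagonal_apply_ne _ (Ne.symm hc), zero_mul]
      · simp
    have h2 : ∑ x, σ i * σ x / N * β x = 0 := by
      have : ∀ x, σ i * σ x / N * β x = (σ i / N) * (σ x * β x) := by intro x; ring
      simp only [this, hσβ, ← Finset.mul_sum, hβ0, mul_zero]
    rw [h1, h2, sub_zero]
  have hp2 := pr2_proj hp1 hq0 hββ hPβ
  have hJ2 : pr2 (pr1 σ N) β q * JJ V = 0 := pr2_J hJ1 hβ0
  have ht2 := trace_pr2 (P := pr1 σ N) hq0 hββ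
  rw [ht1] at ht2
  have hL2 := trace_lap_pr2 hgr hp1 hp2
  have hβ2 : ∑ i, ∑ j, qcA a b v i j * (β i - β j) ^ 2 = 2 * r * s + 2 * s ^ 2 * r :=
    hI.qcA_β ha hb hv
  rw [hβ2, hL1] at hL2
  have hsup2 : ∀ i, σ i = 0 → ∀ j, pr2 (pr1 σ N) β q i j = 0 := by
    intro i hi j
    unfold pr2
    have hβi : β i = 0 := by rw [← hσβ i, hi, zero_mul]
    rw [Matrix.sub_apply, of_apply, hsup1 i hi j, hβi]; ring
  have e2 : ((lap (qcA a b v) - θ • (1 : Matrix V V ℝ)) * pr2 (pr1 σ N) β q).trace =
      (r + s) * (r + s - 1) + r - θ * (r + s - 1) := by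
    rw [sub_mul, trace_sub, smul_mul_assoc, one_mul, trace_smul, ht2, smul_eq_mul]
    have h3 : (2 * r * s + 2 * s ^ 2 * r) / q = 2 * r := by
      rw [hq]; field_simp
    rw [h3] at hL2
    have h4 : (lap (qcA a b v) * pr2 (pr1 σ N) β q).trace =
        (r + s + 1) ^ 2 - (r + s + 1) - 2 * s - r := by linarith
    rw [h4, hN]; ring
  rcases le_total (r - θ) 0 with h | h
  · refine ⟨_, hp2, hJ2, hsup2, ?_⟩
    rw [max_eq_right h, e2]; ring
  · refine ⟨_, hp1, hJ1, hsup1, ?_⟩
    rw [max_eq_left h, e1]; ring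

/-- adjacency matrix of the star with centre `o` -/
def coneA (o : V) : Matrix V V ℝ := fun i j => if i = j then 0 else if i = o ∨ j = o then 1 else 0

lemma coneA_isGr (o : V) : IsGr (coneA o) := by
  refine ⟨?_, ?_, ?_⟩
  · intro i j
    unfold coneA
    by_cases h : i = j
    · subst h; rfl
    · rw [if_neg h, if_neg (Ne.symm h)]
      by_cases h2 : i = o ∨ j = o
      · rw [if_pos h2, if_pos (Or.comm.mp h2)]
      · rw [if_neg h2, if_neg (fun h3 => h2 (Or.comm.mp h3))]
  · intro i; simp [coneA]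
  · intro i j
    unfold coneA
    split_ifs <;> simp

lemma coneA_mul_wt (o : V) (P : Matrix V V ℝ) (i j : V) :
    coneA o i j * wt P i j = (if i = o then wt P i j else 0) + (if j = o then wt P i j else 0) := by
  unfold coneA
  have h0 : ∀ i, wt P i i = 0 := by intro i; unfold wt; ring
  by_cases h : i = j
  · subst h
    rw [if_pos rfl, h0]; simp
  · rw [if_neg h]
    by_cases h1 : i = o
    · have h2 : j ≠ o := fun h3 => h (h1.trans h3.symm)
      rw [if_pos (Or.inl h1), if_pos h1, if_neg h2]; ring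
    · by_cases h2 : j = o
      · rw [if_pos (Or.inr h2), if_neg h1, if_pos h2]; ring
      · rw [if_neg (by tauto), if_neg h1, if_neg h2]; ring

lemma trace_cone (o : V) {P : Matrix V V ℝ} (hP : IsProj P) (hPJ : P * JJ V = 0) :
    (lap (coneA o) * P).trace = (Fintype.card V : ℝ) * P o o + P.trace := by
  have h1 := trace_lap_mul' (coneA_isGr o) hP
  have hrow : ∑ j, P o j = 0 := by
    have := congrFun (congrFun hPJ o) o
    simpa [Matrix.mul_apply, JJ] using this
  have h2 : ∑ i, ∑ j, coneA o i j * wt P i j = 2 * ∑ j, wt P o j := by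
    simp only [coneA_mul_wt, Finset.sum_add_distrib]
    have e1 : ∑ i, ∑ j, (if i = o then wt P i j else 0) = ∑ j, wt P o j := by
      rw [Finset.sum_eq_single o]
      · simp
      · intro b _ hb; simp [hb]
      · simp
    have e2 : ∑ i, ∑ j, (if j = o then wt P i j else 0) = ∑ j, wt P o j := by
      refine Finset.sum_congr rfl fun i _ => ?_
      rw [Finset.sum_ite_eq' univ o, if_pos (Finset.mem_univ _)]
      unfold wt; rw [hP.apply_symm i o]; ring
    rw [e1, e2]; ring
  have h3 : ∑ j, wt P o j = (Fintype.card V : ℝ) * P o o + P.trace := by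
    unfold wt
    simp only [Finset.sum_sub_distrib, Finset.sum_add_distrib, Finset.sum_const, Finset.card_univ,
      nsmul_eq_mul, ← Finset.mul_sum, hrow]
    rw [mul_zero, sub_zero]; rfl
  linarith

lemma lap_add {A B : Matrix V V ℝ} : lap (A + B) = lap A + lap B := by
  unfold lap
  have : dg (A + B) = dg A + dg B := by
    ext i
    simp [dg, Finset.sum_add_distrib]
  rw [this]
  ext i j
  by_cases h : i = j
  · subst h; simp; ring
  · simp [h]; ring

/-- lower bound for the cone over a quasi-complete graph -/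
lemma Ind.cone_lower {a b v : V → ℝ} (hI : Ind a b v) {r s : ℝ} (ha : ∑ i, a i = r)
    (hb : ∑ i, b i = s) (hv : ∑ i, v i = 1)
    (hr : 0 ≤ r) (hs : 0 < s) (θ : ℝ) (o : V) (ho : a o + b o + v o = 0)
    (hn : 2 ≤ (Fintype.card V : ℝ)) :
    ∃ P : Matrix V V ℝ, IsProj P ∧
      (Fintype.card V : ℝ) - θ + ((r + s) * (r + s - 1) + r - (θ - 1) * (r + s - 1)
        + max (r + 1 - θ) 0) =
        ((lap (qcA a b v + coneA o) - θ • (1 : Matrix V V ℝ)) * P).trace := by
  obtain ⟨P', hP', hPJ', hsup, hval⟩ := hI.exists_proj' ha hb hv hr hs (θ - 1)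
  set n : ℝ := (Fintype.card V : ℝ) with hnn
  set w : V → ℝ := fun i => n * (if i = o then 1 else 0) - 1 with hw
  set N : ℝ := n * (n - 1) with hN
  have hN0 : N ≠ 0 := by
    have : 0 < n * (n - 1) := mul_pos (by linarith) (by linarith)
    exact this.ne'
  have hcoln : ∑ _i : V, (1 : ℝ) = n := by simp [hnn]
  have hwsum : ∑ i, w i = 0 := by
    simp only [hw, Finset.sum_sub_distrib, ← Finset.mul_sum, hcoln]
    simp
  have hww : ∑ i, w i * w i = N := by
    have : ∀ i, w i * w i = (n * n - 2 * n) * (if i = o then 1 else 0) + 1 := by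
      intro i
      simp only [hw]
      split_ifs <;> ring
    simp only [this, Finset.sum_add_distrib, ← Finset.mul_sum, hcoln]
    simp only [Finset.sum_ite_eq', Finset.mem_univ, if_true]
    rw [hN]; ring
  have hrow : ∀ i, ∑ j, P' i j = 0 := by
    intro i
    have := congrFun (congrFun hPJ' i) i
    simpa [Matrix.mul_apply, JJ] using this
  have hP'w : ∀ i, ∑ j, P' i j * w j = 0 := by
    intro i
    have : ∀ j, P' i j * w j = n * (if j = o then P' i j else 0) - P' i j := by
      intro j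
      simp only [hw]
      split_ifs <;> ring
    simp only [this, Finset.sum_sub_distrib, ← Finset.mul_sum, hrow i, Finset.sum_ite_eq',
      Finset.mem_univ, if_true]
    rw [hP'.apply_symm i o, hsup o ho i]; ring
  set R : Matrix V V ℝ := of fun i j => w i * w j / N with hR
  set P : Matrix V V ℝ := R + P' with hP
  have hRs : Rᵀ = R := by
    ext i j
    simp only [hR, transpose_apply, of_apply]
    ring
  have hRR : R * R = R := by
    ext i j
    rw [Matrix.mul_apply]
    simp only [hR, of_apply]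
    have : ∀ x, w i * w x / N * (w x * w j / N) = (w i * w j / N ^ 2) * (w x * w x) := by
      intro x; field_simp
    simp only [this, ← Finset.mul_sum, hww]
    field_simp
  have hP'R : P' * R = 0 := by
    ext i j
    rw [Matrix.mul_apply]
    simp only [hR, of_apply, Matrix.zero_apply]
    have : ∀ x, P' i x * (w x * w j / N) = (P' i x * w x) * (w j / N) := by intro x; ring
    simp only [this, ← Finset.sum_mul, hP'w i, zero_mul]
  have hRP' : R * P' = 0 := by
    have := congrArg transpose hP'R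
    rwa [transpose_mul, hRs, hP'.symm, transpose_zero] at this
  have hPproj : IsProj P := by
    refine ⟨?_, ?_⟩
    · rw [hP, transpose_add, hRs, hP'.symm]
    · rw [hP, add_mul, mul_add, mul_add, hRR, hRP', hP'R, hP'.idem]; simp
  have hRJ : R * JJ V = 0 := by
    ext i j
    rw [Matrix.mul_apply]
    simp only [hR, of_apply, JJ, mul_one, Matrix.zero_apply]
    rw [← Finset.sum_div, ← Finset.mul_sum, hwsum, mul_zero, zero_div]
  have hPJ : P * JJ V = 0 := by rw [hP, add_mul, hRJ, hPJ', add_zero]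
  have hcone := trace_cone o hPproj hPJ
  have hn1 : n - 1 ≠ 0 := by
    have : 0 < n - 1 := by linarith
    exact this.ne'
  have hn0 : n ≠ 0 := by
    have : 0 < n := by linarith
    exact this.ne'
  have hPoo : n * P o o = n - 1 := by
    have h1 : P' o o = 0 := hsup o ho o
    have h2 : w o = n - 1 := by simp [hw]
    rw [hP, Matrix.add_apply, h1, add_zero]
    simp only [hR, of_apply, h2]
    rw [hN]; field_simp
  have htrR : R.trace = 1 := by
    rw [Matrix.trace]
    simp only [hR, diag_apply, of_apply]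
    rw [← Finset.sum_div, hww, div_self hN0]
  have htrP : P.trace = 1 + P'.trace := by rw [hP, trace_add, htrR]
  -- the quasi-complete part does not see `w`
  have hgr := hI.qcA_isGr
  have hLw : lap (qcA a b v) * R = 0 := by
    have h1 : ∀ i, ∑ j, lap (qcA a b v) i j * w j = 0 := by
      intro i
      have h2 := congrFun (lap_mulVec_one hgr) i
      have h3 : ∑ j, lap (qcA a b v) i j = 0 := by
        simpa [mulVec, dotProduct] using h2
      have h4 : ∀ j, lap (qcA a b v) i j * w j =
          n * (if j = o then lap (qcA a b v) i j else 0) - lap (qcA a b v) i j := by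
        intro j
        simp only [hw]
        split_ifs <;> ring
      have hrowo : ∀ j, qcA a b v j o = 0 := by
        intro j
        have := hI.qcA_supp o j
        rw [ho, mul_zero] at this
        rw [hgr.symm j o, ← this]
      have h5 : lap (qcA a b v) i o = 0 := by
        unfold lap
        rw [Matrix.sub_apply, hrowo i, sub_zero]
        by_cases h : i = o
        · subst h
          rw [diagonal_apply_eq, dg]
          refine Finset.sum_eq_zero fun j _ => ?_
          rw [hgr.symm i j, hrowo j]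
        · rw [diagonal_apply_ne _ h]
      simp only [h4, Finset.sum_sub_distrib, ← Finset.mul_sum, h3, Finset.sum_ite_eq',
        Finset.mem_univ, if_true, h5]
      ring
    ext i j
    rw [Matrix.mul_apply]
    simp only [hR, of_apply, Matrix.zero_apply]
    have : ∀ x, lap (qcA a b v) i x * (w x * w j / N) =
        (lap (qcA a b v) i x * w x) * (w j / N) := by intro x; ring
    simp only [this, ← Finset.sum_mul, h1 i, zero_mul]
  refine ⟨P, hPproj, ?_⟩
  have e1 : (lap (qcA a b v) * P).trace = (lap (qcA a b v) * P').trace := by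
    rw [hP, mul_add, hLw, zero_add]
  have e3 : ((lap (qcA a b v + coneA o) - θ • (1 : Matrix V V ℝ)) * P).trace =
      (lap (qcA a b v) * P').trace + (n - 1 + (1 + P'.trace)) - θ * (1 + P'.trace) := by
    rw [lap_add, sub_mul, add_mul, trace_sub, trace_add, e1, hcone, hPoo, smul_mul_assoc, one_mul,
      trace_smul, smul_eq_mul, htrP]
  have e4 : ((lap (qcA a b v) - (θ - 1) • (1 : Matrix V V ℝ)) * P').trace =
      (lap (qcA a b v) * P').trace - (θ - 1) * P'.trace := by
    rw [sub_mul, trace_sub, smul_mul_assoc, one_mul, trace_smul, smul_eq_mul]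
  rw [e4] at hval
  rw [e3]
  have e2 : max (r - (θ - 1)) 0 = max (r + 1 - θ) 0 := by congr 1; ring
  rw [e2] at hval
  linarith

end general

/-- the threshold graph: vertex `0` is adjacent to all vertices, the vertices `0, …, K` are
pairwise adjacent, and the vertex `K + 1` is adjacent to `0, …, r` -/
def thr (n K r : ℕ) : SimpleGraph (Fin n) where
  Adj i j := i ≠ j ∧ (i.val = 0 ∨ j.val = 0 ∨ (i.val ≤ K + 1 ∧ j.val ≤ K + 1 ∧
    ¬ (i.val = K + 1 ∧ r + 1 ≤ j.val) ∧ ¬ (j.val = K + 1 ∧ r + 1 ≤ i.val)))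
  symm := ⟨fun i j h => ⟨h.1.symm, by
    rcases h.2 with h | h | h
    · exact Or.inr (Or.inl h)
    · exact Or.inl h
    · exact Or.inr (Or.inr ⟨h.2.1, h.1, h.2.2.2, h.2.2.1⟩)⟩⟩
  loopless := ⟨fun i h => h.1 rfl⟩

instance (n K r : ℕ) : DecidableRel (thr n K r).Adj := fun i j => by
  unfold thr; infer_instance

lemma thr_ind {n K r : ℕ} (hr : r < K) :
    Ind (ivl (n := n) 1 (r + 1)) (ivl (n := n) (r + 1) (K + 1)) (ivl (n := n) (K + 1) (K + 2)) := by
  refine ⟨?_, ?_⟩
  · intro i
    by_cases h0 : i.val < 1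
    · left
      exact ⟨ivl_neg (by omega), ivl_neg (by omega), ivl_neg (by omega)⟩
    by_cases h1 : i.val < r + 1
    · right; left
      exact ⟨ivl_pos (by omega), ivl_neg (by omega), ivl_neg (by omega)⟩
    · by_cases h2 : i.val < K + 1
      · right; right; left
        exact ⟨ivl_neg (by omega), ivl_pos (by omega), ivl_neg (by omega)⟩
      · by_cases h3 : i.val < K + 2
        · right; right; right
          exact ⟨ivl_neg (by omega), ivl_neg (by omega), ivl_pos (by omega)⟩
        · left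
          exact ⟨ivl_neg (by omega), ivl_neg (by omega), ivl_neg (by omega)⟩
  · intro i j hi hj
    unfold ivl at hi hj
    split_ifs at hi hj with h1 h2
    · apply Fin.ext; omega
    · norm_num at hj
    · norm_num at hi
    · norm_num at hi

lemma adjR_thr {n K r : ℕ} (hr : r < K) (hn : 0 < n) :
    adjR (thr n K r) = qcA (ivl (n := n) 1 (r + 1)) (ivl (n := n) (r + 1) (K + 1))
      (ivl (n := n) (K + 1) (K + 2)) + coneA ⟨0, hn⟩ := by
  ext i j
  rw [adjR_apply, Matrix.add_apply]
  unfold qcA coneA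
  by_cases hij : i = j
  · subst hij
    rw [if_pos rfl, if_pos rfl, if_neg]
    · ring
    · intro h; exact h.1 rfl
  · rw [if_neg hij, if_neg hij]
    have hne : i.val ≠ j.val := fun h => hij (Fin.ext h)
    have h0 : ∀ k : Fin n, k = ⟨0, hn⟩ ↔ k.val = 0 := by
      intro k
      constructor
      · intro h; rw [h]
      · intro h; exact Fin.ext h
    have hc : ∀ k : Fin n, k.val = 0 ∨ (1 ≤ k.val ∧ k.val < r + 1) ∨
      (r + 1 ≤ k.val ∧ k.val < K + 1) ∨ k.val = K + 1 ∨ K + 2 ≤ k.val := by intro k; omega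
    have v0 : ∀ k : Fin n, k.val = 0 → ivl 1 (r + 1) k = 0 ∧ ivl (r + 1) (K + 1) k = 0 ∧
        ivl (K + 1) (K + 2) k = 0 := fun k hk =>
      ⟨ivl_neg (by omega), ivl_neg (by omega), ivl_neg (by omega)⟩
    have v1 : ∀ k : Fin n, (1 ≤ k.val ∧ k.val < r + 1) → ivl 1 (r + 1) k = 1 ∧
        ivl (r + 1) (K + 1) k = 0 ∧
        ivl (K + 1) (K + 2) k = 0 := fun k hk =>
      ⟨ivl_pos (by omega), ivl_neg (by omega), ivl_neg (by omega)⟩
    have v2 : ∀ k : Fin n, (r + 1 ≤ k.val ∧ k.val < K + 1) → ivl 1 (r + 1) k = 0 ∧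
        ivl (r + 1) (K + 1) k = 1 ∧
        ivl (K + 1) (K + 2) k = 0 := fun k hk =>
      ⟨ivl_neg (by omega), ivl_pos (by omega), ivl_neg (by omega)⟩
    have v3 : ∀ k : Fin n, k.val = K + 1 → ivl 1 (r + 1) k = 0 ∧ ivl (r + 1) (K + 1) k = 0 ∧
        ivl (K + 1) (K + 2) k = 1 := fun k hk =>
      ⟨ivl_neg (by omega), ivl_neg (by omega), ivl_pos (by omega)⟩
    have v4 : ∀ k : Fin n, K + 2 ≤ k.val → ivl 1 (r + 1) k = 0 ∧ ivl (r + 1) (K + 1) k = 0 ∧
        ivl (K + 1) (K + 2) k = 0 := fun k hk =>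
      ⟨ivl_neg (by omega), ivl_neg (by omega), ivl_neg (by omega)⟩
    have hadj : (thr n K r).Adj i j ↔ (i.val = 0 ∨ j.val = 0 ∨ (i.val ≤ K + 1 ∧ j.val ≤ K + 1 ∧
        ¬ (i.val = K + 1 ∧ r + 1 ≤ j.val) ∧ ¬ (j.val = K + 1 ∧ r + 1 ≤ i.val))) := by
      constructor
      · intro h; exact h.2
      · intro h; exact ⟨hij, h⟩
    have hor : (i = ⟨0, hn⟩ ∨ j = ⟨0, hn⟩) ↔ (i.val = 0 ∨ j.val = 0) := by rw [h0, h0]
    rcases hc i with hi | hi | hi | hi | hi
    · obtain ⟨e1, e2, e3⟩ := v0 i hi
      rw [e1, e2, e3, if_pos (hadj.mpr (by omega)), if_pos (hor.mpr (Or.inl hi))]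
      ring
    · obtain ⟨e1, e2, e3⟩ := v1 i hi
      rw [e1, e2, e3]
      rcases hc j with hj | hj | hj | hj | hj
      · obtain ⟨f1, f2, f3⟩ := v0 j hj
        rw [f1, f2, f3, if_pos (hadj.mpr (by omega)), if_pos (hor.mpr (by omega))]; norm_num
      · obtain ⟨f1, f2, f3⟩ := v1 j hj
        rw [f1, f2, f3, if_pos (hadj.mpr (by omega)), if_neg (fun h => absurd (hor.mp h) (by omega))]; norm_num
      · obtain ⟨f1, f2, f3⟩ := v2 j hj
        rw [f1, f2, f3, if_pos (hadj.mpr (by omega)), if_neg (fun h => absurd (hor.mp h) (by omega))]; norm_num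
      · obtain ⟨f1, f2, f3⟩ := v3 j hj
        rw [f1, f2, f3, if_pos (hadj.mpr (by omega)), if_neg (fun h => absurd (hor.mp h) (by omega))]; norm_num
      · obtain ⟨f1, f2, f3⟩ := v4 j hj
        rw [f1, f2, f3, if_neg (fun h => absurd (hadj.mp h) (by omega)), if_neg (fun h => absurd (hor.mp h) (by omega))]
        norm_num
    · obtain ⟨e1, e2, e3⟩ := v2 i hi
      rw [e1, e2, e3]
      rcases hc j with hj | hj | hj | hj | hj
      · obtain ⟨f1, f2, f3⟩ := v0 j hj
        rw [f1, f2, f3, if_pos (hadj.mpr (by omega)), if_pos (hor.mpr (by omega))]; norm_num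
      · obtain ⟨f1, f2, f3⟩ := v1 j hj
        rw [f1, f2, f3, if_pos (hadj.mpr (by omega)), if_neg (fun h => absurd (hor.mp h) (by omega))]; norm_num
      · obtain ⟨f1, f2, f3⟩ := v2 j hj
        rw [f1, f2, f3, if_pos (hadj.mpr (by omega)), if_neg (fun h => absurd (hor.mp h) (by omega))]; norm_num
      · obtain ⟨f1, f2, f3⟩ := v3 j hj
        rw [f1, f2, f3, if_neg (fun h => absurd (hadj.mp h) (by omega)), if_neg (fun h => absurd (hor.mp h) (by omega))]
        norm_num
      · obtain ⟨f1, f2, f3⟩ := v4 j hj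
        rw [f1, f2, f3, if_neg (fun h => absurd (hadj.mp h) (by omega)), if_neg (fun h => absurd (hor.mp h) (by omega))]
        norm_num
    · obtain ⟨e1, e2, e3⟩ := v3 i hi
      rw [e1, e2, e3]
      rcases hc j with hj | hj | hj | hj | hj
      · obtain ⟨f1, f2, f3⟩ := v0 j hj
        rw [f1, f2, f3, if_pos (hadj.mpr (by omega)), if_pos (hor.mpr (by omega))]; norm_num
      · obtain ⟨f1, f2, f3⟩ := v1 j hj
        rw [f1, f2, f3, if_pos (hadj.mpr (by omega)), if_neg (fun h => absurd (hor.mp h) (by omega))]; norm_num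
      · obtain ⟨f1, f2, f3⟩ := v2 j hj
        rw [f1, f2, f3, if_neg (fun h => absurd (hadj.mp h) (by omega)), if_neg (fun h => absurd (hor.mp h) (by omega))]
        norm_num
      · exfalso; omega
      · obtain ⟨f1, f2, f3⟩ := v4 j hj
        rw [f1, f2, f3, if_neg (fun h => absurd (hadj.mp h) (by omega)), if_neg (fun h => absurd (hor.mp h) (by omega))]
        norm_num
    · obtain ⟨e1, e2, e3⟩ := v4 i hi
      rw [e1, e2, e3]
      by_cases hj : j.val = 0
      · obtain ⟨f1, f2, f3⟩ := v0 j hj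
        rw [f1, f2, f3, if_pos (hadj.mpr (by omega)), if_pos (hor.mpr (by omega))]; norm_num
      · rw [if_neg (fun h => absurd (hadj.mp h) (by omega)), if_neg (fun h => absurd (hor.mp h) (by omega))]
        ring

/-- Lower bound: threshold graphs. -/
theorem energy_lower2 {n m K r : ℕ} (hr : r < K) (hK : K + 2 ≤ n)
    (hKr : (2 * m : ℝ) = (K : ℝ) * (K + 1) + 2 * (n - 1 - K) + 2 * r) :
    (thr n K r).Connected ∧ (thr n K r).edgeSet.ncard = m ∧
      2 * (m + (K : ℝ) * (K + 1) / 2 - 2 * m / n * K + max ((r : ℝ) + 1 - 2 * m / n) 0) ≤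
        laplacianEnergy (thr n K r) := by
  have hn0 : 0 < n := by omega
  have hn : (0 : ℝ) < n := by exact_mod_cast hn0
  have hI : Ind _ _ _ := thr_ind (n := n) hr
  have ha : ∑ i : Fin n, ivl 1 (r + 1) i = (r : ℝ) := by
    rw [sum_ivl (by omega) (by omega)]; push_cast; ring
  have hb : ∑ i : Fin n, ivl (r + 1) (K + 1) i = (K : ℝ) - r := by
    rw [sum_ivl (by omega) (by omega)]; push_cast; ring
  have hv : ∑ i : Fin n, ivl (K + 1) (K + 2) i = (1 : ℝ) := by
    rw [sum_ivl (by omega) (by omega)]; push_cast; ring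
  have hcardV : ((Fintype.card (Fin n) : ℕ) : ℝ) = n := by rw [Fintype.card_fin]
  have hcone : ∑ i, ∑ j, coneA (⟨0, hn0⟩ : Fin n) i j = 2 * ((n : ℝ) - 1) := by
    have h1 : ∀ i j : Fin n, coneA (⟨0, hn0⟩ : Fin n) i j =
        ((if i = ⟨0, hn0⟩ then 1 else 0) + (if j = ⟨0, hn0⟩ then 1 else 0))
          - 2 * (if i = j then (if i = ⟨0, hn0⟩ then 1 else 0) else 0) := by
      intro i j
      unfold coneA
      by_cases h : i = j
      · subst h
        rw [if_pos rfl, if_pos rfl]; ring
      · rw [if_neg h, if_neg h]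
        by_cases h1 : i = ⟨0, hn0⟩
        · have h2 : j ≠ ⟨0, hn0⟩ := fun h3 => h (h1.trans h3.symm)
          rw [if_pos (Or.inl h1), if_pos h1, if_neg h2]; ring
        · by_cases h2 : j = ⟨0, hn0⟩
          · rw [if_pos (Or.inr h2), if_neg h1, if_pos h2]; ring
          · rw [if_neg (by tauto), if_neg h1, if_neg h2]; ring
    simp only [h1, Finset.sum_sub_distrib, Finset.sum_add_distrib, ← Finset.mul_sum,
      Finset.sum_const, Finset.card_univ, nsmul_eq_mul, Finset.sum_ite_eq, Finset.mem_univ,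
      if_true, Finset.sum_ite_eq', mul_one, Fintype.card_fin]
    ring
  have hsum : ∑ i, ∑ j, adjR (thr n K r) i j = 2 * m := by
    rw [adjR_thr hr hn0]
    simp only [Matrix.add_apply, Finset.sum_add_distrib]
    rw [hI.qcA_sum ha hb hv, hcone, hKr]; ring
  have hm : (thr n K r).edgeSet.ncard = m := by
    rw [sum_adjR] at hsum
    have : (((thr n K r).edgeSet.ncard : ℕ) : ℝ) = m := by linarith
    exact_mod_cast this
  refine ⟨?_, hm, ?_⟩
  · have h0 : ∀ i : Fin n, i ≠ ⟨0, hn0⟩ → (thr n K r).Adj i ⟨0, hn0⟩ := by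
      intro i hi
      exact ⟨hi, Or.inr (Or.inl rfl)⟩
    rw [SimpleGraph.connected_iff_exists_forall_reachable]
    refine ⟨⟨0, hn0⟩, fun w => ?_⟩
    by_cases hw : w = ⟨0, hn0⟩
    · rw [hw]
    · exact (h0 w hw).symm.reachable
  · set c : ℝ := 2 * (m : ℝ) / n with hc
    have hcn : c * n = 2 * m := by rw [hc]; field_simp
    obtain ⟨P, hP, hE, -⟩ := energy_spec hn0 (thr n K r) (c := c) (by rw [hm])
    have hrs : (0 : ℝ) < (K : ℝ) - r := by
      have : (r : ℝ) < K := by exact_mod_cast hr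
      linarith
    have ho : ivl 1 (r + 1) (⟨0, hn0⟩ : Fin n) + ivl (r + 1) (K + 1) (⟨0, hn0⟩ : Fin n)
        + ivl (K + 1) (K + 2) (⟨0, hn0⟩ : Fin n) = 0 := by
      rw [ivl_neg (by simp), ivl_neg (by simp), ivl_neg (by simp)]; ring
    obtain ⟨P', hP', hval⟩ := hI.cone_lower ha hb hv (Nat.cast_nonneg r) hrs c ⟨0, hn0⟩ ho
      (by
        rw [hcardV]
        have : 2 ≤ n := by omega
        exact_mod_cast this)
    rw [← adjR_thr hr hn0, hcardV] at hval
    have hle := hP.trace_le hP'
    rw [← hval] at hle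
    rw [hE]
    have hmm : (m : ℝ) = ((K : ℝ) * (K + 1) + 2 * (n - 1 - K) + 2 * r) / 2 := by linarith
    rw [hmm]
    linarith

end Pool.Agent.Helper53.LE
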