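import Mathlib

/-!
Arithmetic for the pineapple theorem.
-/

namespace Pool.Agent.Helper53.LE

/-- `n` times half of the energy of the pineapple with clique number `K + 1` -/
def gP (n K : ℝ) : ℝ := -K ^ 3 + (n + 1) * K ^ 2 - (2 * n - 2) * K + n ^ 2 - n

/-- `n` times the value in the dense half -/
def gD (n K : ℝ) : ℝ := -K ^ 3 + (n - 2) * K ^ 2 - K + n ^ 2 - n

lemma gP_up (n Ks h : ℝ) : gP n Ks - gP n (Ks + h) =
    h * (3 * Ks ^ 2 + Ks - 2 * n * Ks + n - 2) + h * (h - 1) * (3 * Ks + h - n) := by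
  unfold gP; ring

lemma gP_down (n Ks h : ℝ) : gP n Ks - gP n (Ks - h) =
    h * (-(3 * Ks ^ 2 - 5 * Ks - 2 * n * Ks + 3 * n)) + h * (h - 1) * (3 * Ks - h - n - 2) := by
  unfold gP; ring

lemma gD_up (n Ks h : ℝ) : gD n Ks - gD n (Ks + h) =
    h * (3 * Ks ^ 2 + 7 * Ks - 2 * n * Ks - n + 4) + h * (h - 1) * (3 * Ks + h + 3 - n) := by
  unfold gD; ring

lemma gD_down (n Ks h : ℝ) : gD n Ks - gD n (Ks - h) =
    h * (-(3 * Ks ^ 2 + Ks - 2 * n * Ks + n)) + h * (h - 1) * (3 * Ks - h + 1 - n) := by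
  unfold gD; ring

lemma gP_max_aux {n Ks : ℝ} {K K0 : ℕ} (hK0 : (K0 : ℝ) = Ks) 
    (h1 : 0 ≤ 3 * Ks ^ 2 + Ks - 2 * n * Ks + n - 2)
    (h2 : 3 * Ks ^ 2 - 5 * Ks - 2 * n * Ks + 3 * n ≤ 0) (h3 : n ≤ 3 * Ks)
    (h4 : n + 2 ≤ 2 * Ks) : gP n K ≤ gP n Ks := by
  rcases lt_trichotomy K K0 with hlt | heq | hgt
  · obtain ⟨h, hh⟩ := Nat.exists_eq_add_of_lt hlt
    have e : (K : ℝ) = Ks - (h + 1) := by
      rw [← hK0, hh]; push_cast; ring
    have hh0 : (0 : ℝ) ≤ h := Nat.cast_nonneg h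
    have hle : (h : ℝ) + 1 ≤ Ks := by
      have : (0 : ℝ) ≤ K := Nat.cast_nonneg K
      linarith
    have := gP_down n Ks (h + 1)
    rw [← e] at this
    have t1 : 0 ≤ ((h : ℝ) + 1) * (-(3 * Ks ^ 2 - 5 * Ks - 2 * n * Ks + 3 * n)) :=
      mul_nonneg (by linarith) (by linarith)
    have t2 : 0 ≤ ((h : ℝ) + 1) * ((h : ℝ) + 1 - 1) * (3 * Ks - (h + 1) - n - 2) :=
      mul_nonneg (mul_nonneg (by linarith) (by linarith)) (by linarith)
    linarith
  · rw [heq, hK0]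
  · obtain ⟨h, hh⟩ := Nat.exists_eq_add_of_lt hgt
    have e : (K : ℝ) = Ks + (h + 1) := by
      rw [← hK0, hh]; push_cast; ring
    have hh0 : (0 : ℝ) ≤ h := Nat.cast_nonneg h
    have := gP_up n Ks (h + 1)
    rw [← e] at this
    have t1 : 0 ≤ ((h : ℝ) + 1) * (3 * Ks ^ 2 + Ks - 2 * n * Ks + n - 2) :=
      mul_nonneg (by linarith) (by linarith)
    have t2 : 0 ≤ ((h : ℝ) + 1) * ((h : ℝ) + 1 - 1) * (3 * Ks + (h + 1) - n) :=
      mul_nonneg (mul_nonneg (by linarith) (by linarith)) (by linarith)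
    linarith

lemma gD_max_aux {n Ks : ℝ} {K K0 : ℕ} (hK0 : (K0 : ℝ) = Ks) 
    (h1 : 0 ≤ 3 * Ks ^ 2 + 7 * Ks - 2 * n * Ks - n + 4)
    (h2 : 3 * Ks ^ 2 + Ks - 2 * n * Ks + n ≤ 0) (h3 : n ≤ 3 * Ks)
    (h4 : n + 2 ≤ 2 * Ks) : gD n K ≤ gD n Ks := by
  rcases lt_trichotomy K K0 with hlt | heq | hgt
  · obtain ⟨h, hh⟩ := Nat.exists_eq_add_of_lt hlt
    have e : (K : ℝ) = Ks - (h + 1) := by
      rw [← hK0, hh]; push_cast; ring
    have hh0 : (0 : ℝ) ≤ h := Nat.cast_nonneg h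
    have hle : (h : ℝ) + 1 ≤ Ks := by
      have : (0 : ℝ) ≤ K := Nat.cast_nonneg K
      linarith
    have := gD_down n Ks (h + 1)
    rw [← e] at this
    have t1 : 0 ≤ ((h : ℝ) + 1) * (-(3 * Ks ^ 2 + Ks - 2 * n * Ks + n)) :=
      mul_nonneg (by linarith) (by linarith)
    have t2 : 0 ≤ ((h : ℝ) + 1) * ((h : ℝ) + 1 - 1) * (3 * Ks - (h + 1) + 1 - n) :=
      mul_nonneg (mul_nonneg (by linarith) (by linarith)) (by linarith)
    linarith
  · rw [heq, hK0]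
  · obtain ⟨h, hh⟩ := Nat.exists_eq_add_of_lt hgt
    have e : (K : ℝ) = Ks + (h + 1) := by
      rw [← hK0, hh]; push_cast; ring
    have hh0 : (0 : ℝ) ≤ h := Nat.cast_nonneg h
    have := gD_up n Ks (h + 1)
    rw [← e] at this
    have t1 : 0 ≤ ((h : ℝ) + 1) * (3 * Ks ^ 2 + 7 * Ks - 2 * n * Ks - n + 4) :=
      mul_nonneg (by linarith) (by linarith)
    have t2 : 0 ≤ ((h : ℝ) + 1) * ((h : ℝ) + 1 - 1) * (3 * Ks + (h + 1) + 3 - n) :=
      mul_nonneg (mul_nonneg (by linarith) (by linarith)) (by linarith)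
    linarith

/-- the three facts about `⌊2n/3⌋` -/
theorem pine_arith {n : ℕ} (hn : 30 ≤ n) :
    (∀ K : ℕ, gP n K ≤ gP n ((2 * n / 3 : ℕ) : ℝ)) ∧
    (∀ K : ℕ, gD n K ≤ gP n ((2 * n / 3 : ℕ) : ℝ)) ∧
    4 / 27 * (n : ℝ) ^ 3 ≤ gP n ((2 * n / 3 : ℕ) : ℝ) := by
  obtain ⟨j, i, hi, hni⟩ : ∃ j i : ℕ, i < 3 ∧ n = 3 * j + i :=
    ⟨n / 3, n % 3, Nat.mod_lt _ (by norm_num), by omega⟩
  have hj : 9 ≤ j := by omega
  have hjr : (9 : ℝ) ≤ j := by exact_mod_cast hj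
  interval_cases i
  · have e1 : 2 * n / 3 = 2 * j := by omega
    have en : (n : ℝ) = 3 * j := by rw [hni]; push_cast; ring
    rw [e1, en]; push_cast
    obtain ⟨j', hj'⟩ : ∃ j' : ℕ, 2 * j = j' + 1 := ⟨2 * j - 1, by omega⟩
    have hj'r : (j' : ℝ) = 2 * j - 1 := by
      have : ((2 * j : ℕ) : ℝ) = ((j' + 1 : ℕ) : ℝ) := by rw [hj']
      push_cast at this; linarith
    refine ⟨fun K => ?_, fun K => ?_, ?_⟩
    · exact gP_max_aux (K0 := 2 * j) (by push_cast; ring) (by linarith) (by linarith)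
        (by linarith) (by linarith)
    · refine (gD_max_aux (Ks := 2 * j - 1) (K0 := j') hj'r (by linarith) (by linarith)
        (by linarith) (by linarith)).trans ?_
      unfold gD gP; linarith
    · unfold gP; nlinarith
  · have e1 : 2 * n / 3 = 2 * j := by omega
    have en : (n : ℝ) = 3 * j + 1 := by rw [hni]; push_cast; ring
    rw [e1, en]; push_cast
    obtain ⟨j', hj'⟩ : ∃ j' : ℕ, 2 * j = j' + 1 := ⟨2 * j - 1, by omega⟩
    have hj'r : (j' : ℝ) = 2 * j - 1 := by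
      have : ((2 * j : ℕ) : ℝ) = ((j' + 1 : ℕ) : ℝ) := by rw [hj']
      push_cast at this; linarith
    refine ⟨fun K => ?_, fun K => ?_, ?_⟩
    · exact gP_max_aux (K0 := 2 * j) (by push_cast; ring) (by linarith) (by linarith)
        (by linarith) (by linarith)
    · refine (gD_max_aux (Ks := 2 * j - 1) (K0 := j') hj'r (by linarith) (by linarith)
        (by linarith) (by linarith)).trans ?_
      unfold gD gP; linarith
    · unfold gP; nlinarith
  · have e1 : 2 * n / 3 = 2 * j + 1 := by omega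
    have en : (n : ℝ) = 3 * j + 2 := by rw [hni]; push_cast; ring
    rw [e1, en]; push_cast
    refine ⟨fun K => ?_, fun K => ?_, ?_⟩
    · exact gP_max_aux (K0 := 2 * j + 1) (by push_cast; ring) (by linarith) (by linarith)
        (by linarith) (by linarith)
    · refine (gD_max_aux (Ks := 2 * j) (K0 := 2 * j) (by push_cast; ring) (by linarith)
        (by linarith) (by linarith) (by linarith)).trans ?_
      unfold gD gP; linarith
    · unfold gP; nlinarith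

end Pool.Agent.Helper53.LE
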