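import Pool.Agent.Helper53.LE.Pine
import Pool.Agent.Helper53.LE.Final2
import Pool.Agent.Helper53.LE.Lower2
import Pool.Agent.Helper53.LE.Dense

/-!
The pineapple theorem.
-/

namespace Pool.Agent.Helper53.LE

open Matrix Finset

/-- the pineapple with clique number `p` -/
def pineapple (n p : ℕ) : SimpleGraph (Fin n) where
  Adj i j := i ≠ j ∧ ((i.val < p ∧ j.val < p) ∨ i.val = 0 ∨ j.val = 0)
  symm := ⟨fun _ _ h => ⟨h.1.symm, by
    rcases h.2 with h | h | h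
    · exact Or.inl ⟨h.2, h.1⟩
    · exact Or.inr (Or.inr h)
    · exact Or.inr (Or.inl h)⟩⟩
  loopless := ⟨fun _ h => h.1 rfl⟩

lemma pineapple_eq (n K : ℕ) : pineapple n (1 + K) = thr n K 0 := by
  ext i j
  simp only [pineapple, thr]
  constructor
  · rintro ⟨h1, h2⟩
    refine ⟨h1, ?_⟩
    omega
  · rintro ⟨h1, h2⟩
    refine ⟨h1, ?_⟩
    omega

lemma half_aux {n K : ℝ} (hK0 : 0 ≤ K) (hK : 2 * K ≤ n) :
    K ^ 2 * (n - K) ≤ n ^ 3 / 8 := by
  have h1 : 0 ≤ (n / 2 - K) * (n ^ 2 / 4 + n * K / 2 - K ^ 2) := by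
    refine mul_nonneg (by linarith) ?_
    nlinarith
  linarith

lemma v1_le {n Ks : ℝ} (gmax : ∀ K : ℕ, gP n K ≤ gP n Ks) (hbig : 4 / 27 * n ^ 3 ≤ gP n Ks)
    (hn : 100 ≤ n) {m K r : ℕ} (hr : r < K) {C : ℝ}
    (hKr : (2 * m : ℝ) = (K : ℝ) * (K + 1) + 2 * (n - 1 - K) + 2 * r)
    (hCK : C ≤ 2 * (n - K - 1)) :
    2 * (m + (K : ℝ) * (K + 1) / 2 - 2 * m / n * K
        + max ((r : ℝ) + 1 - 2 * m / n + C / n * (K - r)) 0) ≤ 2 * (gP n Ks / n) := by
  have hn0 : 0 < n := by linarith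
  have hr0 : (0 : ℝ) ≤ r := Nat.cast_nonneg r
  have hrK : (r : ℝ) + 1 ≤ K := by exact_mod_cast hr
  have hK0 : (0 : ℝ) ≤ K := Nat.cast_nonneg K
  set c : ℝ := 2 * (m : ℝ) / n with hc
  have hcn : c * n = 2 * m := by rw [hc]; field_simp
  refine mul_le_mul_of_nonneg_left ?_ (by norm_num)
  rw [add_comm _ (max _ _), ← le_sub_iff_add_le]
  apply max_le
  · rw [le_sub_iff_add_le, le_div_iff₀ hn0]
    have e : C / n * (K - r) * n = C * (K - r) := by field_simp
    have e2 : (r + 1 - c + C / n * (K - r) + (m + (K : ℝ) * (K + 1) / 2 - c * K)) * n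
        = gP n (K + 1) - (K - r) * (2 * (n - K - 1) - C) := by
      have e3 : (r + 1 - c + C / n * (K - r) + (m + (K : ℝ) * (K + 1) / 2 - c * K)) * n
          = (r + 1) * n - c * n + C / n * (K - r) * n + m * n + (K : ℝ) * (K + 1) / 2 * n
            - c * n * K := by ring
      rw [e3, e, hcn]
      have hm : (m : ℝ) = ((K : ℝ) * (K + 1) + 2 * (n - 1 - K) + 2 * r) / 2 := by linarith
      rw [hm]
      unfold gP
      ring
    rw [e2]
    have h1 := gmax (K + 1)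
    push_cast at h1
    have h2 : 0 ≤ (K - r) * (2 * (n - K - 1) - C) := mul_nonneg (by linarith) (by linarith)
    linarith
  · rw [le_sub_iff_add_le, le_div_iff₀ hn0]
    have e2 : (0 + (m + (K : ℝ) * (K + 1) / 2 - c * K)) * n
        = gP n K + r * (n - 2 * K) := by
      have e3 : (0 + (m + (K : ℝ) * (K + 1) / 2 - c * K)) * n
          = m * n + (K : ℝ) * (K + 1) / 2 * n - c * n * K := by ring
      rw [e3, hcn]
      have hm : (m : ℝ) = ((K : ℝ) * (K + 1) + 2 * (n - 1 - K) + 2 * r) / 2 := by linarith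
      rw [hm]
      unfold gP
      ring
    rw [e2]
    rcases le_or_gt n (2 * K) with h | h
    · have h1 := gmax K
      have h2 : 0 ≤ (r : ℝ) * (2 * K - n) := mul_nonneg hr0 (by linarith)
      linarith
    · have h1 := half_aux hK0 h.le
      have h2 : (r : ℝ) * (n - 2 * K) ≤ K * n := by
        have : (r : ℝ) * (n - 2 * K) ≤ K * (n - 2 * K) :=
          mul_le_mul_of_nonneg_right (by linarith) (by linarith)
        nlinarith
      have h3 : gP n K ≤ K ^ 2 * (n - K) + K ^ 2 + n ^ 2 := by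
        unfold gP
        linarith [mul_nonneg hK0 (by linarith : (0 : ℝ) ≤ 2 * n - 2)]
      have h4 : (K : ℝ) ^ 2 ≤ n ^ 2 := by nlinarith
      have h5 : (K : ℝ) * n ≤ n ^ 2 := by nlinarith
      have h6 : (3 : ℝ) * n ^ 2 ≤ 5 / 216 * n ^ 3 ∨ n < 130 := by
        rcases lt_or_ge n 130 with h | h
        · exact Or.inr h
        · left; nlinarith [sq_nonneg n]
      have h7 : K ^ 2 + K * n + n ^ 2 ≤ 7 / 4 * n ^ 2 := by nlinarith
      nlinarith [sq_nonneg n]

lemma v2_le {n Ks : ℝ} (gmax : ∀ K : ℕ, gD n K ≤ gP n Ks) (hbig : 4 / 27 * n ^ 3 ≤ gP n Ks)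
    (hn : 100 ≤ n) {m K r : ℕ} (hr : r ≤ K)
    (hKr : (2 * m : ℝ) + (K : ℝ) * (K + 1) + 2 * r = n * (n - 1))
    (hCK : (K : ℝ) + 2 ≤ n) :
    2 * (2 * m / n) + 2 * ((K : ℝ) * (K + 1) + r - (n - 2 * m / n) * K
        + max ((r : ℝ) - (n - 2 * m / n)) 0) ≤ 2 * (gP n Ks / n) := by
  have hn0 : 0 < n := by linarith
  have hr0 : (0 : ℝ) ≤ r := Nat.cast_nonneg r
  have hrK : (r : ℝ) ≤ K := by exact_mod_cast hr
  have hK0 : (0 : ℝ) ≤ K := Nat.cast_nonneg K
  set c : ℝ := 2 * (m : ℝ) / n with hc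
  have hcn : c * n = 2 * m := by rw [hc]; field_simp
  rw [← mul_add]
  refine mul_le_mul_of_nonneg_left ?_ (by norm_num)
  rw [← add_assoc, add_comm _ (max _ _), ← le_sub_iff_add_le]
  apply max_le
  · rw [le_sub_iff_add_le, le_div_iff₀ hn0]
    have e2 : (r - (n - c) + (c + ((K : ℝ) * (K + 1) + r - (n - c) * K))) * n
        = gD n (K + 1) - 2 * (K + 1 - r) * (n - K - 2) := by
      have e3 : (r - (n - c) + (c + ((K : ℝ) * (K + 1) + r - (n - c) * K))) * n
          = r * n - n * n + c * n + c * n + (K : ℝ) * (K + 1) * n + r * n - n * n * K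
            + c * n * K := by ring
      rw [e3, hcn]
      have hm : (2 * m : ℝ) = n * (n - 1) - (K : ℝ) * (K + 1) - 2 * r := by linarith
      rw [hm]
      unfold gD
      ring
    rw [e2]
    have h1 := gmax (K + 1)
    push_cast at h1
    have h2 : 0 ≤ 2 * (K + 1 - r) * (n - K - 2) := mul_nonneg (by linarith) (by linarith)
    linarith
  · rw [le_sub_iff_add_le, le_div_iff₀ hn0]
    have e2 : (0 + (c + ((K : ℝ) * (K + 1) + r - (n - c) * K))) * n
        = gD n K + r * (n - 2 * (K + 1)) := by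
      have e3 : (0 + (c + ((K : ℝ) * (K + 1) + r - (n - c) * K))) * n
          = c * n + (K : ℝ) * (K + 1) * n + r * n - n * n * K
            + c * n * K := by ring
      rw [e3, hcn]
      have hm : (2 * m : ℝ) = n * (n - 1) - (K : ℝ) * (K + 1) - 2 * r := by linarith
      rw [hm]
      unfold gD
      ring
    rw [e2]
    rcases le_or_gt n (2 * (K + 1)) with h | h
    · have h1 := gmax K
      have h2 : 0 ≤ (r : ℝ) * (2 * (K + 1) - n) := mul_nonneg hr0 (by linarith)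
      linarith
    · have h1 := half_aux (n := n) hK0 (by linarith)
      have h2 : (r : ℝ) * (n - 2 * (K + 1)) ≤ K * n := by
        have : (r : ℝ) * (n - 2 * (K + 1)) ≤ K * (n - 2 * (K + 1)) :=
          mul_le_mul_of_nonneg_right (by linarith) (by linarith)
        nlinarith
      have h3 : gD n K ≤ K ^ 2 * (n - K) + n ^ 2 := by
        unfold gD
        nlinarith [mul_nonneg hK0 (by linarith : (0 : ℝ) ≤ 2 * n - 2)]
      have h7 : K * n + n ^ 2 ≤ 7 / 4 * n ^ 2 := by nlinarith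
      nlinarith [sq_nonneg n]

lemma pine_lower {n : ℕ} (hn : 30 ≤ n) :
    2 * (gP n ((2 * n / 3 : ℕ) : ℝ) / n) ≤
      laplacianEnergy (pineapple n (1 + 2 * n / 3)) := by
  rw [pineapple_eq]
  set K : ℕ := 2 * n / 3 with hK
  have hKn : K + 2 ≤ n := by omega
  have hK0 : 0 < K := by omega
  have hn0 : (0 : ℝ) < n := by
    have : 0 < n := by omega
    exact_mod_cast this
  have hm : (2 * (((K + 1).choose 2 + (n - 1 - K) : ℕ) : ℝ)) =
      (K : ℝ) * (K + 1) + 2 * (n - 1 - K) + 2 * ((0 : ℕ) : ℝ) := by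
    have h1 : (((K + 1).choose 2 : ℕ) : ℝ) = (K : ℝ) * (K + 1) / 2 := by
      rw [Nat.cast_choose_two]; push_cast; ring
    have h2 : ((n - 1 - K : ℕ) : ℝ) = n - 1 - K := by
      rw [Nat.cast_sub (by omega), Nat.cast_sub (by omega)]; push_cast; ring
    rw [Nat.cast_add, h1, h2]; push_cast; ring
  obtain ⟨-, -, h3⟩ := energy_lower2 hK0 hKn hm
  refine le_trans ?_ h3
  refine mul_le_mul_of_nonneg_left ?_ (by norm_num)
  set m : ℕ := (K + 1).choose 2 + (n - 1 - K) with hmd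
  have h4 := le_max_right (((0 : ℕ) : ℝ) + 1 - 2 * m / n) 0
  refine le_trans ?_ (le_add_of_nonneg_right h4)
  rw [div_le_iff₀ hn0]
  have hcn : 2 * (m : ℝ) / n * n = 2 * m := by field_simp
  have e3 : (m + (K : ℝ) * (K + 1) / 2 - 2 * m / n * K) * n
      = m * n + (K : ℝ) * (K + 1) / 2 * n - 2 * (m : ℝ) / n * n * K := by ring
  rw [e3, hcn]
  have hm' : (m : ℝ) = ((K : ℝ) * (K + 1) + 2 * (n - 1 - K)) / 2 := by
    rw [Nat.cast_zero, mul_zero, add_zero] at hm; linarith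
  rw [hm']
  unfold gP
  apply le_of_eq
  ring

theorem pine_upper : ∃ n₀ : ℕ, ∀ n : ℕ, n₀ ≤ n → 30 ≤ n ∧
    ∀ G : SimpleGraph (Fin n), G.Connected →
      laplacianEnergy G ≤ 2 * (gP n ((2 * n / 3 : ℕ) : ℝ) / n) := by
  obtain ⟨δ, η, η1, η2, n0, hC⟩ := exists_CC (ε := 1 / 25) (by norm_num) (by norm_num) 200
  have hδ0 : 0 < δ := (hC n0 le_rfl).1.facts.1
  set C : ℝ := 8 / δ ^ 3 with hCd
  have hC0 : 0 < C := by positivity
  obtain ⟨n1, hn1⟩ := exists_nat_ge (20 * C + 1000000)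
  refine ⟨max n0 n1, fun n hn => ?_⟩
  obtain ⟨hCn, hnN⟩ := hC n ((le_max_left _ _).trans hn)
  have hn1' : 20 * C + 1000000 ≤ (n : ℝ) :=
    hn1.trans (by exact_mod_cast (le_max_right _ _).trans hn)
  have hnpos : (0 : ℝ) < n := by linarith
  have hn30 : 30 ≤ n := by
    have : (30 : ℝ) ≤ n := by linarith
    exact_mod_cast this
  refine ⟨hn30, fun G hG => ?_⟩
  have hn0 : 0 < n := by omega
  obtain ⟨gmax, dmax, hbig⟩ := pine_arith hn30
  set Ks : ℝ := ((2 * n / 3 : ℕ) : ℝ) with hKs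
  set m : ℕ := G.edgeSet.ncard with hm
  have hchoose : ∀ k : ℕ, (((k + 1).choose 2 : ℕ) : ℝ) = (k : ℝ) * (k + 1) / 2 := by
    intro k
    rw [Nat.cast_choose_two]; push_cast; ring
  have hnch : ((n.choose 2 : ℕ) : ℝ) = (n : ℝ) * (n - 1) / 2 := Nat.cast_choose_two ℝ n
  have hA := isGr_adjR G
  have hcard : ((Fintype.card (Fin n) : ℕ) : ℝ) = n := by rw [Fintype.card_fin]
  have hsumA : ∑ i, ∑ j, adjR G i j = 2 * m := by rw [sum_adjR]
  have hsumdg : ∑ i, dg (adjR G) i = 2 * m := hsumA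
  have hbig' : 4 / 27 * (n : ℝ) ^ 2 ≤ gP n Ks / n := by
    rw [le_div_iff₀ hnpos]
    calc 4 / 27 * (n : ℝ) ^ 2 * n = 4 / 27 * (n : ℝ) ^ 3 := by ring
      _ ≤ _ := hbig
  -- the crude bound for extreme densities
  have hext : (∑ i, max (dg (adjR G) i - 2 * (m : ℝ) / n) 0 ≤ 1 / 10 * (n : ℝ) ^ 2) →
      laplacianEnergy G ≤ 2 * (gP n Ks / n) := by
    intro h
    obtain ⟨P, hP, hE, -⟩ := energy_spec hn0 G (c := 2 * (m : ℝ) / n) rfl
    have hcr := crude hA hP.proj (2 * (m : ℝ) / n) hcard.symm (η := 1 / 100) (by norm_num)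
      (by linarith)
    rw [hE]
    linarith
  set c : ℝ := 2 * (m : ℝ) / n with hc
  have hcn : c * n = 2 * m := by rw [hc]; field_simp
  have hm0 : (0 : ℝ) ≤ m := Nat.cast_nonneg m
  have hc0 : 0 ≤ c := by rw [hc]; positivity
  have hdg0 : ∀ i, 0 ≤ dg (adjR G) i := fun i => dg_nonneg hA i
  have hdgn : ∀ i, dg (adjR G) i ≤ n := fun i => (dg_le hA i).trans (by rw [hcard])
  rcases lt_or_ge c (1 / 10 * n) with hlo | hlo
  · apply hext
    calc ∑ i, max (dg (adjR G) i - c) 0 ≤ ∑ i, dg (adjR G) i :=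
          Finset.sum_le_sum fun i _ => max_le (by linarith) (hdg0 i)
      _ = c * n := by rw [hsumdg, hcn]
      _ ≤ 1 / 10 * (n : ℝ) ^ 2 := by nlinarith
  rcases lt_or_ge (9 / 10 * (n : ℝ)) c with hhi | hhi
  · apply hext
    calc ∑ i, max (dg (adjR G) i - c) 0 ≤ ∑ _i : Fin n, max ((n : ℝ) - c) 0 :=
          Finset.sum_le_sum fun i _ => max_le_max (by linarith [hdgn i]) le_rfl
      _ = n * max ((n : ℝ) - c) 0 := by
        rw [Finset.sum_const, Finset.card_univ, nsmul_eq_mul, hcard]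
      _ ≤ n * (1 / 10 * n) :=
        mul_le_mul_of_nonneg_left (max_le (by linarith) (by linarith)) hnpos.le
      _ = 1 / 10 * (n : ℝ) ^ 2 := by ring
  have g1 : 2 * (1 / 25) * (n : ℝ) ^ 2 ≤ 2 * m := by rw [← hcn]; nlinarith
  have g2 : 2 * (1 / 25) * (n : ℝ) ^ 2 ≤ (n : ℝ) * (n - 1) - 2 * m := by rw [← hcn]; nlinarith
  obtain ⟨K, r, hr, hKr⟩ : ∃ K r : ℕ, r < K ∧ m + K + 1 = (K + 1).choose 2 + n + r := by
    have hle : n ≤ m := by
      have : (n : ℝ) ≤ m := by nlinarith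
      exact_mod_cast this
    obtain ⟨b, hb⟩ := Nat.exists_eq_add_of_le hle
    obtain ⟨K, r, h1, h2⟩ := tri_exists (b + 1)
    refine ⟨K + 1, r, by omega, ?_⟩
    have : (K + 1 + 1).choose 2 = (K + 1).choose 1 + (K + 1).choose 2 :=
      Nat.choose_succ_succ _ _
    rw [Nat.choose_one_right] at this
    omega
  obtain ⟨K', r', hr', hKr'⟩ : ∃ K' r' : ℕ, r' ≤ K' ∧
      m + ((K' + 1).choose 2 + r') = n.choose 2 := by
    have hle : m ≤ n.choose 2 := by
      have : (m : ℝ) ≤ ((n.choose 2 : ℕ) : ℝ) := by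
        rw [hnch]; linarith
      exact_mod_cast this
    obtain ⟨b, hb⟩ := Nat.exists_eq_add_of_le hle
    obtain ⟨K, r, h1, h2⟩ := tri_exists b
    exact ⟨K, r, h1, by omega⟩
  have hreal : (2 * m : ℝ) = (K : ℝ) * (K + 1) + 2 * (n - 1 - K) + 2 * r := by
    have : ((m : ℝ) + K + 1) = (((K + 1).choose 2 : ℕ) : ℝ) + n + r := by exact_mod_cast hKr
    rw [hchoose] at this
    linarith
  have hreal' : (2 * m : ℝ) + (K' : ℝ) * (K' + 1) + 2 * r' = (n : ℝ) * (n - 1) := by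
    have : ((m : ℝ) + (((K' + 1).choose 2 : ℕ) + r')) = ((n.choose 2 : ℕ) : ℝ) := by
      exact_mod_cast hKr'
    rw [hchoose, hnch] at this
    linarith
  have hr0 : (0 : ℝ) ≤ r := Nat.cast_nonneg r
  have hr'0 : (0 : ℝ) ≤ r' := Nat.cast_nonneg r'
  have hK0 : (0 : ℝ) ≤ K := Nat.cast_nonneg K
  have hK'0 : (0 : ℝ) ≤ K' := Nat.cast_nonneg K'
  have hKn : (K : ℝ) ≤ 19 / 20 * n := by
    by_contra h
    push Not at h
    have h1 : (19 / 20 * (n : ℝ)) * (19 / 20 * n - 1) ≤ (K : ℝ) * (K - 1) :=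
      mul_le_mul h.le (by linarith) (by linarith) hK0
    have h2 : c * n ≤ 9 / 10 * n * n := mul_le_mul_of_nonneg_right hhi hnpos.le
    linarith
  have hK'n : (K' : ℝ) + 2 ≤ n := by
    by_contra h
    push Not at h
    nlinarith
  have h := energy_upper2 hCn G hG rfl hr hreal hr' hreal' g1 g2
  refine h.trans (max_le ?_ ?_)
  · exact v1_le gmax hbig (by linarith) hr hreal (by linarith)
  · exact v2_le dmax hbig (by linarith) hr' hreal' hK'n

end Pool.Agent.Helper53.LE
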