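import Mathlib

/-!
Real arithmetic for the stability argument.
-/

namespace Pool.Agent.Helper53.LE

lemma real_scaled {u b k D M ε η : ℝ} (hε : 0 < ε) (hε1 : ε ≤ 1 / 4) (hη : 0 < η)
    (hη2 : 4 * η ≤ ε ^ 2) (hu0 : 0 ≤ u) (h1 : 2 * ε ≤ u ^ 2) (h2 : u ^ 2 ≤ 1 / 2 - 2 * ε)
    (hb1 : u ^ 2 ≤ b) (hb2 : b ≤ u ^ 2 + η) (hk0 : 0 ≤ k) (hk1 : k ≤ 1) (hD0 : 0 ≤ D)
    (hM0 : 0 ≤ M) (hi : D ≤ η + b * (u - k)) (hii : u ^ 2 - k ^ 2 + M ≤ 2 * D)
    (hiii : u ^ 2 - b * u - η ≤ k * (1 - b)) :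
    |k - u| ≤ 3 * η / ε ^ 2 ∧ M ≤ 3 * η / ε ^ 2 ∧ D ≤ 3 * η / ε ^ 2 := by
  have hu1 : 2 * ε ≤ u := by
    by_contra h
    push Not at h
    nlinarith
  have hu2 : u ≤ 3 / 4 := by
    by_contra h
    push Not at h
    nlinarith
  have hε2 : ε ^ 2 ≤ 1 := by nlinarith
  have hη1 : η ≤ η / ε ^ 2 := by
    rw [le_div_iff₀ (by positivity)]
    nlinarith
  have hb3 : b ≤ 1 := by linarith
  have hk2 : u ^ 2 * (1 - u) - 2 * η ≤ k * (1 - u ^ 2) := by nlinarith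
  have hX : 2 * ε ^ 2 - 2 * η ≤ (u + k - 2 * u ^ 2) * (1 - u ^ 2) := by
    have h3 : (1 / 4) * (2 * ε) * (4 * ε) ≤ (1 - u) * u * (1 - 2 * u ^ 2) := by
      apply mul_le_mul
      · apply mul_le_mul <;> linarith
      · linarith
      · positivity
      · apply mul_nonneg <;> linarith
    linarith
  have hX1 : 2 * ε ^ 2 - 2 * η ≤ u + k - 2 * u ^ 2 := by
    have h4 : 0 ≤ u + k - 2 * u ^ 2 := by
      by_contra h
      push Not at h
      have : (u + k - 2 * u ^ 2) * (1 - u ^ 2) < 0 := mul_neg_of_neg_of_pos h (by linarith)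
      linarith
    have h5 : (u + k - 2 * u ^ 2) * (1 - u ^ 2) ≤ (u + k - 2 * u ^ 2) * 1 :=
      mul_le_mul_of_nonneg_left (by linarith) h4
    linarith
  set G := (u + k) / 2 - b with hG
  have hG1 : ε ^ 2 / 2 ≤ G := by rw [hG]; linarith
  have hstar : M + 2 * ((u - k) * G) ≤ 2 * η := by
    rw [hG]; linarith
  have hεη : η / ε ≤ η / ε ^ 2 := by
    apply div_le_div_of_nonneg_left hη.le (by positivity)
    nlinarith
  have e3 : 3 * η / ε ^ 2 = 3 * (η / ε ^ 2) := by ring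
  rcases le_or_gt k u with hku | hku
  · have h6 : (u - k) * (ε ^ 2 / 2) ≤ (u - k) * G :=
      mul_le_mul_of_nonneg_left hG1 (by linarith)
    have h7 : (u - k) ≤ 2 * (η / ε ^ 2) := by
      have : (u - k) * ε ^ 2 ≤ 2 * η := by linarith
      have h8 : u - k ≤ 2 * η / ε ^ 2 := by
        rw [le_div_iff₀ (by positivity)]; exact this
      calc u - k ≤ 2 * η / ε ^ 2 := h8
        _ = _ := by ring
    refine ⟨?_, ?_, ?_⟩
    · rw [abs_of_nonpos (by linarith), e3]; linarith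
    · rw [e3]
      have : 0 ≤ (u - k) * G := mul_nonneg (by linarith) (by linarith)
      linarith
    · rw [e3]
      have : b * (u - k) ≤ 1 * (u - k) := mul_le_mul_of_nonneg_right hb3 (by linarith)
      linarith
  · have h6 : (k - u) * (2 * ε) ≤ η := by
      have : (k - u) * (2 * ε) ≤ (k - u) * b :=
        mul_le_mul_of_nonneg_left (by linarith) (by linarith)
      linarith
    have h7 : k - u ≤ η / ε / 2 := by
      rw [le_div_iff₀ (by norm_num), le_div_iff₀ hε]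
      linarith
    have hηε0 : 0 < η / ε := by positivity
    refine ⟨?_, ?_, ?_⟩
    · rw [abs_of_pos (by linarith), e3]; linarith
    · rw [e3]
      have hGle : G ≤ 1 := by rw [hG]; linarith
      have : (k - u) * G ≤ (k - u) * 1 := mul_le_mul_of_nonneg_left hGle (by linarith)
      linarith
    · rw [e3]
      have : b * (u - k) ≤ 0 := mul_nonpos_of_nonneg_of_nonpos (by linarith) (by linarith)
      linarith

lemma real_core {n p θ κ D M ε η : ℝ} (hn : 0 < n) (hε : 0 < ε) (hε1 : ε ≤ 1 / 4) (hη : 0 < η)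
    (hη2 : 4 * η ≤ ε ^ 2) (hηn : 1 ≤ η * n) (hp0 : 0 ≤ p) (h1 : 2 * ε * n ^ 2 ≤ p ^ 2)
    (h2 : p ^ 2 ≤ (1 / 2 - 2 * ε) * n ^ 2)
    (hb1 : p ^ 2 ≤ θ * n) (hb2 : θ * n ≤ p ^ 2 + n) (hk0 : 0 ≤ κ) (hk1 : κ ≤ n) (hD0 : 0 ≤ D)
    (hM0 : 0 ≤ M) (hi : D ≤ η * n ^ 2 + θ * (p - κ)) (hii : p ^ 2 - κ ^ 2 + M ≤ 2 * D)
    (hiii : p ^ 2 - θ * p - η * n ^ 2 ≤ κ * (n - θ)) :
    |κ - p| ≤ 3 * η / ε ^ 2 * n ∧ M ≤ 3 * η / ε ^ 2 * n ^ 2 ∧ D ≤ 3 * η / ε ^ 2 * n ^ 2 := by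
  have hn' : n ≠ 0 := hn.ne'
  have hn2 : 0 < n ^ 2 := by positivity
  have key := real_scaled (u := p / n) (b := θ / n) (k := κ / n) (D := D / n ^ 2) (M := M / n ^ 2)
    hε hε1 hη hη2 (by positivity)
    (by rw [div_pow, le_div_iff₀ hn2]; linarith)
    (by rw [div_pow, div_le_iff₀ hn2]; linarith)
    (by
      rw [div_pow, div_le_div_iff₀ hn2 hn]
      nlinarith)
    (by
      have : (p / n) ^ 2 + η = (p ^ 2 + η * n ^ 2) / n ^ 2 := by field_simp
      rw [this, div_le_div_iff₀ hn hn2]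
      nlinarith)
    (by positivity)
    (by rw [div_le_one hn]; exact hk1)
    (by positivity) (by positivity)
    (by
      have : η + θ / n * (p / n - κ / n) = (η * n ^ 2 + θ * (p - κ)) / n ^ 2 := by field_simp
      rw [this]
      exact div_le_div_of_nonneg_right hi hn2.le)
    (by
      have e1 : (p / n) ^ 2 - (κ / n) ^ 2 + M / n ^ 2 = (p ^ 2 - κ ^ 2 + M) / n ^ 2 := by
        field_simp
      have e2 : 2 * (D / n ^ 2) = (2 * D) / n ^ 2 := by ring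
      rw [e1, e2]
      exact div_le_div_of_nonneg_right hii hn2.le)
    (by
      have e1 : (p / n) ^ 2 - θ / n * (p / n) - η = (p ^ 2 - θ * p - η * n ^ 2) / n ^ 2 := by
        field_simp
      have e2 : κ / n * (1 - θ / n) = (κ * (n - θ)) / n ^ 2 := by
        field_simp
      rw [e1, e2]
      exact div_le_div_of_nonneg_right hiii hn2.le)
  obtain ⟨k1, k2, k3⟩ := key
  refine ⟨?_, ?_, ?_⟩
  · have : κ / n - p / n = (κ - p) / n := by ring
    rw [this, abs_div, abs_of_pos hn, div_le_iff₀ hn] at k1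
    exact k1
  · rwa [div_le_iff₀ hn2] at k2
  · rwa [div_le_iff₀ hn2] at k3

end Pool.Agent.Helper53.LE
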