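import Pool.Agent.Helper53.LE.Dich

/-!
Connected graphs close to a clique: edges outside the clique and a Poincare inequality.
-/

namespace Pool.Agent.Helper53.LE

open Matrix Finset

variable {V : Type*} [Fintype V] [DecidableEq V]

/-- every vertex can be taken as the root of a spanning tree -/
def Rooted (A : Matrix V V ℝ) : Prop :=
  ∀ z : V, ∃ par : V → V, ∃ d : V → ℕ, ∀ u, u ≠ z → A u (par u) = 1 ∧ d (par u) < d u

lemma rooted_edges {A : Matrix V V ℝ} (hA : IsGr A) (hR : Rooted A) (U : Finset V) {z : V}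
    (hz : z ∉ U) :
    (U.card : ℝ) ≤ ∑ i ∈ U, ∑ j ∈ Uᶜ, A i j + (1 / 2) * ∑ i ∈ U, ∑ j ∈ U, A i j := by
  obtain ⟨par, d, hpd⟩ := hR z
  have hne : ∀ i ∈ U, i ≠ z := fun i hi h => hz (h ▸ hi)
  set e : V → V → ℝ := fun i j => if j = par i then 1 else 0 with he
  have h1 : ∑ i ∈ U, ∑ j ∈ Uᶜ, e i j ≤ ∑ i ∈ U, ∑ j ∈ Uᶜ, A i j := by
    refine Finset.sum_le_sum fun i hi => Finset.sum_le_sum fun j _ => ?_
    simp only [he]
    split_ifs with h
    · rw [h, (hpd i (hne i hi)).1]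
    · exact hA.nonneg _ _
  have h2 : ∑ i ∈ U, ∑ j ∈ U, (e i j + e j i) ≤ ∑ i ∈ U, ∑ j ∈ U, A i j := by
    refine Finset.sum_le_sum fun i hi => Finset.sum_le_sum fun j hj => ?_
    simp only [he]
    have hi' := hpd i (hne i hi)
    have hj' := hpd j (hne j hj)
    split_ifs with h h' h'
    · exfalso
      have a1 := hi'.2
      have a2 := hj'.2
      rw [← h] at a1
      rw [← h'] at a2
      omega
    · rw [add_zero, h, hi'.1]
    · rw [zero_add, hA.symm, h', hj'.1]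
    · rw [add_zero]; exact hA.nonneg _ _
  have h3 : ∑ i ∈ U, ∑ j ∈ U, e j i = ∑ i ∈ U, ∑ j ∈ U, e i j := Finset.sum_comm
  have h4 : ∑ i ∈ U, ∑ j ∈ U, (e i j + e j i) = 2 * ∑ i ∈ U, ∑ j ∈ U, e i j := by
    simp only [Finset.sum_add_distrib]
    rw [h3]; ring
  have h5 : ∑ i ∈ U, ∑ j ∈ U, e i j + ∑ i ∈ U, ∑ j ∈ Uᶜ, e i j = U.card := by
    rw [← Finset.sum_add_distrib]
    have : ∀ i ∈ U, ∑ j ∈ U, e i j + ∑ j ∈ Uᶜ, e i j = 1 := by
      intro i _
      rw [Finset.sum_add_sum_compl]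
      simp [he]
    rw [Finset.sum_congr rfl this, Finset.sum_const, nsmul_eq_mul, mul_one]
  rw [h4] at h2
  linarith

/-- a Poincare inequality for a graph close to a clique -/
lemma poincare {A : Matrix V V ℝ} (hA : IsGr A) (S S1 : Finset V) (hS1 : S1 ⊆ S)
    (hne : S1.Nonempty) {b D w lam : ℝ}
    (hb : ∀ i ∈ S1, ∑ j ∈ S1, (if i = j then 0 else 1 - A i j) ≤ b)
    (hD : ∀ x ∈ S \ S1, D ≤ ∑ y ∈ S1, A x y)
    (hw : ((S \ S1).card : ℝ) ≤ w) (hl0 : 0 ≤ lam) (hl1 : lam ≤ S1.card - 2 * b - w)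
    (hl2 : lam ≤ D / 2) (f : V → ℝ) :
    lam * (∑ i ∈ S, f i ^ 2 - (∑ i ∈ S, f i) ^ 2 / S.card) ≤
      (1 / 2) * ∑ i ∈ S, ∑ j ∈ S, A i j * (f i - f j) ^ 2 := by
  classical
  have hc1 : (0 : ℝ) < S1.card := by exact_mod_cast Finset.card_pos.mpr hne
  have hcS : (0 : ℝ) < S.card := by exact_mod_cast Finset.card_pos.mpr (hne.mono hS1)
  set m : ℝ := (∑ i ∈ S1, f i) / S1.card with hm
  set g : V → ℝ := fun i => f i - m with hg
  have hg0 : ∑ i ∈ S1, g i = 0 := by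
    simp only [hg, Finset.sum_sub_distrib, Finset.sum_const, nsmul_eq_mul]
    rw [hm]; field_simp; ring
  have hfg : ∀ i j, f i - f j = g i - g j := by intro i j; simp only [hg]; ring
  -- energy inside the core
  have hcore : (S1.card - 2 * b) * ∑ i ∈ S1, g i ^ 2 ≤
      (1 / 2) * ∑ i ∈ S1, ∑ j ∈ S1, A i j * (f i - f j) ^ 2 := by
    have e1 : ∀ i j, A i j * (f i - f j) ^ 2 =
        (g i - g j) ^ 2 - (if i = j then 0 else 1 - A i j) * (g i - g j) ^ 2 := by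
      intro i j
      rw [hfg]
      split_ifs with h
      · subst h; simp
      · ring
    have e2 : ∑ i ∈ S1, ∑ j ∈ S1, (g i - g j) ^ 2 = 2 * S1.card * ∑ i ∈ S1, g i ^ 2 := by
      have : ∀ i ∈ S1, ∑ j ∈ S1, (g i - g j) ^ 2 =
          S1.card * g i ^ 2 + ∑ j ∈ S1, g j ^ 2 - 2 * g i * ∑ j ∈ S1, g j := by
        intro i _
        have : ∀ j ∈ S1, (g i - g j) ^ 2 = g i ^ 2 + g j ^ 2 - 2 * g i * g j := by
          intro j _; ring
        rw [Finset.sum_congr rfl this, Finset.sum_sub_distrib, Finset.sum_add_distrib,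
          Finset.sum_const, nsmul_eq_mul, Finset.mul_sum]
      rw [Finset.sum_congr rfl this, hg0]
      simp only [mul_zero, sub_zero, Finset.sum_add_distrib, Finset.sum_const, nsmul_eq_mul,
        ← Finset.mul_sum]
      ring
    have e3 : ∑ i ∈ S1, ∑ j ∈ S1, (if i = j then 0 else 1 - A i j) * (g i - g j) ^ 2 ≤
        4 * b * ∑ i ∈ S1, g i ^ 2 := by
      have h1 : ∀ i ∈ S1, ∀ j ∈ S1, (if i = j then 0 else 1 - A i j) * (g i - g j) ^ 2 ≤
          2 * ((if i = j then 0 else 1 - A i j) * g i ^ 2) +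
            2 * ((if j = i then 0 else 1 - A j i) * g j ^ 2) := by
        intro i _ j _
        have h0 : 0 ≤ (if i = j then 0 else 1 - A i j) := by
          split_ifs
          · exact le_refl _
          · linarith [hA.le_one i j]
        have hs : (if j = i then 0 else 1 - A j i) = (if i = j then 0 else 1 - A i j) := by
          by_cases h : i = j
          · rw [if_pos h, if_pos h.symm]
          · rw [if_neg h, if_neg (Ne.symm h), hA.symm]
        rw [hs]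
        have : (g i - g j) ^ 2 ≤ 2 * g i ^ 2 + 2 * g j ^ 2 := by linarith [sq_nonneg (g i + g j)]
        nlinarith
      calc ∑ i ∈ S1, ∑ j ∈ S1, (if i = j then 0 else 1 - A i j) * (g i - g j) ^ 2
          ≤ ∑ i ∈ S1, ∑ j ∈ S1, (2 * ((if i = j then 0 else 1 - A i j) * g i ^ 2) +
            2 * ((if j = i then 0 else 1 - A j i) * g j ^ 2)) :=
            Finset.sum_le_sum fun i hi => Finset.sum_le_sum fun j hj => h1 i hi j hj
        _ = 4 * ∑ i ∈ S1, (∑ j ∈ S1, (if i = j then 0 else 1 - A i j)) * g i ^ 2 := by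
            simp only [Finset.sum_add_distrib]
            have : ∑ i ∈ S1, ∑ j ∈ S1, 2 * ((if j = i then 0 else 1 - A j i) * g j ^ 2) =
                ∑ i ∈ S1, ∑ j ∈ S1, 2 * ((if i = j then 0 else 1 - A i j) * g i ^ 2) :=
              Finset.sum_comm
            rw [this, ← two_mul, Finset.mul_sum, Finset.mul_sum]
            refine Finset.sum_congr rfl fun i _ => ?_
            rw [Finset.sum_mul, Finset.mul_sum, Finset.mul_sum]
            refine Finset.sum_congr rfl fun j _ => by ring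
        _ ≤ 4 * ∑ i ∈ S1, b * g i ^ 2 := by
            have : ∑ i ∈ S1, (∑ j ∈ S1, (if i = j then 0 else 1 - A i j)) * g i ^ 2 ≤
                ∑ i ∈ S1, b * g i ^ 2 :=
              Finset.sum_le_sum fun i hi => mul_le_mul_of_nonneg_right (hb i hi) (sq_nonneg _)
            linarith
        _ = _ := by rw [← Finset.mul_sum]; ring
    simp only [e1, Finset.sum_sub_distrib]
    rw [e2]
    linarith
  -- energy between the outer part and the core
  have hout : (D / 2) * ∑ x ∈ S \ S1, g x ^ 2 - w * ∑ i ∈ S1, g i ^ 2 ≤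
      ∑ x ∈ S \ S1, ∑ y ∈ S1, A x y * (f x - f y) ^ 2 := by
    have h1 : ∀ x ∈ S \ S1, (D / 2) * g x ^ 2 - ∑ i ∈ S1, g i ^ 2 ≤
        ∑ y ∈ S1, A x y * (f x - f y) ^ 2 := by
      intro x hx
      have h2 : ∀ y ∈ S1, A x y * (g x ^ 2 / 2) - g y ^ 2 ≤ A x y * (f x - f y) ^ 2 := by
        intro y _
        rw [hfg]
        have h3 : g x ^ 2 / 2 - g y ^ 2 ≤ (g x - g y) ^ 2 := by
          linarith [sq_nonneg (g x - 2 * g y)]
        have h4 := hA.nonneg x y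
        have h5 := hA.le_one x y
        nlinarith [sq_nonneg (g y)]
      have h6 := Finset.sum_le_sum h2
      rw [Finset.sum_sub_distrib, ← Finset.sum_mul] at h6
      have h7 := hD x hx
      have h8 : D * (g x ^ 2 / 2) ≤ (∑ y ∈ S1, A x y) * (g x ^ 2 / 2) :=
        mul_le_mul_of_nonneg_right h7 (by positivity)
      linarith
    have h9 := Finset.sum_le_sum h1
    rw [Finset.sum_sub_distrib, ← Finset.mul_sum, Finset.sum_const, nsmul_eq_mul] at h9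
    have h10 : 0 ≤ ∑ i ∈ S1, g i ^ 2 := Finset.sum_nonneg fun _ _ => sq_nonneg _
    have h11 : ((S \ S1).card : ℝ) * ∑ i ∈ S1, g i ^ 2 ≤ w * ∑ i ∈ S1, g i ^ 2 :=
      mul_le_mul_of_nonneg_right hw h10
    linarith
  -- decomposition of the energy
  have hdec : (1 / 2) * ∑ i ∈ S1, ∑ j ∈ S1, A i j * (f i - f j) ^ 2 +
      ∑ x ∈ S \ S1, ∑ y ∈ S1, A x y * (f x - f y) ^ 2 ≤
      (1 / 2) * ∑ i ∈ S, ∑ j ∈ S, A i j * (f i - f j) ^ 2 := by
    have e1 : ∀ F : V → ℝ, ∑ i ∈ S, F i = ∑ i ∈ S \ S1, F i + ∑ i ∈ S1, F i := fun F =>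
      (Finset.sum_sdiff hS1).symm
    have e2 : ∑ i ∈ S, ∑ j ∈ S, A i j * (f i - f j) ^ 2 =
        ∑ i ∈ S \ S1, ∑ j ∈ S \ S1, A i j * (f i - f j) ^ 2 +
        ∑ i ∈ S \ S1, ∑ j ∈ S1, A i j * (f i - f j) ^ 2 +
        (∑ i ∈ S1, ∑ j ∈ S \ S1, A i j * (f i - f j) ^ 2 +
        ∑ i ∈ S1, ∑ j ∈ S1, A i j * (f i - f j) ^ 2) := by
      rw [e1, ← Finset.sum_add_distrib, ← Finset.sum_add_distrib]
      congr 1
      · exact Finset.sum_congr rfl fun i _ => e1 _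
      · exact Finset.sum_congr rfl fun i _ => e1 _
    have e3 : ∑ i ∈ S1, ∑ j ∈ S \ S1, A i j * (f i - f j) ^ 2 =
        ∑ i ∈ S \ S1, ∑ j ∈ S1, A i j * (f i - f j) ^ 2 := by
      rw [Finset.sum_comm]
      refine Finset.sum_congr rfl fun i _ => Finset.sum_congr rfl fun j _ => ?_
      rw [hA.symm]; ring
    have e4 : 0 ≤ ∑ i ∈ S \ S1, ∑ j ∈ S \ S1, A i j * (f i - f j) ^ 2 :=
      Finset.sum_nonneg fun _ _ => Finset.sum_nonneg fun _ _ =>
        mul_nonneg (hA.nonneg _ _) (sq_nonneg _)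
    rw [e2, e3]; linarith
  -- variance
  have hvar : ∑ i ∈ S, f i ^ 2 - (∑ i ∈ S, f i) ^ 2 / S.card ≤ ∑ i ∈ S, g i ^ 2 := by
    have e1 : ∑ i ∈ S, g i ^ 2 = ∑ i ∈ S, f i ^ 2 - 2 * m * ∑ i ∈ S, f i + S.card * m ^ 2 := by
      have : ∀ i ∈ S, g i ^ 2 = f i ^ 2 - 2 * m * f i + m ^ 2 := by
        intro i _; simp only [hg]; ring
      rw [Finset.sum_congr rfl this, Finset.sum_add_distrib, Finset.sum_sub_distrib,
        Finset.sum_const, nsmul_eq_mul, ← Finset.mul_sum]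
    rw [e1]
    have : 0 ≤ (∑ i ∈ S, f i - S.card * m) ^ 2 / S.card := by positivity
    have e2 : (∑ i ∈ S, f i - S.card * m) ^ 2 / S.card =
        (∑ i ∈ S, f i) ^ 2 / S.card - 2 * m * ∑ i ∈ S, f i + S.card * m ^ 2 := by
      field_simp; ring
    linarith
  have hgs : ∑ i ∈ S, g i ^ 2 = ∑ i ∈ S \ S1, g i ^ 2 + ∑ i ∈ S1, g i ^ 2 :=
    (Finset.sum_sdiff hS1).symm
  have n1 : 0 ≤ ∑ i ∈ S1, g i ^ 2 := Finset.sum_nonneg fun _ _ => sq_nonneg _
  have n2 : 0 ≤ ∑ i ∈ S \ S1, g i ^ 2 := Finset.sum_nonneg fun _ _ => sq_nonneg _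
  calc lam * (∑ i ∈ S, f i ^ 2 - (∑ i ∈ S, f i) ^ 2 / S.card)
      ≤ lam * ∑ i ∈ S, g i ^ 2 := mul_le_mul_of_nonneg_left hvar hl0
    _ = lam * ∑ i ∈ S \ S1, g i ^ 2 + lam * ∑ i ∈ S1, g i ^ 2 := by rw [hgs]; ring
    _ ≤ (D / 2) * ∑ i ∈ S \ S1, g i ^ 2 + (S1.card - 2 * b - w) * ∑ i ∈ S1, g i ^ 2 := by
        have a1 := mul_le_mul_of_nonneg_right hl2 n2
        have a2 := mul_le_mul_of_nonneg_right hl1 n1
        linarith
    _ ≤ _ := by linarith

/-- sums of entries of a projection -/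
lemma IsProj.sum_le_card {Q : Matrix V V ℝ} (hQ : IsProj Q) (S : Finset V) :
    ∑ i ∈ S, ∑ j ∈ S, Q i j ≤ S.card ∧
      ∑ l, (∑ i ∈ S, Q i l) ^ 2 = ∑ i ∈ S, ∑ j ∈ S, Q i j := by
  have gen : ∀ R : Matrix V V ℝ, IsProj R →
      ∑ l, (∑ i ∈ S, R i l) ^ 2 = ∑ i ∈ S, ∑ j ∈ S, R i j := by
    intro R hR
    have h1 : ∀ i j, R i j = ∑ l, R i l * R j l := by
      intro i j
      have := congrFun (congrFun hR.idem i) j
      rw [Matrix.mul_apply] at this
      rw [← this]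
      exact Finset.sum_congr rfl fun l _ => by rw [hR.apply_symm l j]
    calc ∑ l, (∑ i ∈ S, R i l) ^ 2 = ∑ l, ∑ i ∈ S, ∑ j ∈ S, R i l * R j l := by
          refine Finset.sum_congr rfl fun l _ => ?_
          rw [sq, Finset.sum_mul_sum]
      _ = ∑ i ∈ S, ∑ j ∈ S, ∑ l, R i l * R j l := by
          rw [Finset.sum_comm]
          refine Finset.sum_congr rfl fun i _ => ?_
          rw [Finset.sum_comm]
      _ = _ := Finset.sum_congr rfl fun i _ => Finset.sum_congr rfl fun j _ => (h1 i j).symm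
  refine ⟨?_, gen Q hQ⟩
  have h2 := gen (1 - Q) hQ.compl
  have h3 : 0 ≤ ∑ i ∈ S, ∑ j ∈ S, (1 - Q) i j := by
    rw [← h2]; exact Finset.sum_nonneg fun _ _ => sq_nonneg _
  have h4 : ∑ i ∈ S, ∑ j ∈ S, (1 - Q) i j = S.card - ∑ i ∈ S, ∑ j ∈ S, Q i j := by
    simp only [Matrix.sub_apply, Finset.sum_sub_distrib]
    congr 1
    have : ∀ i ∈ S, ∑ j ∈ S, (1 : Matrix V V ℝ) i j = 1 := by
      intro i hi
      rw [Finset.sum_eq_single i]
      · simp
      · intro j _ hj; rw [one_apply_ne (Ne.symm hj)]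
      · intro h; exact absurd hi h
    rw [Finset.sum_congr rfl this, Finset.sum_const, nsmul_eq_mul, mul_one]
  linarith

/-- the weight of a pair as a sum of squares -/
lemma wt_eq_sum {Q : Matrix V V ℝ} (hQ : IsProj Q) (i j : V) :
    wt Q i j = ∑ l, (Q i l - Q j l) ^ 2 := by
  have h1 : ∀ l, (Q i l - Q j l) ^ 2 = Q i l ^ 2 + Q j l ^ 2 - 2 * (Q i l * Q j l) := by
    intro l; ring
  simp only [h1, Finset.sum_sub_distrib, Finset.sum_add_distrib, hQ.sum_sq, ← Finset.mul_sum]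
  have h2 : ∑ l, Q i l * Q j l = Q i j := by
    have := congrFun (congrFun hQ.idem i) j
    rw [Matrix.mul_apply] at this
    rw [← this]
    exact Finset.sum_congr rfl fun l _ => by rw [hQ.apply_symm l j]
  rw [h2]; rfl

/-- the Poincare inequality for projections -/
lemma poincare_proj {A Q : Matrix V V ℝ} (hA : IsGr A) (hQ : IsProj Q) (S S1 : Finset V)
    (hS1 : S1 ⊆ S) (hne : S1.Nonempty) {b D w lam : ℝ}
    (hb : ∀ i ∈ S1, ∑ j ∈ S1, (if i = j then 0 else 1 - A i j) ≤ b)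
    (hD : ∀ x ∈ S \ S1, D ≤ ∑ y ∈ S1, A x y)
    (hw : ((S \ S1).card : ℝ) ≤ w) (hl0 : 0 ≤ lam) (hl1 : lam ≤ S1.card - 2 * b - w)
    (hl2 : lam ≤ D / 2) :
    lam * (∑ i ∈ S, Q i i - 1) ≤ (1 / 2) * ∑ i ∈ S, ∑ j ∈ S, A i j * wt Q i j := by
  have hcS : (0 : ℝ) < S.card := by exact_mod_cast Finset.card_pos.mpr (hne.mono hS1)
  have h1 : ∀ l, lam * (∑ i ∈ S, Q i l ^ 2 - (∑ i ∈ S, Q i l) ^ 2 / S.card) ≤
      (1 / 2) * ∑ i ∈ S, ∑ j ∈ S, A i j * (Q i l - Q j l) ^ 2 := fun l =>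
    poincare hA S S1 hS1 hne hb hD hw hl0 hl1 hl2 (fun i => Q i l)
  have h2 := Finset.sum_le_sum (s := univ) fun l _ => h1 l
  rw [← Finset.mul_sum, Finset.sum_sub_distrib, ← Finset.sum_div, ← Finset.mul_sum] at h2
  have e1 : ∑ l, ∑ i ∈ S, Q i l ^ 2 = ∑ i ∈ S, Q i i := by
    rw [Finset.sum_comm]
    exact Finset.sum_congr rfl fun i _ => hQ.sum_sq i
  have e2 : ∑ l, ∑ i ∈ S, ∑ j ∈ S, A i j * (Q i l - Q j l) ^ 2 =
      ∑ i ∈ S, ∑ j ∈ S, A i j * wt Q i j := by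
    rw [Finset.sum_comm]
    refine Finset.sum_congr rfl fun i _ => ?_
    rw [Finset.sum_comm]
    refine Finset.sum_congr rfl fun j _ => ?_
    rw [wt_eq_sum hQ, Finset.mul_sum]
  obtain ⟨s1, s2⟩ := hQ.sum_le_card S
  rw [e1, e2, s2] at h2
  have e3 : (∑ i ∈ S, ∑ j ∈ S, Q i j) / S.card ≤ 1 := by
    rw [div_le_one hcS]; exact s1
  have e4 : lam * (∑ i ∈ S, Q i i - 1) ≤
      lam * (∑ i ∈ S, Q i i - (∑ i ∈ S, ∑ j ∈ S, Q i j) / S.card) :=
    mul_le_mul_of_nonneg_left (by linarith) hl0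
  linarith

end Pool.Agent.Helper53.LE
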