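import Pool.Agent.Helper53.LE.Sparse1

/-!
Upper bound for the sum of the large Laplacian eigenvalues through the number of vertices
outside the clique.
-/

namespace Pool.Agent.Helper53.LE

open Matrix Finset

variable {V : Type*} [Fintype V] [DecidableEq V]

/-- vertices of small degree -/
noncomputable def loS (A : Matrix V V ℝ) (θ a : ℝ) : Finset V :=
  univ.filter (fun i => dg A i + a ≤ θ)

lemma mem_loS {A : Matrix V V ℝ} {θ a : ℝ} {i : V} : i ∈ loS A θ a ↔ dg A i + a ≤ θ := by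
  simp [loS]

/-- common hypotheses -/
structure Hyp (A P : Matrix V V ℝ) (θ n p δ η1 η2 : ℝ) : Prop where
  hA : IsGr A
  hS : IsSpec (lap A) P θ
  hB : Base A θ n p δ η1 η2
  hnV : n = Fintype.card V
  hn : 0 < n
  hδ0 : 0 < δ
  hδ1 : δ ≤ 1 / 80
  hη10 : 0 < η1
  hη20 : 0 < η2
  hη3 : 24 * (η1 + η2) ≤ δ ^ 4
  c3 : 400 ≤ δ ^ 2 * n
  c4 : 16 ≤ δ ^ 3 * n
  hp0 : 0 ≤ p
  hpn : p ≤ n
  hp : p ^ 2 = ∑ i, ∑ j, A i j

variable {A P : Matrix V V ℝ} {θ n p δ η1 η2 : ℝ}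

lemma Hyp.small (h : Hyp A P θ n p δ η1 η2) : δ ^ 4 ≤ δ ^ 3 ∧ δ ^ 3 ≤ δ ^ 2 ∧ δ ^ 2 ≤ δ ∧
    δ ^ 3 ≤ δ / 1000 ∧ η1 + η2 ≤ δ ^ 3 / 24 := by
  have h0 := h.hδ0
  have h1 := h.hδ1
  have e1 : δ ^ 2 ≤ δ / 80 := by nlinarith
  have e2 : δ ^ 3 ≤ δ ^ 2 / 80 := by nlinarith [pow_pos h0 2]
  have e3 : δ ^ 4 ≤ δ ^ 3 / 80 := by nlinarith [pow_pos h0 3]
  have p2 := pow_pos h0 2
  have p3 := pow_pos h0 3
  have := h.hη3
  refine ⟨by linarith, by linarith, by linarith, by linarith, by linarith⟩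

lemma Hyp.pu (h : Hyp A P θ n p δ η1 η2) {u : V} (hu : u ∈ loS A θ (δ * n)) :
    P u u ≤ dg A u / (δ * n) ^ 2 ∧ P u u ≤ 1 / (δ ^ 2 * n) ∧ 0 ≤ P u u := by
  have hδn : 0 < δ * n := mul_pos h.hδ0 h.hn
  have h1 := spec_lo h.hA h.hS u hδn (mem_loS.mp hu)
  have h2 : P u u ≤ dg A u / (δ * n) ^ 2 := by
    rw [le_div_iff₀ (by positivity)]; linarith
  refine ⟨h2, h2.trans ?_, h.hS.proj.diag_nonneg u⟩
  have h3 := dg_le h.hA u
  rw [← h.hnV] at h3
  have hn := h.hn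
  have hδ0 := h.hδ0
  calc dg A u / (δ * n) ^ 2 ≤ n / (δ * n) ^ 2 :=
        div_le_div_of_nonneg_right h3 (by positivity)
    _ = _ := by field_simp

lemma Hyp.loS_sub (h : Hyp A P θ n p δ η1 η2) : loS A θ (δ * n) ⊆ (big A θ)ᶜ := by
  intro i hi
  have hδn : 0 < δ * n := mul_pos h.hδ0 h.hn
  rw [Finset.mem_compl, mem_big]
  have := mem_loS.mp hi
  intro h2; linarith

lemma Hyp.DU (h : Hyp A P θ n p δ η1 η2) : ∑ i ∈ loS A θ (δ * n), dg A i ≤ η1 * n ^ 2 :=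
  (Finset.sum_le_sum_of_subset_of_nonneg h.loS_sub fun i _ _ => dg_nonneg h.hA i).trans h.hB.low

/-- cross edges -/
lemma Hyp.cross (h : Hyp A P θ n p δ η1 η2) :
    ∑ i ∈ (loS A θ (δ * n))ᶜ, ∑ j ∈ loS A θ (δ * n), A i j * wt P i j ≤
      ∑ i ∈ (loS A θ (δ * n))ᶜ, ∑ j ∈ loS A θ (δ * n), A i j
      - ∑ i ∈ (loS A θ (δ * n))ᶜ, (∑ j ∈ loS A θ (δ * n), A i j) * (1 - P i i)
      + (1 / δ ^ 2 + 2 / δ) / n * ∑ j ∈ loS A θ (δ * n), dg A j := by
  have hδn : 0 < δ * n := mul_pos h.hδ0 h.hn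
  have hδ0 := h.hδ0
  have hn := h.hn
  have hA := h.hA
  have hP := h.hS.proj
  set U := loS A θ (δ * n) with hU
  have e1 : ∑ i ∈ Uᶜ, ∑ j ∈ U, A i j * wt P i j =
      ∑ i ∈ Uᶜ, (∑ j ∈ U, A i j) * P i i + ∑ j ∈ U, (∑ i ∈ Uᶜ, A i j) * P j j
        - 2 * ∑ j ∈ U, ∑ i ∈ Uᶜ, A i j * P i j := by
    have a1 : ∑ j ∈ U, (∑ i ∈ Uᶜ, A i j) * P j j = ∑ i ∈ Uᶜ, ∑ j ∈ U, A i j * P j j := by
      rw [Finset.sum_comm]
      exact Finset.sum_congr rfl fun j _ => by rw [Finset.sum_mul]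
    have a2 : ∑ j ∈ U, ∑ i ∈ Uᶜ, A i j * P i j = ∑ i ∈ Uᶜ, ∑ j ∈ U, A i j * P i j :=
      Finset.sum_comm
    rw [a1, a2, Finset.mul_sum, ← Finset.sum_add_distrib, ← Finset.sum_sub_distrib]
    refine Finset.sum_congr rfl fun i _ => ?_
    rw [Finset.sum_mul, Finset.mul_sum, ← Finset.sum_add_distrib, ← Finset.sum_sub_distrib]
    refine Finset.sum_congr rfl fun j _ => ?_
    unfold wt; ring
  have e2 : ∑ i ∈ Uᶜ, (∑ j ∈ U, A i j) * P i i =
      ∑ i ∈ Uᶜ, ∑ j ∈ U, A i j - ∑ i ∈ Uᶜ, (∑ j ∈ U, A i j) * (1 - P i i) := by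
    rw [← Finset.sum_sub_distrib]
    exact Finset.sum_congr rfl fun i _ => by ring
  have e3 : ∀ j ∈ U, (∑ i ∈ Uᶜ, A i j) * P j j - 2 * ∑ i ∈ Uᶜ, A i j * P i j ≤
      (1 / δ ^ 2 + 2 / δ) / n * dg A j := by
    intro j hj
    obtain ⟨b1, b2, b3⟩ := h.pu hj
    have hd0 := dg_nonneg hA j
    have hdj : ∑ i ∈ Uᶜ, A i j ≤ dg A j := by
      calc ∑ i ∈ Uᶜ, A i j = ∑ i ∈ Uᶜ, A j i := Finset.sum_congr rfl fun i _ => hA.symm i j
        _ ≤ dg A j := Finset.sum_le_univ_sum_of_nonneg fun i => hA.nonneg _ _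
    have t1 : (∑ i ∈ Uᶜ, A i j) * P j j ≤ dg A j * (1 / (δ ^ 2 * n)) :=
      mul_le_mul hdj b2 b3 hd0
    have t2 : (∑ i ∈ Uᶜ, A i j * P i j) ^ 2 ≤ (dg A j / (δ * n)) ^ 2 := by
      have c1 := Finset.sum_mul_sq_le_sq_mul_sq Uᶜ (fun i => A i j) (fun i => P i j)
      have c2 : ∑ i ∈ Uᶜ, A i j ^ 2 ≤ dg A j := by
        calc ∑ i ∈ Uᶜ, A i j ^ 2 = ∑ i ∈ Uᶜ, A i j :=
              Finset.sum_congr rfl fun i _ => hA.sq i j
          _ ≤ dg A j := hdj
      have c3 : ∑ i ∈ Uᶜ, P i j ^ 2 ≤ P j j := by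
        calc ∑ i ∈ Uᶜ, P i j ^ 2 ≤ ∑ i, P i j ^ 2 :=
              Finset.sum_le_univ_sum_of_nonneg fun i => sq_nonneg _
          _ = ∑ i, P j i ^ 2 := Finset.sum_congr rfl fun i _ => by rw [hP.apply_symm i j]
          _ = P j j := hP.sum_sq j
      calc (∑ i ∈ Uᶜ, A i j * P i j) ^ 2 ≤ (∑ i ∈ Uᶜ, A i j ^ 2) * ∑ i ∈ Uᶜ, P i j ^ 2 := c1
        _ ≤ dg A j * (dg A j / (δ * n) ^ 2) :=
            mul_le_mul c2 (c3.trans b1) (Finset.sum_nonneg fun _ _ => sq_nonneg _) hd0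
        _ = _ := by rw [div_pow]; ring
    have t3 := abs_le_of_sq_le_sq' t2 (by positivity)
    have t4 : dg A j * (1 / (δ ^ 2 * n)) + 2 * (dg A j / (δ * n)) =
        (1 / δ ^ 2 + 2 / δ) / n * dg A j := by field_simp
    rw [← t4]
    linarith [t3.1]
  have e4 := Finset.sum_le_sum e3
  rw [Finset.sum_sub_distrib, ← Finset.mul_sum, ← Finset.mul_sum] at e4
  rw [e1, e2]
  linarith

/-- edges inside the set of vertices of small degree -/
lemma Hyp.inU (h : Hyp A P θ n p δ η1 η2) :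
    ∑ i ∈ loS A θ (δ * n), ∑ j ∈ loS A θ (δ * n), A i j * wt P i j ≤
      4 / δ ^ 2 / n * ∑ j ∈ loS A θ (δ * n), dg A j := by
  have hδ0 := h.hδ0
  have hn := h.hn
  have hA := h.hA
  have hP := h.hS.proj
  set U := loS A θ (δ * n) with hU
  have e1 : ∑ i ∈ U, ∑ j ∈ U, A i j * wt P i j ≤ ∑ i ∈ U, ∑ j ∈ U, A i j * (4 / (δ ^ 2 * n)) := by
    refine Finset.sum_le_sum fun i hi => Finset.sum_le_sum fun j hj => ?_
    apply mul_le_mul_of_nonneg_left _ (hA.nonneg _ _)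
    have h1 := wt_le hP i j
    have h2 := (h.pu hi).2.1
    have h3 := (h.pu hj).2.1
    have : 4 / (δ ^ 2 * n) = 4 * (1 / (δ ^ 2 * n)) := by ring
    rw [this]; linarith
  have e2 : ∑ i ∈ U, ∑ j ∈ U, A i j * (4 / (δ ^ 2 * n)) ≤
      ∑ i ∈ U, dg A i * (4 / (δ ^ 2 * n)) := by
    refine Finset.sum_le_sum fun i hi => ?_
    rw [← Finset.sum_mul]
    apply mul_le_mul_of_nonneg_right _ (by positivity)
    exact Finset.sum_le_univ_sum_of_nonneg fun j => hA.nonneg _ _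
  rw [← Finset.sum_mul] at e2
  have e3 : (∑ i ∈ U, dg A i) * (4 / (δ ^ 2 * n)) = 4 / δ ^ 2 / n * ∑ j ∈ U, dg A j := by
    field_simp
  linarith

/-- number of missing pairs in the complement of the set of vertices of small degree -/
lemma Hyp.missing (h : Hyp A P θ n p δ η1 η2) :
    ∑ i ∈ (loS A θ (δ * n))ᶜ, ∑ j ∈ (loS A θ (δ * n))ᶜ, (if i = j then 0 else 1 - A i j) ≤
      5 * (η1 + η2) * n ^ 2 ∧
    θ + 4 * (δ * n) ≤ ((loS A θ (δ * n))ᶜ.card : ℝ) := by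
  classical
  have hδn : 0 < δ * n := mul_pos h.hδ0 h.hn
  have hn := h.hn
  have hA := h.hA
  have hDU := h.DU
  obtain ⟨s1, s2, s3, s4, s5⟩ := h.small
  set U := loS A θ (δ * n) with hU
  have hsub1 : big A θ ⊆ Uᶜ := by
    intro i hi
    rw [Finset.mem_compl]
    intro h2
    have := h.loS_sub h2
    rw [Finset.mem_compl] at this
    exact this hi
  have hsub2 : Uᶜ ⊆ big A θ ∪ exc A θ (δ * n) := by
    intro i hi
    rw [Finset.mem_compl, hU, mem_loS] at hi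
    push Not at hi
    rw [Finset.mem_union, mem_big, mem_exc]
    rcases lt_or_ge θ (dg A i) with h2 | h2
    · left; exact h2
    · right; constructor <;> linarith
  have hcl : ((big A θ).card : ℝ) ≤ (Uᶜ.card : ℝ) := by exact_mod_cast Finset.card_le_card hsub1
  have hcu : (Uᶜ.card : ℝ) ≤ (big A θ).card + (exc A θ (δ * n)).card := by
    exact_mod_cast (Finset.card_le_card hsub2).trans (Finset.card_union_le _ _)
  refine ⟨?_, hcl.trans' h.hB.gap⟩
  set t : ℝ := (Uᶜ.card : ℝ) with ht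
  have ht0 : 0 ≤ t := by positivity
  have e1 : ∑ i ∈ Uᶜ, ∑ j ∈ Uᶜ, (if i = j then 0 else 1 - A i j) =
      t * t - t - ∑ i ∈ Uᶜ, ∑ j ∈ Uᶜ, A i j := by
    have : ∀ i ∈ Uᶜ, ∑ j ∈ Uᶜ, (if i = j then 0 else 1 - A i j) = t - 1 - ∑ j ∈ Uᶜ, A i j := by
      intro i hi
      have h2 : ∀ j ∈ Uᶜ, (if i = j then 0 else 1 - A i j) =
          1 - (if i = j then 1 else 0) - A i j := by
        intro j _
        split_ifs with h3
        · subst h3; rw [hA.diag]; ring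
        · ring
      rw [Finset.sum_congr rfl h2, Finset.sum_sub_distrib, Finset.sum_sub_distrib,
        Finset.sum_const, nsmul_eq_mul, mul_one, Finset.sum_ite_eq, if_pos hi]
    rw [Finset.sum_congr rfl this, Finset.sum_sub_distrib, Finset.sum_sub_distrib,
      Finset.sum_const, Finset.sum_const, nsmul_eq_mul, nsmul_eq_mul, mul_one]
  have e2 : p ^ 2 ≤ ∑ i ∈ Uᶜ, ∑ j ∈ Uᶜ, A i j + 2 * ∑ i ∈ U, dg A i := by
    have hsp := sum_split Uᶜ (fun i j => A i j)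
    rw [compl_compl] at hsp
    rw [h.hp]
    have a1 : ∑ i ∈ Uᶜ, ∑ j ∈ U, A i j ≤ ∑ i ∈ U, dg A i := by
      refine (Finset.sum_comm (s := Uᶜ) (t := U) (f := fun i j => A i j)).trans_le ?_
      refine Finset.sum_le_sum fun j _ => ?_
      calc ∑ i ∈ Uᶜ, A i j = ∑ i ∈ Uᶜ, A j i := Finset.sum_congr rfl fun i _ => hA.symm i j
        _ ≤ dg A j := Finset.sum_le_univ_sum_of_nonneg fun i => hA.nonneg _ _
    have a2 : ∑ i ∈ U, ∑ j ∈ Uᶜ, A i j + ∑ i ∈ U, ∑ j ∈ U, A i j = ∑ i ∈ U, dg A i := by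
      rw [← Finset.sum_add_distrib]
      refine Finset.sum_congr rfl fun i _ => ?_
      rw [add_comm, Finset.sum_add_sum_compl]; rfl
    linarith
  have hκ := abs_le.mp h.hB.kap
  have htp : t ≤ p + (η1 + η2) * n := by
    have := h.hB.excc
    linarith [hκ.2]
  have e12 : 0 < η1 + η2 := add_pos h.hη10 h.hη20
  have hsq : t * t ≤ p ^ 2 + 3 * (η1 + η2) * n ^ 2 := by
    have h1 : t * t ≤ (p + (η1 + η2) * n) * (p + (η1 + η2) * n) :=
      mul_le_mul htp htp ht0 (by have := h.hp0; positivity)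
    have h2 : p * ((η1 + η2) * n) ≤ n * ((η1 + η2) * n) :=
      mul_le_mul_of_nonneg_right h.hpn (by positivity)
    have h3 : ((η1 + η2) * n) * ((η1 + η2) * n) ≤ n * ((η1 + η2) * n) := by
      apply mul_le_mul_of_nonneg_right _ (by positivity)
      have : η1 + η2 ≤ 1 := by
        have := h.hδ1
        linarith
      nlinarith
    linarith
  rw [e1]
  have h10 : η1 * n ^ 2 ≤ (η1 + η2) * n ^ 2 :=
    mul_le_mul_of_nonneg_right (by linarith [h.hη20]) (by positivity)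
  linarith

/-- The penalty of `1 - P` on the clique side. -/
lemma Hyp.penalty (h : Hyp A P θ n p δ η1 η2) :
    δ * n * max (∑ i ∈ (loS A θ (δ * n))ᶜ, (1 - P i i) - 1) 0 ≤
      ∑ i ∈ (loS A θ (δ * n))ᶜ, (∑ j ∈ loS A θ (δ * n), A i j) * (1 - P i i) +
      (1 / 2) * ∑ i ∈ (loS A θ (δ * n))ᶜ, ∑ j ∈ (loS A θ (δ * n))ᶜ, A i j * wt (1 - P) i j := by
  classical
  have hδn : 0 < δ * n := mul_pos h.hδ0 h.hn
  have hn := h.hn
  have hA := h.hA
  have hP := h.hS.proj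
  have hQ := hP.compl
  have hDU := h.DU
  obtain ⟨s1, s2, s3, s4, s5⟩ := h.small
  obtain ⟨m1, m2⟩ := h.missing
  set U := loS A θ (δ * n) with hU
  set T := Uᶜ with hT
  set du : V → ℝ := fun i => ∑ j ∈ U, A i j with hdu
  set mi : V → ℝ := fun i => ∑ j ∈ T, (if i = j then 0 else 1 - A i j) with hmi
  have hq0 : ∀ i, 0 ≤ 1 - P i i := fun i => by linarith [hP.diag_le_one i]
  have hdu0 : ∀ i, 0 ≤ du i := fun i => Finset.sum_nonneg fun _ _ => hA.nonneg _ _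
  have hterm0 : ∀ i j, 0 ≤ (if i = j then (0 : ℝ) else 1 - A i j) := by
    intro i j
    split_ifs
    · exact le_refl _
    · linarith [hA.le_one i j]
  have hmi0 : ∀ i, 0 ≤ mi i := fun i => Finset.sum_nonneg fun j _ => hterm0 i j
  set Tg := T.filter (fun i => du i < δ * n) with hTg
  set T1 := Tg.filter (fun i => mi i ≤ δ * n) with hT1
  have hTgT : Tg ⊆ T := Finset.filter_subset _ _
  have hT1Tg : T1 ⊆ Tg := Finset.filter_subset _ _
  -- sizes
  have hbad1 : ((T \ Tg).card : ℝ) * (δ * n) ≤ η1 * n ^ 2 := by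
    calc ((T \ Tg).card : ℝ) * (δ * n) = ∑ _i ∈ T \ Tg, (δ * n) := by
          rw [Finset.sum_const, nsmul_eq_mul]
      _ ≤ ∑ i ∈ T \ Tg, du i := by
          refine Finset.sum_le_sum fun i hi => ?_
          rw [Finset.mem_sdiff, hTg, Finset.mem_filter, not_and, not_lt] at hi
          exact hi.2 hi.1
      _ ≤ ∑ i ∈ T, du i :=
          Finset.sum_le_sum_of_subset_of_nonneg Finset.sdiff_subset fun i _ _ => hdu0 i
      _ ≤ ∑ j ∈ U, dg A j := by
          show ∑ i ∈ T, ∑ j ∈ U, A i j ≤ _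
          refine (Finset.sum_comm (s := T) (t := U) (f := fun i j => A i j)).trans_le ?_
          refine Finset.sum_le_sum fun j _ => ?_
          calc ∑ i ∈ T, A i j = ∑ i ∈ T, A j i := Finset.sum_congr rfl fun i _ => hA.symm i j
            _ ≤ dg A j := Finset.sum_le_univ_sum_of_nonneg fun i => hA.nonneg _ _
      _ ≤ _ := hDU
  have hbad2 : ((Tg \ T1).card : ℝ) * (δ * n) ≤ 5 * (η1 + η2) * n ^ 2 := by
    calc ((Tg \ T1).card : ℝ) * (δ * n) = ∑ _i ∈ Tg \ T1, (δ * n) := by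
          rw [Finset.sum_const, nsmul_eq_mul]
      _ ≤ ∑ i ∈ Tg \ T1, mi i := by
          refine Finset.sum_le_sum fun i hi => ?_
          have h1 := (Finset.mem_sdiff.mp hi).1
          have h2 := (Finset.mem_sdiff.mp hi).2
          by_contra hcon
          push Not at hcon
          exact h2 (Finset.mem_filter.mpr ⟨h1, hcon.le⟩)
      _ ≤ ∑ i ∈ T, mi i :=
          Finset.sum_le_sum_of_subset_of_nonneg (Finset.sdiff_subset.trans hTgT)
            fun i _ _ => hmi0 i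
      _ ≤ _ := m1
  have hc3 := h.c3
  have b1 : ((T \ Tg).card : ℝ) ≤ δ * n / 20 := by
    have : ((T \ Tg).card : ℝ) * (δ * n) ≤ (δ * n / 20) * (δ * n) := by
      have h1 : η1 ≤ δ ^ 2 / 20 := by
        have := h.hη20
        have p2 := pow_pos h.hδ0 2
        linarith
      have h2 : η1 * n ^ 2 ≤ δ ^ 2 / 20 * n ^ 2 := mul_le_mul_of_nonneg_right h1 (by positivity)
      calc ((T \ Tg).card : ℝ) * (δ * n) ≤ η1 * n ^ 2 := hbad1
        _ ≤ δ ^ 2 / 20 * n ^ 2 := h2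
        _ = _ := by ring
    exact le_of_mul_le_mul_right this hδn
  have b2 : ((Tg \ T1).card : ℝ) ≤ δ * n / 4 := by
    have : ((Tg \ T1).card : ℝ) * (δ * n) ≤ (δ * n / 4) * (δ * n) := by
      have h1 : 5 * (η1 + η2) ≤ δ ^ 2 / 4 := by
        have p2 := pow_pos h.hδ0 2
        linarith
      have h2 : 5 * (η1 + η2) * n ^ 2 ≤ δ ^ 2 / 4 * n ^ 2 :=
        mul_le_mul_of_nonneg_right h1 (by positivity)
      calc ((Tg \ T1).card : ℝ) * (δ * n) ≤ 5 * (η1 + η2) * n ^ 2 := hbad2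
        _ ≤ δ ^ 2 / 4 * n ^ 2 := h2
        _ = _ := by ring
    exact le_of_mul_le_mul_right this hδn
  have hθ := h.hB.th
  have hcT : (T.card : ℝ) = (T \ Tg).card + ((Tg \ T1).card + T1.card) := by
    have e1 := Finset.card_sdiff_add_card_eq_card hTgT
    have e2 := Finset.card_sdiff_add_card_eq_card hT1Tg
    rw [← e1, ← e2]; push_cast; ring
  have hT1big : 20 * (δ * n) ≤ T1.card := by linarith
  have hT1ne : T1.Nonempty := by
    rw [← Finset.card_pos]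
    have : (0 : ℝ) < T1.card := by linarith
    exact_mod_cast this
  -- Poincare inequality on Tg
  have hpoin := poincare_proj hA hQ Tg T1 hT1Tg hT1ne (b := δ * n) (D := 17 * (δ * n))
    (w := δ * n / 4) (lam := 8 * (δ * n))
    (by
      intro i hi
      rw [hT1, Finset.mem_filter] at hi
      calc ∑ j ∈ T1, (if i = j then 0 else 1 - A i j) ≤ mi i :=
            Finset.sum_le_sum_of_subset_of_nonneg (hT1Tg.trans hTgT) fun j _ _ => hterm0 i j
        _ ≤ _ := hi.2)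
    (by
      intro x hx
      rw [Finset.mem_sdiff] at hx
      have hxT : x ∈ T := hTgT hx.1
      have hxd : du x < δ * n := by
        have := hx.1
        rw [hTg, Finset.mem_filter] at this
        exact this.2
      have hxg : θ < dg A x + δ * n := by
        rw [hT, Finset.mem_compl, hU, mem_loS] at hxT
        push Not at hxT; exact hxT
      have e1 : dg A x = du x + (∑ y ∈ T \ T1, A x y + ∑ y ∈ T1, A x y) := by
        rw [Finset.sum_sdiff (hT1Tg.trans hTgT), hdu]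
        exact (Finset.sum_add_sum_compl U (fun y => A x y)).symm
      have e2 : ∑ y ∈ T \ T1, A x y ≤ δ * n := by
        calc ∑ y ∈ T \ T1, A x y ≤ ∑ _y ∈ T \ T1, (1 : ℝ) :=
              Finset.sum_le_sum fun y _ => hA.le_one x y
          _ = (T \ T1).card := by rw [Finset.sum_const, nsmul_eq_mul, mul_one]
          _ ≤ δ * n := by
              have e3 := Finset.card_sdiff_add_card_eq_card (hT1Tg.trans hTgT)
              have e4 : ((T \ T1).card : ℝ) + T1.card = T.card := by exact_mod_cast e3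
              linarith
      linarith)
    b2 (by positivity) (by linarith) (by linarith)
  -- compare sums
  have hsub : ∑ i ∈ Tg, ∑ j ∈ Tg, A i j * wt (1 - P) i j ≤
      ∑ i ∈ T, ∑ j ∈ T, A i j * wt (1 - P) i j := by
    have hnn : ∀ i j, 0 ≤ A i j * wt (1 - P) i j := fun i j =>
      mul_nonneg (hA.nonneg _ _) (wt_nonneg hQ i j)
    calc ∑ i ∈ Tg, ∑ j ∈ Tg, A i j * wt (1 - P) i j
        ≤ ∑ i ∈ Tg, ∑ j ∈ T, A i j * wt (1 - P) i j :=
          Finset.sum_le_sum fun i _ =>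
            Finset.sum_le_sum_of_subset_of_nonneg hTgT fun j _ _ => hnn i j
      _ ≤ _ := Finset.sum_le_sum_of_subset_of_nonneg hTgT fun i _ _ =>
          Finset.sum_nonneg fun j _ => hnn i j
  have hQd : ∀ i, (1 - P) i i = 1 - P i i := by
    intro i; rw [Matrix.sub_apply, one_apply_eq]
  simp only [hQd] at hpoin
  have hbadpen : δ * n * ∑ i ∈ T \ Tg, (1 - P i i) ≤ ∑ i ∈ T, du i * (1 - P i i) := by
    calc δ * n * ∑ i ∈ T \ Tg, (1 - P i i) = ∑ i ∈ T \ Tg, δ * n * (1 - P i i) := by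
          rw [Finset.mul_sum]
      _ ≤ ∑ i ∈ T \ Tg, du i * (1 - P i i) := by
          refine Finset.sum_le_sum fun i hi => ?_
          apply mul_le_mul_of_nonneg_right _ (hq0 i)
          rw [Finset.mem_sdiff, hTg, Finset.mem_filter, not_and, not_lt] at hi
          exact hi.2 hi.1
      _ ≤ _ := Finset.sum_le_sum_of_subset_of_nonneg Finset.sdiff_subset fun i _ _ =>
          mul_nonneg (hdu0 i) (hq0 i)
  have hsumT : ∑ i ∈ T, (1 - P i i) = ∑ i ∈ T \ Tg, (1 - P i i) + ∑ i ∈ Tg, (1 - P i i) :=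
    (Finset.sum_sdiff hTgT).symm
  have nb : 0 ≤ ∑ i ∈ T \ Tg, (1 - P i i) := Finset.sum_nonneg fun i _ => hq0 i
  have nn : 0 ≤ ∑ i ∈ T, ∑ j ∈ T, A i j * wt (1 - P) i j :=
    Finset.sum_nonneg fun i _ => Finset.sum_nonneg fun j _ =>
      mul_nonneg (hA.nonneg _ _) (wt_nonneg hQ i j)
  have np : 0 ≤ ∑ i ∈ T, du i * (1 - P i i) :=
    Finset.sum_nonneg fun i _ => mul_nonneg (hdu0 i) (hq0 i)
  show _ ≤ ∑ i ∈ T, du i * (1 - P i i) + _
  rcases le_total (∑ i ∈ T, (1 - P i i) - 1) 0 with hc | hc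
  · rw [max_eq_right hc, mul_zero]; positivity
  · rw [max_eq_left hc, hsumT]
    rcases le_total (∑ i ∈ Tg, (1 - P i i) - 1) 0 with hd | hd
    · have h1 : δ * n * (∑ i ∈ T \ Tg, (1 - P i i) + ∑ i ∈ Tg, (1 - P i i) - 1) ≤
          δ * n * ∑ i ∈ T \ Tg, (1 - P i i) :=
        mul_le_mul_of_nonneg_left (by linarith) hδn.le
      linarith
    · have h1 : δ * n * (∑ i ∈ Tg, (1 - P i i) - 1) ≤ 8 * (δ * n) * (∑ i ∈ Tg, (1 - P i i) - 1) := by
        apply mul_le_mul_of_nonneg_right _ hd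
        linarith
      linarith

/-- the basic inequality -/
theorem Hyp.star (h : Hyp A P θ n p δ η1 η2) :
    (lap A * P).trace ≤ p ^ 2 - (1 - 4 / δ ^ 2 / n) * ∑ i ∈ loS A θ (δ * n), dg A i
      - δ * n * max (∑ i ∈ (loS A θ (δ * n))ᶜ, (1 - P i i) - 1) 0 := by
  have hδ0 := h.hδ0
  have hn := h.hn
  have hA := h.hA
  have hP := h.hS.proj
  have h1 := trace_lap_mul' hA hP
  have hc := h.cross
  have hu := h.inU
  have hpen := h.penalty
  set U := loS A θ (δ * n) with hU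
  rw [sum_split Uᶜ (fun i j => A i j * wt P i j), compl_compl] at h1
  have h2 : ∑ i ∈ U, ∑ j ∈ Uᶜ, A i j * wt P i j = ∑ i ∈ Uᶜ, ∑ j ∈ U, A i j * wt P i j := by
    rw [Finset.sum_comm]
    refine Finset.sum_congr rfl fun i _ => Finset.sum_congr rfl fun j _ => ?_
    rw [hA.symm j i]; unfold wt; rw [hP.apply_symm j i]; ring
  rw [h2] at h1
  have h3 : ∑ i ∈ Uᶜ, ∑ j ∈ Uᶜ, A i j * wt P i j =
      2 * ∑ i ∈ Uᶜ, ∑ j ∈ Uᶜ, A i j - ∑ i ∈ Uᶜ, ∑ j ∈ Uᶜ, A i j * wt (1 - P) i j := by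
    rw [Finset.mul_sum, ← Finset.sum_sub_distrib]
    refine Finset.sum_congr rfl fun i _ => ?_
    rw [Finset.mul_sum, ← Finset.sum_sub_distrib]
    refine Finset.sum_congr rfl fun j _ => ?_
    by_cases hij : i = j
    · subst hij; rw [hA.diag]; ring
    · rw [wt_compl hij]; ring
  rw [h3] at h1
  have h4 : p ^ 2 = ∑ i ∈ Uᶜ, ∑ j ∈ Uᶜ, A i j + ∑ i ∈ Uᶜ, ∑ j ∈ U, A i j
      + ∑ i ∈ U, dg A i := by
    have hsp := sum_split Uᶜ (fun i j => A i j)
    rw [compl_compl] at hsp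
    rw [h.hp]
    have a2 : ∑ i ∈ U, ∑ j ∈ Uᶜ, A i j + ∑ i ∈ U, ∑ j ∈ U, A i j = ∑ i ∈ U, dg A i := by
      rw [← Finset.sum_add_distrib]
      refine Finset.sum_congr rfl fun i _ => ?_
      rw [add_comm, Finset.sum_add_sum_compl]; rfl
    linarith
  set D := ∑ i ∈ U, dg A i with hD
  have hD0 : 0 ≤ D := Finset.sum_nonneg fun i _ => dg_nonneg hA i
  have h5 : (1 / δ ^ 2 + 2 / δ) / n * D + 1 / 2 * (4 / δ ^ 2 / n * D) ≤ 4 / δ ^ 2 / n * D := by
    have e1 : 2 / δ ≤ 1 / δ ^ 2 := by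
      rw [div_le_div_iff₀ hδ0 (by positivity)]
      have := h.hδ1
      nlinarith
    have e2 : (1 / δ ^ 2 + 2 / δ) / n * D ≤ (2 / δ ^ 2) / n * D := by
      apply mul_le_mul_of_nonneg_right _ hD0
      apply div_le_div_of_nonneg_right _ hn.le
      have : 2 / δ ^ 2 = 1 / δ ^ 2 + 1 / δ ^ 2 := by ring
      linarith
    have e3 : 4 / δ ^ 2 / n * D = 2 / δ ^ 2 / n * D + 1 / 2 * (4 / δ ^ 2 / n * D) := by ring
    linarith
  linarith

end Pool.Agent.Helper53.LE
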