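import Pool.Agent.Helper53.LE.Sparse2

/-!
The upper bound for connected graphs close to a clique, for large rank.
-/

namespace Pool.Agent.Helper53.LE

open Matrix Finset

variable {V : Type*} [Fintype V] [DecidableEq V]
variable {A P : Matrix V V ℝ} {θ n p δ η1 η2 : ℝ}

theorem Hyp.sparse (h : Hyp A P θ n p δ η1 η2) (hR : Rooted A) (hPJ : P * JJ V = 0)
    {k : ℕ} (hk : P.trace = k) {s : ℝ}
    (hs : s = (k : ℝ) * (k + 1) / 2 + n - 1 - k - p ^ 2 / 2) (hs0 : 0 ≤ s) :
    (lap A * P).trace ≤ p ^ 2 - (n - k - 1) + 8 / δ ^ 3 / n * s := by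
  classical
  have hδn : 0 < δ * n := mul_pos h.hδ0 h.hn
  have hn := h.hn
  have hδ0 := h.hδ0
  have hδ1 := h.hδ1
  have hA := h.hA
  have hP := h.hS.proj
  have hQ := hP.compl
  have hDU := h.DU
  have hstar := h.star
  have hc4 := h.c4
  have hc3 := h.c3
  obtain ⟨s1, s2, s3, s4, s5⟩ := h.small
  obtain ⟨m1, m2⟩ := h.missing
  set U := loS A θ (δ * n) with hU
  set T := Uᶜ with hT
  set D := ∑ i ∈ U, dg A i with hD
  set t : ℝ := (T.card : ℝ) with ht
  have hth := h.hB.th
  have hcard : (U.card : ℝ) + t = n := by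
    have := Finset.card_add_card_compl U
    rw [h.hnV, ht, hT]; exact_mod_cast this
  -- constants
  have hC2pos : 0 < 4 / δ ^ 2 := by positivity
  have hC2 : 4 / δ ^ 2 / n ≤ 1 / 100 := by
    rw [div_div, div_le_div_iff₀ (by positivity) (by norm_num)]
    linarith
  have hC2n : 4 / δ ^ 2 ≤ δ * n / 4 := by
    rw [div_le_div_iff₀ (by positivity) (by norm_num)]
    have : δ ^ 3 * n = δ * n * δ ^ 2 := by ring
    linarith
  have hC23 : 4 / δ ^ 2 ≤ 8 / δ ^ 3 := by
    rw [div_le_div_iff₀ (by positivity) (by positivity)]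
    have : δ ^ 3 ≤ δ ^ 2 := s2
    linarith [pow_pos hδ0 2]
  have h1δn : 1 ≤ δ * n / 8 := by
    have : 4 ≤ 4 / δ ^ 2 := by
      rw [le_div_iff₀ (by positivity)]
      linarith [pow_pos hδ0 2]
    linarith
  -- T is nonempty
  have hTne : T.Nonempty := by
    rw [← Finset.card_pos]
    have : (0 : ℝ) < t := by linarith
    rw [ht] at this; exact_mod_cast this
  obtain ⟨z, hz⟩ := hTne
  have hzU : z ∉ U := by rw [hT, Finset.mem_compl] at hz; exact hz
  have hedges := rooted_edges hA hR U hzU
  set e1 := ∑ i ∈ U, ∑ j ∈ Uᶜ, A i j with he1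
  set eUU := ∑ i ∈ U, ∑ j ∈ U, A i j with heUU
  have heUU0 : 0 ≤ eUU := Finset.sum_nonneg fun _ _ => Finset.sum_nonneg fun _ _ => hA.nonneg _ _
  have he10 : 0 ≤ e1 := Finset.sum_nonneg fun _ _ => Finset.sum_nonneg fun _ _ => hA.nonneg _ _
  have hDe : D = e1 + eUU := by
    rw [hD, he1, heUU, ← Finset.sum_add_distrib]
    refine Finset.sum_congr rfl fun i _ => ?_
    rw [add_comm, Finset.sum_add_sum_compl]; rfl
  have he1' : ∑ i ∈ T, ∑ j ∈ U, A i j = e1 := by
    refine (Finset.sum_comm (s := T) (t := U) (f := fun i j => A i j)).trans ?_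
    exact Finset.sum_congr rfl fun j _ => Finset.sum_congr rfl fun i _ => hA.symm _ _
  set TT := ∑ i ∈ T, ∑ j ∈ T, A i j with hTT
  have hp2 : p ^ 2 = TT + 2 * e1 + eUU := by
    have hsp := sum_split T (fun i j => A i j)
    rw [hT, compl_compl] at hsp
    rw [h.hp]
    have : ∑ i ∈ Uᶜ, ∑ j ∈ U, A i j = e1 := he1'
    linarith
  -- the trace on U
  set ν := ∑ i ∈ U, P i i with hν
  have hν0 : 0 ≤ ν := Finset.sum_nonneg fun i _ => hP.diag_nonneg i
  have hνs : ν ≤ δ ^ 2 / 24 := by
    have h1 : ν ≤ D / (δ * n) ^ 2 := by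
      rw [hν, hD, Finset.sum_div]
      exact Finset.sum_le_sum fun i hi => (h.pu hi).1
    have h2 : D / (δ * n) ^ 2 ≤ (η1 * n ^ 2) / (δ * n) ^ 2 :=
      div_le_div_of_nonneg_right hDU (by positivity)
    have h3 : (η1 * n ^ 2) / (δ * n) ^ 2 = η1 / δ ^ 2 := by field_simp
    have h4 : η1 / δ ^ 2 ≤ δ ^ 2 / 24 := by
      rw [div_le_div_iff₀ (by positivity) (by norm_num)]
      have := h.hη3
      have := h.hη20
      linarith
    linarith
  have htrQ : ∑ i ∈ T, (1 - P i i) = t - k + ν := by
    have h1 : ∑ i ∈ U, P i i + ∑ i ∈ T, P i i = k := by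
      rw [hT, Finset.sum_add_sum_compl, ← hk]; rfl
    rw [Finset.sum_sub_distrib, Finset.sum_const, nsmul_eq_mul, mul_one, ← ht]
    linarith
  rw [htrQ] at hstar
  have hUcard0 : (0 : ℝ) ≤ U.card := by positivity
  have htn : t ≤ n := by linarith
  have hUn : (U.card : ℝ) ≤ n := by linarith
  -- t is at least k + 1
  have hstep1 : (k : ℝ) < t := by
    by_contra hcon
    push Not at hcon
    have hrow : ∀ i, ∑ j, P i j = 0 := by
      intro i
      have := congrFun (congrFun hPJ i) i
      simpa [Matrix.mul_apply, JJ] using this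
    have a1 : ∑ i ∈ T, ∑ j ∈ T, P i j = ∑ i ∈ U, ∑ j ∈ U, P i j := by
      have b1 : ∑ i ∈ T, (∑ j ∈ U, P i j + ∑ j ∈ T, P i j) = 0 := by
        refine Finset.sum_eq_zero fun i _ => ?_
        rw [hT, Finset.sum_add_sum_compl]; exact hrow i
      have b2 : ∑ i ∈ U, (∑ j ∈ U, P i j + ∑ j ∈ T, P i j) = 0 := by
        refine Finset.sum_eq_zero fun i _ => ?_
        rw [hT, Finset.sum_add_sum_compl]; exact hrow i
      rw [Finset.sum_add_distrib] at b1 b2
      have b3 : ∑ i ∈ T, ∑ j ∈ U, P i j = ∑ i ∈ U, ∑ j ∈ T, P i j := by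
        refine (Finset.sum_comm (s := T) (t := U) (f := fun i j => P i j)).trans ?_
        exact Finset.sum_congr rfl fun j _ => Finset.sum_congr rfl fun i _ => hP.apply_symm _ _
      linarith
    have a2 : ∑ i ∈ U, ∑ j ∈ U, P i j ≤ U.card * ν := by
      calc ∑ i ∈ U, ∑ j ∈ U, P i j ≤ ∑ i ∈ U, ∑ j ∈ U, (P i i + P j j) / 2 := by
            refine Finset.sum_le_sum fun i _ => Finset.sum_le_sum fun j _ => ?_
            have c1 := hP.abs_le i j
            have c2 := le_abs_self (P i j)
            linarith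
        _ = U.card * ν := by
            simp only [add_div, Finset.sum_add_distrib, Finset.sum_const, nsmul_eq_mul,
              ← Finset.sum_div, ← Finset.mul_sum]
            rw [hν]; ring
    have a3 : ∑ i ∈ T, ∑ j ∈ T, (1 - P) i j ≤ t * (t - k + ν) := by
      calc ∑ i ∈ T, ∑ j ∈ T, (1 - P) i j
          ≤ ∑ i ∈ T, ∑ j ∈ T, ((1 - P) i i + (1 - P) j j) / 2 := by
            refine Finset.sum_le_sum fun i _ => Finset.sum_le_sum fun j _ => ?_
            have c1 := hQ.abs_le i j
            have c2 := le_abs_self ((1 - P) i j)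
            linarith
        _ = t * ∑ i ∈ T, (1 - P) i i := by
            simp only [add_div, Finset.sum_add_distrib, Finset.sum_const, nsmul_eq_mul,
              ← Finset.sum_div, ← Finset.mul_sum]
            rw [ht]; ring
        _ = t * (t - k + ν) := by
            rw [← htrQ]
            congr 1
            exact Finset.sum_congr rfl fun i _ => by rw [Matrix.sub_apply, one_apply_eq]
    have a4 : ∑ i ∈ T, ∑ j ∈ T, (1 - P) i j = t - ∑ i ∈ T, ∑ j ∈ T, P i j := by
      simp only [Matrix.sub_apply, Finset.sum_sub_distrib]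
      congr 1
      have : ∀ i ∈ T, ∑ j ∈ T, (1 : Matrix V V ℝ) i j = 1 := by
        intro i hi
        rw [Finset.sum_eq_single i]
        · simp
        · intro j _ hj; rw [one_apply_ne (Ne.symm hj)]
        · intro h; exact absurd hi h
      rw [Finset.sum_congr rfl this, Finset.sum_const, nsmul_eq_mul, mul_one]
    have ht0 : 0 < t := by linarith
    have a5 : t * (t - k + ν) ≤ t * ν := mul_le_mul_of_nonneg_left (by linarith) ht0.le
    have a6' : n * ν = U.card * ν + t * ν := by rw [← hcard]; ring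
    have a6 : t ≤ n * ν := by linarith
    have a7 : n * ν ≤ n * (δ ^ 2 / 24) := mul_le_mul_of_nonneg_left hνs hn.le
    have a8 : n * (δ ^ 2 / 24) ≤ δ * n := by
      have : n * (δ ^ 2 / 24) ≤ n * δ := mul_le_mul_of_nonneg_left (by linarith) hn.le
      linarith
    linarith
  have hstep2 : (k : ℝ) + 1 ≤ t := by
    have : k < T.card := by rw [ht] at hstep1; exact_mod_cast hstep1
    rw [ht]; exact_mod_cast this
  have hmax0 : 0 ≤ max (t - k + ν - 1) 0 := le_max_right _ _
  have hDcard : (U.card : ℝ) ≤ D := by rw [hDe]; linarith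
  have hcoef : 0 ≤ 1 - 4 / δ ^ 2 / n := by linarith
  have hC2U : 4 / δ ^ 2 / n * U.card ≤ 4 / δ ^ 2 := by
    have : 4 / δ ^ 2 / n * U.card ≤ 4 / δ ^ 2 / n * n :=
      mul_le_mul_of_nonneg_left hUn (by positivity)
    have e : 4 / δ ^ 2 / n * n = 4 / δ ^ 2 := by field_simp
    linarith
  have hCs0 : 0 ≤ 8 / δ ^ 3 / n * s := by positivity
  rcases hstep2.eq_or_lt with hEq | hLt
  · -- t = k + 1
    set miss := ∑ i ∈ T, ∑ j ∈ T, (if i = j then 0 else 1 - A i j) with hmiss
    have hterm0 : ∀ i j, 0 ≤ (if i = j then (0 : ℝ) else 1 - A i j) := by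
      intro i j
      split_ifs
      · exact le_refl _
      · linarith [hA.le_one i j]
    have hmissrow : ∀ i ∈ T, ∑ j ∈ T, (if i = j then 0 else 1 - A i j) =
        t - 1 - ∑ j ∈ T, A i j := by
      intro i hi
      have h2 : ∀ j ∈ T, (if i = j then 0 else 1 - A i j) =
          1 - (if i = j then 1 else 0) - A i j := by
        intro j _
        split_ifs with h3
        · subst h3; rw [hA.diag]; ring
        · ring
      rw [Finset.sum_congr rfl h2, Finset.sum_sub_distrib, Finset.sum_sub_distrib,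
        Finset.sum_const, nsmul_eq_mul, mul_one, Finset.sum_ite_eq, if_pos hi]
    have hmisseq : miss = t * (t - 1) - TT := by
      rw [hmiss, Finset.sum_congr rfl hmissrow, Finset.sum_sub_distrib, Finset.sum_const,
        nsmul_eq_mul]
    have hs' : miss / 2 = s + (e1 + eUU / 2 - U.card) := by
      rw [hmisseq, hs]
      have h2 : (U.card : ℝ) = n - t := by linarith
      rw [h2, ← hEq]
      linarith
    by_cases hexc : ∀ i ∈ T, θ + δ * n ≤ dg A i
    · -- no exceptional vertices
      have hcmp := compare2 hA hP T hδn (by linarith)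
        (by
          intro u hu
          have huU : u ∈ U := by rw [hT, Finset.mem_compl, not_not] at hu; exact hu
          have h2 := mem_loS.mp huU
          have h3 : ∑ i ∈ T, A i u ≤ dg A u := by
            calc ∑ i ∈ T, A i u = ∑ i ∈ T, A u i := Finset.sum_congr rfl fun i _ => hA.symm i u
              _ ≤ dg A u := Finset.sum_le_univ_sum_of_nonneg fun i => hA.nonneg _ _
          rw [← ht]
          linarith)
        (by
          rw [hT, compl_compl, ← hT, he1']
          have h2 : e1 ≤ η1 * n ^ 2 := by linarith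
          have h3 : 4 * η1 ≤ δ ^ 2 := by linarith [h.hη20, pow_pos hδ0 3]
          calc 4 * e1 ≤ (4 * η1) * n ^ 2 := by linarith
            _ ≤ δ ^ 2 * n ^ 2 := mul_le_mul_of_nonneg_right h3 (by positivity)
            _ = _ := by ring)
        (by
          rw [hT, compl_compl, ← hT, he1', ← ht]
          have h2 : e1 ≤ η1 * n ^ 2 := by linarith
          have h3 : 24 * η1 ≤ δ ^ 4 := by linarith [h.hη3, h.hη20]
          calc 24 * t * (U.card : ℝ) * e1 ≤ 24 * n * n * (η1 * n ^ 2) := by
                apply mul_le_mul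
                · apply mul_le_mul
                  · linarith
                  · exact hUn
                  · positivity
                  · positivity
                · exact h2
                · exact he10
                · positivity
            _ = (24 * η1) * n ^ 4 := by ring
            _ ≤ δ ^ 4 * n ^ 4 := mul_le_mul_of_nonneg_right h3 (by positivity)
            _ = _ := by ring)
      rw [← h.hp, ← ht, hk, hT, compl_compl, ← hT] at hcmp
      have hqs : ∀ i ∈ T, 1 - P i i ≤ 1 / (δ ^ 2 * n) := by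
        intro i hi
        have h2 := spec_hi hA h.hS i hδn (hexc i hi)
        have h3 := dg_le hA i
        rw [← h.hnV] at h3
        rw [le_div_iff₀ (by positivity)]
        have h4 : n * ((1 - P i i) * (δ ^ 2 * n)) ≤ n * 1 := by
          have : n * ((1 - P i i) * (δ ^ 2 * n)) = (δ * n) ^ 2 * (1 - P i i) := by ring
          linarith
        exact le_of_mul_le_mul_left h4 hn
      have hmw : (1 - 4 / δ ^ 2 / n) * miss ≤ ∑ i ∈ T, ∑ j ∈ T,
          (if i = j then 0 else (1 - A i j) * (wt P i j - 1)) := by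
        rw [hmiss, Finset.mul_sum]
        refine Finset.sum_le_sum fun i hi => ?_
        rw [Finset.mul_sum]
        refine Finset.sum_le_sum fun j hj => ?_
        split_ifs with hij
        · simp
        · have h2 : wt P i j = 2 - wt (1 - P) i j := wt_compl hij
          have h3 := wt_le hQ i j
          rw [Matrix.sub_apply, Matrix.sub_apply, one_apply_eq, one_apply_eq] at h3
          have h4 := hqs i hi
          have h5 := hqs j hj
          have h6 : 4 / δ ^ 2 / n = 4 * (1 / (δ ^ 2 * n)) := by field_simp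
          have h7 : 1 - 4 / δ ^ 2 / n ≤ wt P i j - 1 := by rw [h6, h2]; linarith
          have h8 : 0 ≤ 1 - A i j := by linarith [hA.le_one i j]
          calc (1 - 4 / δ ^ 2 / n) * (1 - A i j) = (1 - A i j) * (1 - 4 / δ ^ 2 / n) := by ring
            _ ≤ _ := mul_le_mul_of_nonneg_left h7 h8
      have huu : 0 ≤ ∑ i ∈ U, ∑ j ∈ U, A i j * (1 - wt P i j) := by
        refine Finset.sum_nonneg fun i hi => Finset.sum_nonneg fun j hj => ?_
        apply mul_nonneg (hA.nonneg _ _)
        have h1 := wt_le hP i j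
        have h2 := (h.pu hi).2.1
        have h3 := (h.pu hj).2.1
        have h4 : 1 / (δ ^ 2 * n) ≤ 1 / 400 := by
          rw [div_le_div_iff₀ (by positivity) (by norm_num)]; linarith
        linarith
      rw [← hEq] at hcmp
      have hms : (1 - 4 / δ ^ 2 / n) * s ≤ (1 - 4 / δ ^ 2 / n) * (miss / 2) := by
        apply mul_le_mul_of_nonneg_left _ hcoef
        rw [hs']; linarith
      have h9 : 4 / δ ^ 2 / n * s ≤ 8 / δ ^ 3 / n * s := by
        apply mul_le_mul_of_nonneg_right _ hs0
        exact div_le_div_of_nonneg_right hC23 hn.le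
      rw [hs] at hms h9 ⊢
      linarith
    · -- an exceptional vertex
      push Not at hexc
      obtain ⟨x, hx, hxd⟩ := hexc
      have hrowx : 2 * (δ * n) ≤ ∑ j ∈ T, (if x = j then 0 else 1 - A x j) := by
        rw [hmissrow x hx]
        have h2 : ∑ j ∈ T, A x j ≤ dg A x :=
          Finset.sum_le_univ_sum_of_nonneg fun j => hA.nonneg _ _
        linarith
      have hmissbig : 2 * (δ * n) ≤ miss := by
        refine hrowx.trans ?_
        rw [hmiss]
        exact Finset.single_le_sum (f := fun i => ∑ j ∈ T, (if i = j then 0 else 1 - A i j))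
          (fun i _ => Finset.sum_nonneg fun j _ => hterm0 i j) hx
      have hDe2 : e1 + eUU / 2 ≤ D := by rw [hDe]; linarith
      have hstar2 : (lap A * P).trace ≤ p ^ 2 - (1 - 4 / δ ^ 2 / n) * D := by
        have := mul_nonneg hδn.le hmax0
        linarith
      have hUk : (U.card : ℝ) = n - k - 1 := by linarith
      rcases le_or_gt (δ * n / 2) s with hsb | hsb
      · have h2 : 4 / δ ^ 2 ≤ 8 / δ ^ 3 / n * s := by
          have h3 : 8 / δ ^ 3 / n * (δ * n / 2) ≤ 8 / δ ^ 3 / n * s :=
            mul_le_mul_of_nonneg_left hsb (by positivity)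
          have h4 : 8 / δ ^ 3 / n * (δ * n / 2) = 4 / δ ^ 2 := by field_simp; norm_num
          linarith
        have h5 : (1 - 4 / δ ^ 2 / n) * U.card ≤ (1 - 4 / δ ^ 2 / n) * D :=
          mul_le_mul_of_nonneg_left hDcard hcoef
        rw [← hUk]
        linarith
      · have h2 : (U.card : ℝ) + δ * n / 2 ≤ D := by linarith
        have h5 : (1 - 4 / δ ^ 2 / n) * (U.card + δ * n / 2) ≤ (1 - 4 / δ ^ 2 / n) * D :=
          mul_le_mul_of_nonneg_left h2 hcoef
        have h6 : 4 / δ ^ 2 / n * (δ * n / 2) ≤ 1 / 100 * (δ * n / 2) :=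
          mul_le_mul_of_nonneg_right hC2 (by positivity)
        rw [← hUk]
        linarith
  · -- t is at least k + 2
    have hstep3 : (k : ℝ) + 2 ≤ t := by
      have : k + 1 < T.card := by rw [ht] at hLt; exact_mod_cast hLt
      rw [ht]; exact_mod_cast this
    have h2 : δ * n * (t - k - 1) ≤ δ * n * max (t - k + ν - 1) 0 := by
      apply mul_le_mul_of_nonneg_left _ hδn.le
      refine le_trans ?_ (le_max_left _ _)
      linarith
    have h3 : (1 - 4 / δ ^ 2 / n) * U.card ≤ (1 - 4 / δ ^ 2 / n) * D :=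
      mul_le_mul_of_nonneg_left hDcard hcoef
    have h4 : 4 / δ ^ 2 + (t - k - 1) ≤ δ * n * (t - k - 1) := by
      have h5 : δ * n / 2 * 1 ≤ δ * n / 2 * (t - k - 1) :=
        mul_le_mul_of_nonneg_left (by linarith) (by positivity)
      have h6 : 1 * (t - k - 1) ≤ δ * n / 2 * (t - k - 1) :=
        mul_le_mul_of_nonneg_right (by linarith) (by linarith)
      linarith
    linarith

end Pool.Agent.Helper53.LE
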