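import Mathlib

/-!
Spectral projections of real symmetric matrices and the sum of the positive parts
of the shifted eigenvalues.
-/

namespace Pool.Agent.Helper53.LE

open Matrix Finset

variable {V : Type*} [Fintype V] [DecidableEq V]

/-- orthogonal projection matrices -/
structure IsProj (P : Matrix V V ℝ) : Prop where
  symm : Pᵀ = P
  idem : P * P = P

/-- `P` is the spectral projection of `L` on the eigenvalues above `θ`. -/
structure IsSpec (L P : Matrix V V ℝ) (θ : ℝ) : Prop where
  proj : IsProj P
  comm : P * L = L * P
  pos : ((L - θ • (1 : Matrix V V ℝ)) * P).PosSemidef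
  neg : ((θ • (1 : Matrix V V ℝ) - L) * (1 - P)).PosSemidef

lemma IsProj.compl {P : Matrix V V ℝ} (h : IsProj P) : IsProj (1 - P) := by
  refine ⟨by rw [transpose_sub, transpose_one, h.symm], ?_⟩
  rw [sub_mul, mul_sub, mul_sub, h.idem]; simp

lemma trace_mul_proj_nonneg {N P : Matrix V V ℝ} (hN : N.PosSemidef) (hP : IsProj P) :
    0 ≤ (N * P).trace := by
  have h1 := (hN.conjTranspose_mul_mul_same P).trace_nonneg
  have h2 : (Pᴴ * N * P).trace = (N * P).trace := by
    rw [conjTranspose_eq_transpose_of_trivial, hP.symm, trace_mul_comm, ← mul_assoc, hP.idem,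
      trace_mul_comm]
  rwa [h2] at h1

lemma IsSpec.trace_le {L P : Matrix V V ℝ} {θ : ℝ} (h : IsSpec L P θ) {P' : Matrix V V ℝ}
    (hP' : IsProj P') :
    ((L - θ • (1 : Matrix V V ℝ)) * P').trace ≤ ((L - θ • (1 : Matrix V V ℝ)) * P).trace := by
  have h1 := trace_mul_proj_nonneg h.pos hP'.compl
  have h2 := trace_mul_proj_nonneg h.neg hP'
  set M := L - θ • (1 : Matrix V V ℝ) with hM
  have h3 : (θ • (1 : Matrix V V ℝ) - L) = - M := by rw [hM]; abel
  rw [h3] at h2
  have e1 : M * P * (1 - P') = M * P - M * P * P' := by rw [mul_sub, mul_one]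
  have e2 : -M * (1 - P) * P' = - (M * P') + M * P * P' := by
    rw [mul_sub, mul_one, sub_mul]; simp
  rw [e1, trace_sub] at h1
  rw [e2, trace_add, trace_neg] at h2
  linarith

lemma exists_isSpec {L : Matrix V V ℝ} (hL : L.IsHermitian) (θ : ℝ) :
    ∃ P : Matrix V V ℝ, IsSpec L P θ ∧
      ((L - θ • (1 : Matrix V V ℝ)) * P).trace = ∑ i, max (hL.eigenvalues i - θ) 0 ∧
      ∃ k : ℕ, P.trace = k := by
  classical
  set U : Matrix V V ℝ := (hL.eigenvectorUnitary : Matrix V V ℝ) with hU
  have hUU : star U * U = 1 := Unitary.coe_star_mul_self hL.eigenvectorUnitary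
  have hUU' : U * star U = 1 := Unitary.coe_mul_star_self hL.eigenvectorUnitary
  have hspec : L = U * diagonal hL.eigenvalues * star U := by
    have := hL.spectral_theorem
    rw [Unitary.conjStarAlgAut_apply] at this
    simpa using this
  have hst : star U = Uᵀ := by
    rw [star_eq_conjTranspose, conjTranspose_eq_transpose_of_trivial]
  set f : V → ℝ := fun i => if θ < hL.eigenvalues i then 1 else 0 with hf
  set P : Matrix V V ℝ := U * diagonal f * star U with hP
  have hff : ∀ i, f i * f i = f i := by intro i; simp only [hf]; split_ifs <;> simp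
  have key : ∀ a b : V → ℝ, (U * diagonal a * star U) * (U * diagonal b * star U) =
      U * diagonal (fun i => a i * b i) * star U := by
    intro a b
    calc (U * diagonal a * star U) * (U * diagonal b * star U)
        = U * diagonal a * (star U * U) * diagonal b * star U := by simp only [mul_assoc]
      _ = U * (diagonal a * diagonal b) * star U := by rw [hUU]; simp only [mul_assoc, one_mul, mul_one]
      _ = _ := by rw [diagonal_mul_diagonal]
  have hone : (1 : Matrix V V ℝ) = U * diagonal (fun _ => (1 : ℝ)) * star U := by
    rw [show diagonal (fun _ : V => (1 : ℝ)) = (1 : Matrix V V ℝ) from diagonal_one, mul_one, hUU']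
  have hsub : L - θ • (1 : Matrix V V ℝ) =
      U * diagonal (fun i => hL.eigenvalues i - θ) * star U := by
    have : diagonal (fun i => hL.eigenvalues i - θ) =
        diagonal hL.eigenvalues - θ • diagonal (fun _ : V => (1 : ℝ)) := by
      ext i j
      by_cases h : i = j
      · subst h; simp
      · simp [h]
    rw [this, mul_sub, sub_mul, mul_smul_comm, smul_mul_assoc, ← hspec, ← hone]
  have hsub' : θ • (1 : Matrix V V ℝ) - L =
      U * diagonal (fun i => θ - hL.eigenvalues i) * star U := by
    have : diagonal (fun i => θ - hL.eigenvalues i) =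
        θ • diagonal (fun _ : V => (1 : ℝ)) - diagonal hL.eigenvalues := by
      ext i j
      by_cases h : i = j
      · subst h; simp
      · simp [h]
    rw [this, mul_sub, sub_mul, mul_smul_comm, smul_mul_assoc, ← hspec, ← hone]
  have hcompl : 1 - P = U * diagonal (fun i => 1 - f i) * star U := by
    have : diagonal (fun i => 1 - f i) = diagonal (fun _ : V => (1 : ℝ)) - diagonal f := by
      ext i j
      by_cases h : i = j
      · subst h; simp
      · simp [h]
    rw [this, mul_sub, sub_mul, ← hone, hP]
  have psd : ∀ a : V → ℝ, (∀ i, 0 ≤ a i) → (U * diagonal a * star U).PosSemidef := by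
    intro a ha
    have := (PosSemidef.diagonal (R := ℝ) (d := a) ha).mul_mul_conjTranspose_same U
    rwa [← star_eq_conjTranspose] at this
  have htr : ∀ a : V → ℝ, (U * diagonal a * star U).trace = ∑ i, a i := by
    intro a
    rw [trace_mul_cycle, hUU, one_mul, trace_diagonal]
  refine ⟨P, ⟨⟨?_, ?_⟩, ?_, ?_, ?_⟩, ?_, ?_⟩
  · rw [hP, hst]
    simp only [transpose_mul, transpose_transpose, diagonal_transpose, mul_assoc]
  · rw [hP, key]; simp only [hff]
  · have hLU : L = U * diagonal hL.eigenvalues * star U := hspec
    calc P * L = (U * diagonal f * star U) * (U * diagonal hL.eigenvalues * star U) := by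
          rw [← hLU]
      _ = (U * diagonal hL.eigenvalues * star U) * (U * diagonal f * star U) := by
          rw [key, key]; simp only [mul_comm]
      _ = L * P := by rw [← hLU]
  · rw [hsub, hP, key]
    apply psd
    intro i
    simp only [hf]
    split_ifs with h
    · simp; linarith
    · simp
  · rw [hsub', hcompl, key]
    apply psd
    intro i
    simp only [hf]
    split_ifs with h
    · simp
    · simp; linarith
  · rw [hsub, hP, key, htr]
    apply Finset.sum_congr rfl
    intro i _
    simp only [hf]
    split_ifs with h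
    · rw [mul_one, max_eq_left]; linarith
    · rw [mul_zero, max_eq_right]; linarith
  · refine ⟨(univ.filter (fun i => θ < hL.eigenvalues i)).card, ?_⟩
    rw [hP, htr]
    simp [hf]

end Pool.Agent.Helper53.LE
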