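import Pool.Agent.Helper53.LE.Spec
import Pool.Agent.Helper53.LE.Fix

/-!
The shifted Laplacian of a split graph: a sharp bound for the sum of its positive
eigenvalues.
-/

namespace Pool.Agent.Helper53.LE

open Matrix Finset

variable {α β : Type*} [Fintype α] [Fintype β] [DecidableEq α] [DecidableEq β]

/-- Laplacian of the split graph (clique `α`, stable set `β`, bipartite part `B`),
minus `t` times the identity. -/
noncomputable def splitM (B : Matrix α β ℝ) (t : ℝ) : Matrix (α ⊕ β) (α ⊕ β) ℝ :=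
  fromBlocks (diagonal (fun i => ∑ j, B i j) - of fun _ _ => (1 : ℝ)) (-B) (-Bᵀ)
    (diagonal (fun j => ∑ i, B i j - t))

lemma splitM_symm (B : Matrix α β ℝ) (t : ℝ) :
    (splitM B t)ᵀ = splitM B t := by
  have h1 : (diagonal (fun i => ∑ j, B i j) - of fun _ _ => (1 : ℝ) : Matrix α α ℝ)ᵀ =
      diagonal (fun i => ∑ j, B i j) - of fun _ _ => (1 : ℝ) := by
    rw [transpose_sub, diagonal_transpose]; rfl
  have h2 : (diagonal (fun j => ∑ i, B i j - t) : Matrix β β ℝ)ᵀ =
      diagonal (fun j => ∑ i, B i j - t) := diagonal_transpose _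
  unfold splitM
  rw [fromBlocks_transpose, h1, h2, transpose_neg, transpose_neg, transpose_transpose]

lemma splitM_qf (B : Matrix α β ℝ) (t : ℝ) (y : α ⊕ β → ℝ) :
    y ⬝ᵥ (splitM B t *ᵥ y) = -(∑ i, y (Sum.inl i)) ^ 2
      + ∑ i, ∑ j, B i j * (y (Sum.inl i) - y (Sum.inr j)) ^ 2
      - t * ∑ j, y (Sum.inr j) ^ 2 := by
  have hl : ∀ i, (splitM B t *ᵥ y) (Sum.inl i) =
      (∑ j, B i j) * y (Sum.inl i) - ∑ i', y (Sum.inl i') - ∑ j, B i j * y (Sum.inr j) := by
    intro i
    simp only [splitM, mulVec, dotProduct, Fintype.sum_sum_type, fromBlocks_apply₁₁,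
      fromBlocks_apply₁₂, Matrix.sub_apply, of_apply, Matrix.neg_apply, sub_mul, one_mul, neg_mul,
      Finset.sum_sub_distrib, Finset.sum_neg_distrib]
    have : ∑ x, diagonal (fun i => ∑ j, B i j) i x * y (Sum.inl x) =
        (∑ j, B i j) * y (Sum.inl i) := by
      rw [Finset.sum_eq_single i]
      · simp
      · intro b _ hb; rw [diagonal_apply_ne _ (Ne.symm hb), zero_mul]
      · simp
    rw [this]; ring
  have hr : ∀ j, (splitM B t *ᵥ y) (Sum.inr j) =
      (∑ i, B i j - t) * y (Sum.inr j) - ∑ i, B i j * y (Sum.inl i) := by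
    intro j
    simp only [splitM, mulVec, dotProduct, Fintype.sum_sum_type, fromBlocks_apply₂₁,
      fromBlocks_apply₂₂, Matrix.neg_apply, transpose_apply, neg_mul, Finset.sum_neg_distrib]
    have : ∑ x, diagonal (fun j => ∑ i, B i j - t) j x * y (Sum.inr x) =
        (∑ i, B i j - t) * y (Sum.inr j) := by
      rw [Finset.sum_eq_single j]
      · simp
      · intro b _ hb; rw [diagonal_apply_ne _ (Ne.symm hb), zero_mul]
      · simp
    rw [this]; ring
  simp only [dotProduct, Fintype.sum_sum_type, hl, hr]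
  have e1 : ∑ i, y (Sum.inl i) * ((∑ j, B i j) * y (Sum.inl i) - ∑ i', y (Sum.inl i')
      - ∑ j, B i j * y (Sum.inr j)) =
      ∑ i, ∑ j, B i j * y (Sum.inl i) ^ 2 - (∑ i, y (Sum.inl i)) ^ 2
        - ∑ i, ∑ j, B i j * (y (Sum.inl i) * y (Sum.inr j)) := by
    have : ∀ i, y (Sum.inl i) * ((∑ j, B i j) * y (Sum.inl i) - ∑ i', y (Sum.inl i')
      - ∑ j, B i j * y (Sum.inr j)) = ∑ j, B i j * y (Sum.inl i) ^ 2
        - y (Sum.inl i) * (∑ i', y (Sum.inl i')) - ∑ j, B i j * (y (Sum.inl i) * y (Sum.inr j)) := by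
      intro i
      rw [mul_sub, mul_sub, Finset.mul_sum (s := univ) (f := fun j => B i j * y (Sum.inr j)),
        ← Finset.sum_mul]
      congr 1
      · ring
      · refine Finset.sum_congr rfl fun j _ => by ring
    simp only [this]
    rw [Finset.sum_sub_distrib, Finset.sum_sub_distrib, ← Finset.sum_mul]
    ring
  have e2 : ∑ j, y (Sum.inr j) * ((∑ i, B i j - t) * y (Sum.inr j) - ∑ i, B i j * y (Sum.inl i)) =
      ∑ i, ∑ j, B i j * y (Sum.inr j) ^ 2 - t * ∑ j, y (Sum.inr j) ^ 2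
        - ∑ i, ∑ j, B i j * (y (Sum.inl i) * y (Sum.inr j)) := by
    have : ∀ j, y (Sum.inr j) * ((∑ i, B i j - t) * y (Sum.inr j) - ∑ i, B i j * y (Sum.inl i)) =
        ∑ i, B i j * y (Sum.inr j) ^ 2 - t * y (Sum.inr j) ^ 2
          - ∑ i, B i j * (y (Sum.inl i) * y (Sum.inr j)) := by
      intro j
      rw [mul_sub, Finset.mul_sum (s := univ) (f := fun i => B i j * y (Sum.inl i)),
        ← Finset.sum_mul]
      congr 1
      · ring
      · refine Finset.sum_congr rfl fun i _ => by ring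
    simp only [this]
    rw [Finset.sum_sub_distrib, Finset.sum_sub_distrib, ← Finset.mul_sum, Finset.sum_comm,
      Finset.sum_comm (f := fun j i => B i j * (y (Sum.inl i) * y (Sum.inr j)))]
  rw [e1, e2]
  have e3 : ∑ i, ∑ j, B i j * (y (Sum.inl i) - y (Sum.inr j)) ^ 2 =
      ∑ i, ∑ j, B i j * y (Sum.inl i) ^ 2 + ∑ i, ∑ j, B i j * y (Sum.inr j) ^ 2
        - 2 * ∑ i, ∑ j, B i j * (y (Sum.inl i) * y (Sum.inr j)) := by
    rw [Finset.mul_sum, ← Finset.sum_add_distrib, ← Finset.sum_sub_distrib]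
    refine Finset.sum_congr rfl fun i _ => ?_
    rw [Finset.mul_sum, ← Finset.sum_add_distrib, ← Finset.sum_sub_distrib]
    refine Finset.sum_congr rfl fun j _ => by ring
  rw [e3]; ring

end Pool.Agent.Helper53.LE
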