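import Pool.Agent.Helper53.LE.Split

/-!
The main bound for split graphs.
-/

namespace Pool.Agent.Helper53.LE

open Matrix Finset

variable {α β : Type*} [Fintype α] [Fintype β] [DecidableEq α] [DecidableEq β]

/-- negativity on the range of `(-W; 1)` -/
lemma split_neg {B W : Matrix α β ℝ} (hB : ∀ i j, 0 ≤ B i j)
    {t g : ℝ} (hg : 0 < g) (hgt : g ≤ t)
    (hd : ∀ j, ∑ i, B i j ≤ t - g)
    (he2 : 24 * t * Fintype.card β * (∑ i, ∑ j, B i j) ≤ g ^ 4)
    (hW0 : ∀ i j, 0 ≤ W i j) (hW1 : ∀ i j, W i j ≤ 2 / g)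
    (y : α ⊕ β → ℝ) (hy : ∀ i, y (Sum.inl i) = - ∑ j, W i j * y (Sum.inr j)) :
    y ⬝ᵥ (splitM B t *ᵥ y) ≤ 0 := by
  rw [splitM_qf]
  set e : ℝ := ∑ i, ∑ j, B i j with hedef
  set s : ℝ := ∑ j, y (Sum.inr j) ^ 2 with hs
  set N : ℝ := ((Fintype.card β : ℕ) : ℝ) with hN
  have hs0 : 0 ≤ s := Finset.sum_nonneg fun _ _ => sq_nonneg _
  have hN0 : 0 ≤ N := by positivity
  have ht0 : 0 < t := lt_of_lt_of_le hg hgt
  have he0 : 0 ≤ e := Finset.sum_nonneg fun _ _ => Finset.sum_nonneg fun _ _ => hB _ _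
  have hx : ∀ i, y (Sum.inl i) ^ 2 ≤ N * (2 / g) ^ 2 * s := by
    intro i
    rw [hy, neg_sq]
    have h1 := Finset.sum_mul_sq_le_sq_mul_sq univ (fun j => W i j) (fun j => y (Sum.inr j))
    have h2 : ∑ j, W i j ^ 2 ≤ N * (2 / g) ^ 2 := by
      calc ∑ j, W i j ^ 2 ≤ ∑ _j : β, (2 / g) ^ 2 :=
            Finset.sum_le_sum fun j _ => pow_le_pow_left₀ (hW0 i j) (hW1 i j) 2
        _ = N * (2 / g) ^ 2 := by simp [hN]
    calc (∑ j, W i j * y (Sum.inr j)) ^ 2 ≤ (∑ j, W i j ^ 2) * s := h1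
      _ ≤ _ := mul_le_mul_of_nonneg_right h2 hs0
  set κ : ℝ := g / (2 * t) with hκ
  have hκ0 : 0 < κ := by positivity
  have hpt : ∀ i j, B i j * (y (Sum.inl i) - y (Sum.inr j)) ^ 2 ≤
      (1 + κ) * (B i j * y (Sum.inr j) ^ 2) + B i j * ((1 + 1 / κ) * (N * (2 / g) ^ 2 * s)) := by
    intro i j
    have h1 : (y (Sum.inl i) - y (Sum.inr j)) ^ 2 ≤
        (1 + κ) * y (Sum.inr j) ^ 2 + (1 + 1 / κ) * y (Sum.inl i) ^ 2 := by
      have h3 : 0 ≤ (κ * y (Sum.inr j) + y (Sum.inl i)) ^ 2 / κ := by positivity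
      have h4 : (κ * y (Sum.inr j) + y (Sum.inl i)) ^ 2 / κ =
          κ * y (Sum.inr j) ^ 2 + 2 * y (Sum.inr j) * y (Sum.inl i) + 1 / κ * y (Sum.inl i) ^ 2 := by
        field_simp
        ring
      rw [h4] at h3
      linarith
    have h2 : (1 + 1 / κ) * y (Sum.inl i) ^ 2 ≤ (1 + 1 / κ) * (N * (2 / g) ^ 2 * s) :=
      mul_le_mul_of_nonneg_left (hx i) (by positivity)
    calc B i j * (y (Sum.inl i) - y (Sum.inr j)) ^ 2
        ≤ B i j * ((1 + κ) * y (Sum.inr j) ^ 2 + (1 + 1 / κ) * (N * (2 / g) ^ 2 * s)) :=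
          mul_le_mul_of_nonneg_left (by linarith) (hB i j)
      _ = _ := by ring
  have hsum : ∑ i, ∑ j, B i j * (y (Sum.inl i) - y (Sum.inr j)) ^ 2 ≤
      (1 + κ) * ((t - g) * s) + e * ((1 + 1 / κ) * (N * (2 / g) ^ 2 * s)) := by
    calc ∑ i, ∑ j, B i j * (y (Sum.inl i) - y (Sum.inr j)) ^ 2
        ≤ ∑ i, ∑ j, ((1 + κ) * (B i j * y (Sum.inr j) ^ 2)
            + B i j * ((1 + 1 / κ) * (N * (2 / g) ^ 2 * s))) :=
          Finset.sum_le_sum fun i _ => Finset.sum_le_sum fun j _ => hpt i j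
      _ = (1 + κ) * (∑ i, ∑ j, B i j * y (Sum.inr j) ^ 2)
            + e * ((1 + 1 / κ) * (N * (2 / g) ^ 2 * s)) := by
          simp only [Finset.sum_add_distrib, ← Finset.mul_sum, ← Finset.sum_mul]
          rfl
      _ ≤ _ := by
          have h5 : ∑ i, ∑ j, B i j * y (Sum.inr j) ^ 2 ≤ (t - g) * s := by
            rw [Finset.sum_comm, hs, Finset.mul_sum]
            refine Finset.sum_le_sum fun j _ => ?_
            rw [← Finset.sum_mul]
            exact mul_le_mul_of_nonneg_right (hd j) (sq_nonneg _)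
          have := mul_le_mul_of_nonneg_left h5 (by positivity : 0 ≤ 1 + κ)
          linarith
  have hcoef : (1 + κ) * (t - g) + e * ((1 + 1 / κ) * (N * (2 / g) ^ 2)) ≤ t := by
    have h6 : (1 + κ) * (t - g) ≤ t - g / 2 := by
      have : κ * t = g / 2 := by rw [hκ]; field_simp
      nlinarith
    have h7 : e * ((1 + 1 / κ) * (N * (2 / g) ^ 2)) ≤ g / 2 := by
      have h8 : 1 + 1 / κ ≤ 3 * t / g := by
        rw [hκ]
        have : 1 / (g / (2 * t)) = 2 * t / g := by field_simp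
        rw [this, ← sub_nonneg]
        have : 3 * t / g - (1 + 2 * t / g) = (t - g) / g := by field_simp; ring
        rw [this]
        apply div_nonneg _ hg.le
        linarith
      calc e * ((1 + 1 / κ) * (N * (2 / g) ^ 2)) ≤ e * ((3 * t / g) * (N * (2 / g) ^ 2)) := by
            apply mul_le_mul_of_nonneg_left _ he0
            exact mul_le_mul_of_nonneg_right h8 (by positivity)
        _ = (24 * t * N * e) / (2 * g ^ 3) := by field_simp; ring
        _ ≤ g ^ 4 / (2 * g ^ 3) := by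
            apply div_le_div_of_nonneg_right he2 (by positivity)
        _ = g / 2 := by field_simp
    linarith
  have hfin : (1 + κ) * ((t - g) * s) + e * ((1 + 1 / κ) * (N * (2 / g) ^ 2 * s)) ≤ t * s := by
    have := mul_le_mul_of_nonneg_right hcoef hs0
    calc (1 + κ) * ((t - g) * s) + e * ((1 + 1 / κ) * (N * (2 / g) ^ 2 * s))
        = ((1 + κ) * (t - g) + e * ((1 + 1 / κ) * (N * (2 / g) ^ 2))) * s := by ring
      _ ≤ t * s := this
  have hsq := sq_nonneg (∑ i, y (Sum.inl i))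
  linarith

theorem split_main {B : Matrix α β ℝ} (hB : ∀ i j, 0 ≤ B i j) (hB1 : ∀ i j, B i j ≤ 1)
    {t g : ℝ} (ht : t = Fintype.card α) (hg : 0 < g) (hgt : g ≤ t)
    (hd : ∀ j, ∑ i, B i j ≤ t - g)
    (he : 4 * (∑ i, ∑ j, B i j) ≤ g ^ 2)
    (he2 : 24 * t * Fintype.card β * (∑ i, ∑ j, B i j) ≤ g ^ 4)
    {P : Matrix (α ⊕ β) (α ⊕ β) ℝ} (hP : IsProj P) :
    (splitM B t * P).trace ≤ ∑ i, ∑ j, B i j := by
  classical
  have ht0 : 0 < t := lt_of_lt_of_le hg hgt
  have hDb : ∀ i j, g ≤ t + ∑ j', B i j' - ∑ i', B i' j := by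
    intro i j
    have h1 := hd j
    have h2 : 0 ≤ ∑ j', B i j' := Finset.sum_nonneg fun _ _ => hB _ _
    linarith
  obtain ⟨W, hW0, hW1, hW⟩ := exists_fix hB hB1 hg hDb he
  have hcol := colsum_eq_one hB ht hg hd he hW0 hW1 hW
  set e : ℝ := ∑ i, ∑ j, B i j with hedef
  set M := splitM B t with hM
  set E : Matrix (α ⊕ β) β ℝ := fromRows (-W) 1 with hE
  have hMs : Mᵀ = M := splitM_symm B t
  set Λ : Matrix β β ℝ := Bᵀ * W + diagonal (fun j => ∑ i, B i j - t) with hΛ
  have hME : M * E = E * Λ := by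
    rw [hM, hE, splitM, fromBlocks_mul_fromRows, fromRows_mul]
    congr 1
    · ext i j
      have h1 : ((diagonal (fun i => ∑ j, B i j) - of fun _ _ => (1 : ℝ) : Matrix α α ℝ) * -W) i j =
          ∑ k, W k j - (∑ j', B i j') * W i j := by
        rw [Matrix.mul_apply]
        simp only [Matrix.sub_apply, of_apply, Matrix.neg_apply, mul_neg, sub_mul, one_mul,
          Finset.sum_neg_distrib, Finset.sum_sub_distrib]
        have : ∑ x, diagonal (fun i => ∑ j, B i j) i x * W x j = (∑ j', B i j') * W i j := by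
          rw [Finset.sum_eq_single i]
          · simp
          · intro b _ hb; rw [diagonal_apply_ne _ (Ne.symm hb), zero_mul]
          · simp
        rw [this]; ring
      have h2 : (W * Λ) i j = quad B W i j + W i j * (∑ i', B i' j - t) := by
        rw [hΛ, Matrix.mul_add, Matrix.add_apply, ← Matrix.mul_assoc, quad_eq, mul_diagonal]
      rw [Matrix.add_apply, h1, Matrix.mul_one, Matrix.neg_apply, Matrix.neg_mul, Matrix.neg_apply, h2,
        hcol j]
      have := hW i j
      linarith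
    · rw [Matrix.one_mul, Matrix.mul_one, hΛ, Matrix.neg_mul, Matrix.mul_neg, neg_neg]
  have hΓ : Eᵀ * E = 1 + Wᵀ * W := by
    rw [hE, transpose_fromRows, fromCols_mul_fromRows, transpose_neg, Matrix.neg_mul,
      Matrix.mul_neg, neg_neg, transpose_one, Matrix.one_mul, add_comm]
  set Γ := Eᵀ * E with hΓd
  have hpd : Γ.PosDef := by
    rw [hΓ, ← conjTranspose_eq_transpose_of_trivial]
    exact PosDef.one.add_posSemidef (posSemidef_conjTranspose_mul_self W)
  have hunit : IsUnit Γ.det := (Matrix.isUnit_iff_isUnit_det _).mp hpd.isUnit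
  set G := Γ⁻¹ with hGd
  have hG1 : Γ * G = 1 := mul_nonsing_inv _ hunit
  have hG2 : G * Γ = 1 := nonsing_inv_mul _ hunit
  have hΓs : Γᵀ = Γ := by rw [hΓd, transpose_mul, transpose_transpose]
  have hGs : Gᵀ = G := by rw [hGd, transpose_nonsing_inv, hΓs]
  have hEM : Eᵀ * M = Λᵀ * Eᵀ := by
    rw [← hMs, ← transpose_mul, hME, transpose_mul]
  -- the all-one projection
  set n : ℝ := ((Fintype.card (α ⊕ β) : ℕ) : ℝ) with hn
  have hn0 : 0 < n := by
    rw [hn, Fintype.card_sum]; push_cast; rw [← ht]; positivity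
  set J : Matrix (α ⊕ β) (α ⊕ β) ℝ := of fun _ _ => 1 / n with hJ
  have hJs : Jᵀ = J := rfl
  have hJJ : J * J = J := by
    ext i j
    rw [Matrix.mul_apply]
    simp only [hJ, of_apply, Finset.sum_const, Finset.card_univ, nsmul_eq_mul]
    rw [← hn]; field_simp
  have hEJ : Eᵀ * J = 0 := by
    ext i j
    rw [Matrix.mul_apply]
    simp only [hE, transpose_apply, Fintype.sum_sum_type, fromRows_apply_inl, fromRows_apply_inr,
      hJ, of_apply, Matrix.neg_apply, ← Finset.sum_mul, Finset.sum_neg_distrib, hcol i,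
      Matrix.zero_apply]
    have h1 : ∑ a, (1 : Matrix β β ℝ) a i = 1 := by
      rw [Finset.sum_eq_single i]
      · simp
      · intro b _ hb; rw [one_apply_ne hb]
      · simp
    rw [h1]
    ring
  have hJE : J * E = 0 := by
    have := congrArg transpose hEJ
    rwa [transpose_mul, transpose_transpose, hJs, transpose_zero] at this
  have hMJ : M * J = (-t) • J := by
    ext x y
    rw [Matrix.mul_apply]
    simp only [hJ, of_apply, Matrix.smul_apply, smul_eq_mul, ← Finset.sum_mul]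
    congr 1
    rcases x with i | j
    · simp only [hM, splitM, Fintype.sum_sum_type, fromBlocks_apply₁₁, fromBlocks_apply₁₂,
        Matrix.sub_apply, of_apply, Matrix.neg_apply, Finset.sum_sub_distrib,
        Finset.sum_neg_distrib]
      have h1 : ∑ x, diagonal (fun i => ∑ j, B i j) i x = ∑ j, B i j := by
        rw [Finset.sum_eq_single i]
        · simp
        · intro b _ hb; rw [diagonal_apply_ne _ (Ne.symm hb)]
        · simp
      rw [h1]
      simp only [Finset.sum_const, Finset.card_univ, nsmul_eq_mul, mul_one, ← ht]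
      ring
    · simp only [hM, splitM, Fintype.sum_sum_type, fromBlocks_apply₂₁, fromBlocks_apply₂₂,
        Matrix.neg_apply, transpose_apply, Finset.sum_neg_distrib]
      have h1 : ∑ x, diagonal (fun j => ∑ i, B i j - t) j x = ∑ i, B i j - t := by
        rw [Finset.sum_eq_single j]
        · simp
        · intro b _ hb; rw [diagonal_apply_ne _ (Ne.symm hb)]
        · simp
      rw [h1]
      ring
  have hJM : J * M = (-t) • J := by
    have := congrArg transpose hMJ
    rwa [transpose_mul, hMs, hJs, transpose_smul, hJs] at this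
  -- the projection R
  set R : Matrix (α ⊕ β) (α ⊕ β) ℝ := E * G * Eᵀ + J with hR
  have hRs : Rᵀ = R := by
    rw [hR, transpose_add, transpose_mul, transpose_mul, transpose_transpose, hGs, hJs,
      ← Matrix.mul_assoc]
  have hER : Eᵀ * R = Eᵀ := by
    rw [hR, Matrix.mul_add, hEJ, add_zero, ← Matrix.mul_assoc, ← Matrix.mul_assoc, ← hΓd, hG1,
      Matrix.one_mul]
  have hJR : J * R = J := by
    rw [hR, mul_add, hJJ, ← Matrix.mul_assoc, ← Matrix.mul_assoc, hJE, Matrix.zero_mul,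
      Matrix.zero_mul, zero_add]
  have hRR : R * R = R := by
    calc R * R = E * G * (Eᵀ * R) + J * R := by
          conv_lhs => rw [hR, add_mul, ← hR]
          rw [Matrix.mul_assoc]
      _ = R := by rw [hER, hJR]
  have hMR : M * R = E * Λ * G * Eᵀ + (-t) • J := by
    rw [hR, mul_add, hMJ, ← Matrix.mul_assoc, ← Matrix.mul_assoc, hME]
  have hΛG : Λ * G = G * Λᵀ := by
    have h1 : Γ * Λ = Λᵀ * Γ := by
      rw [hΓd, Matrix.mul_assoc, ← hME, ← Matrix.mul_assoc, hEM, Matrix.mul_assoc]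
    calc Λ * G = (G * Γ) * Λ * G := by rw [hG2, one_mul]
      _ = G * (Γ * Λ) * G := by rw [Matrix.mul_assoc G Γ Λ]
      _ = G * (Λᵀ * Γ) * G := by rw [h1]
      _ = G * Λᵀ * (Γ * G) := by simp only [Matrix.mul_assoc]
      _ = G * Λᵀ := by rw [hG1, mul_one]
  have hRM : R * M = M * R := by
    rw [hMR, hR, add_mul, hJM, Matrix.mul_assoc (E * G) Eᵀ M, hEM]
    congr 1
    calc E * G * (Λᵀ * Eᵀ) = E * (G * Λᵀ) * Eᵀ := by simp only [Matrix.mul_assoc]
      _ = E * (Λ * G) * Eᵀ := by rw [hΛG]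
      _ = E * Λ * G * Eᵀ := by simp only [Matrix.mul_assoc]
  -- negativity on range of E
  have hneg : ∀ ζ : β → ℝ, (E *ᵥ ζ) ⬝ᵥ (M *ᵥ (E *ᵥ ζ)) ≤ 0 := by
    intro ζ
    apply split_neg hB hg hgt hd he2 hW0 hW1
    intro i
    have h1 : ∀ j, (E *ᵥ ζ) (Sum.inr j) = ζ j := by
      intro j
      rw [hE, fromRows_mulVec, Sum.elim_inr, one_mulVec]
    have h2 : ∀ i, (E *ᵥ ζ) (Sum.inl i) = - ∑ j, W i j * ζ j := by
      intro i
      rw [hE, fromRows_mulVec, Sum.elim_inl, neg_mulVec]; rfl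
    simp only [h1, h2]
  -- positivity on the complement
  have hpos : ∀ y : α ⊕ β → ℝ, Eᵀ *ᵥ y = 0 → ∑ x, y x = 0 → 0 ≤ y ⬝ᵥ (M *ᵥ y) := by
    intro y hy1 hy2
    set η : β → ℝ := fun j => y (Sum.inr j) with hη
    have h1 : ∀ j, η j = ∑ i, W i j * y (Sum.inl i) := by
      intro j
      have := congrFun hy1 j
      simp only [hE, mulVec, dotProduct, Fintype.sum_sum_type, transpose_apply,
        fromRows_apply_inl, fromRows_apply_inr, Matrix.neg_apply, neg_mul, Finset.sum_neg_distrib,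
        Pi.zero_apply] at this
      rw [Finset.sum_eq_single j (f := fun x => (1 : Matrix β β ℝ) x j * y (Sum.inr x))] at this
      · simp only [one_apply_eq, one_mul] at this
        show y (Sum.inr j) = _
        linarith
      · intro b _ hb; rw [one_apply_ne hb, zero_mul]
      · simp
    set z : α ⊕ β → ℝ := y - E *ᵥ η with hz
    have hzr : ∀ j, z (Sum.inr j) = 0 := by
      intro j
      simp only [hz, hE, Pi.sub_apply, fromRows_mulVec, Sum.elim_inr, one_mulVec, hη, sub_self]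
    have hzl : ∀ i, z (Sum.inl i) = y (Sum.inl i) + ∑ j, W i j * η j := by
      intro i
      simp only [hz, hE, Pi.sub_apply, fromRows_mulVec, Sum.elim_inl, neg_mulVec, Pi.neg_apply,
        sub_neg_eq_add, mulVec, dotProduct]
    have hzs : ∑ i, z (Sum.inl i) = 0 := by
      simp only [hzl, Finset.sum_add_distrib]
      rw [Finset.sum_comm]
      simp only [← Finset.sum_mul, hcol, one_mul]
      rw [Fintype.sum_sum_type] at hy2
      exact hy2
    have hzz : 0 ≤ z ⬝ᵥ (M *ᵥ z) := by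
      rw [hM, splitM_qf, hzs]
      simp only [hzr, sub_zero]
      have : 0 ≤ ∑ i, ∑ j, B i j * z (Sum.inl i) ^ 2 :=
        Finset.sum_nonneg fun i _ => Finset.sum_nonneg fun j _ => mul_nonneg (hB i j) (sq_nonneg _)
      simpa using this
    have hcross : y ⬝ᵥ (M *ᵥ (E *ᵥ η)) = 0 := by
      rw [mulVec_mulVec, hME, ← mulVec_mulVec, dotProduct_mulVec, ← mulVec_transpose, hy1,
        zero_dotProduct]
    have hcross' : (E *ᵥ η) ⬝ᵥ (M *ᵥ y) = 0 := by
      rw [dotProduct_mulVec, ← mulVec_transpose, hMs, dotProduct_comm]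
      exact hcross
    have hexp : z ⬝ᵥ (M *ᵥ z) = y ⬝ᵥ (M *ᵥ y) + (E *ᵥ η) ⬝ᵥ (M *ᵥ (E *ᵥ η)) := by
      rw [hz, mulVec_sub, sub_dotProduct, dotProduct_sub, dotProduct_sub, hcross, hcross']
      ring
    have := hneg η
    linarith
  -- N = M (1 - R) is positive semidefinite
  have hN1 : M * (1 - R) = (1 - R) * M * (1 - R) := by
    have : (1 - R) * M * (1 - R) = M * (1 - R) - R * (M * (1 - R)) := by
      rw [sub_mul, one_mul, sub_mul, Matrix.mul_assoc]
    rw [this, ← Matrix.mul_assoc, hRM, Matrix.mul_assoc, mul_sub R 1 R, mul_one, hRR, sub_self,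
      Matrix.mul_zero, sub_zero]
  have hR1s : (1 - R)ᵀ = 1 - R := by rw [transpose_sub, transpose_one, hRs]
  have hNpsd : (M * (1 - R)).PosSemidef := by
    rw [hN1]
    refine PosSemidef.of_dotProduct_mulVec_nonneg ?_ ?_
    · rw [IsHermitian, conjTranspose_eq_transpose_of_trivial, transpose_mul, transpose_mul, hR1s,
        hMs, Matrix.mul_assoc]
    · intro y
      have h1 : star y ⬝ᵥ ((1 - R) * M * (1 - R)) *ᵥ y =
          ((1 - R) *ᵥ y) ⬝ᵥ (M *ᵥ ((1 - R) *ᵥ y)) := by
        rw [star_trivial, ← mulVec_mulVec, ← mulVec_mulVec, dotProduct_mulVec, ← mulVec_transpose,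
          hR1s]
      rw [h1]
      apply hpos
      · rw [mulVec_mulVec, Matrix.mul_sub, Matrix.mul_one, hER, sub_self, zero_mulVec]
      · have h2 : J *ᵥ ((1 - R) *ᵥ y) = 0 := by
          rw [mulVec_mulVec, mul_sub, mul_one, hJR, sub_self, zero_mulVec]
        have hne : Nonempty (α ⊕ β) := by
          by_contra hcon
          rw [not_nonempty_iff] at hcon
          have : n = 0 := by rw [hn]; simp
          linarith
        obtain ⟨x0⟩ := hne
        have h3 := congrFun h2 x0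
        simp only [hJ, mulVec, dotProduct, of_apply, Pi.zero_apply, ← Finset.mul_sum] at h3
        have h4 : (1 / n) ≠ 0 := by positivity
        exact (mul_eq_zero.mp h3).resolve_left h4
  have hnR : (-(M * R)).PosSemidef := by
    have h0 : -(M * R) = R * (-M) * R := by
      rw [mul_neg, neg_mul, hRM, Matrix.mul_assoc, hRR]
    rw [h0]
    refine PosSemidef.of_dotProduct_mulVec_nonneg ?_ ?_
    · rw [IsHermitian, conjTranspose_eq_transpose_of_trivial, transpose_mul, transpose_mul, hRs,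
        transpose_neg, hMs, Matrix.mul_assoc]
    · intro y
      have h1 : star y ⬝ᵥ (R * (-M) * R) *ᵥ y = - ((R *ᵥ y) ⬝ᵥ (M *ᵥ (R *ᵥ y))) := by
        rw [star_trivial, ← mulVec_mulVec, ← mulVec_mulVec, dotProduct_mulVec, ← mulVec_transpose,
          hRs, neg_mulVec, dotProduct_neg]
      rw [h1]
      set ζ : β → ℝ := (G * Eᵀ) *ᵥ y with hζ
      have h2 : R *ᵥ y = E *ᵥ ζ + J *ᵥ y := by
        rw [hR, add_mulVec, hζ, mulVec_mulVec, ← Matrix.mul_assoc]
      have h3 : (E *ᵥ ζ) ⬝ᵥ (M *ᵥ (J *ᵥ y)) = 0 := by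
        have h8 : M *ᵥ (J *ᵥ y) = (-t) • (J *ᵥ y) := by
          rw [mulVec_mulVec, hMJ, smul_mulVec]
        have h9 : J *ᵥ (E *ᵥ ζ) = 0 := by rw [mulVec_mulVec, hJE, zero_mulVec]
        rw [h8, dotProduct_smul, dotProduct_mulVec, ← mulVec_transpose, hJs, h9, zero_dotProduct,
          smul_zero]
      have h4 : (J *ᵥ y) ⬝ᵥ (M *ᵥ (E *ᵥ ζ)) = 0 := by
        rw [dotProduct_mulVec, ← mulVec_transpose, hMs, dotProduct_comm]
        exact h3
      have h5 : (J *ᵥ y) ⬝ᵥ (M *ᵥ (J *ᵥ y)) = - t * ((J *ᵥ y) ⬝ᵥ (J *ᵥ y)) := by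
        have h8 : M *ᵥ (J *ᵥ y) = (-t) • (J *ᵥ y) := by
          rw [mulVec_mulVec, hMJ, smul_mulVec]
        rw [h8, dotProduct_smul, smul_eq_mul]
      have h6 : 0 ≤ (J *ᵥ y) ⬝ᵥ (J *ᵥ y) := by
        rw [dotProduct]; exact Finset.sum_nonneg fun _ _ => mul_self_nonneg _
      have h7 := hneg ζ
      rw [h2, mulVec_add, add_dotProduct, dotProduct_add, dotProduct_add, h3, h4, h5]
      nlinarith
  -- traces
  have hWB : 0 ≤ (Bᵀ * W).trace := by
    rw [Matrix.trace]
    refine Finset.sum_nonneg fun j _ => ?_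
    rw [diag_apply, Matrix.mul_apply]
    exact Finset.sum_nonneg fun i _ => mul_nonneg (hB _ _) (hW0 _ _)
  have htJ : J.trace = 1 := by
    rw [Matrix.trace]
    simp only [hJ, diag_apply, of_apply, Finset.sum_const, Finset.card_univ, nsmul_eq_mul]
    rw [← hn]; field_simp
  have htMR : (M * R).trace = Λ.trace - t := by
    rw [hMR, trace_add, trace_smul, htJ, smul_eq_mul, mul_one, Matrix.trace_mul_comm]
    congr 1
    rw [← Matrix.mul_assoc, ← Matrix.mul_assoc, ← hΓd, Matrix.mul_assoc, Matrix.trace_mul_comm,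
      Matrix.mul_assoc, hG2, mul_one]
  have htM : M.trace = 2 * e - t - t * Fintype.card β := by
    have h1 : ∑ j, ∑ i, B i j = e := by rw [Finset.sum_comm]
    rw [Matrix.trace]
    simp only [hM, splitM, diag_apply, Fintype.sum_sum_type, fromBlocks_apply₁₁,
      fromBlocks_apply₂₂, Matrix.sub_apply, of_apply, diagonal_apply_eq, Finset.sum_sub_distrib,
      Finset.sum_const, Finset.card_univ, nsmul_eq_mul, mul_one, ← ht]
    rw [h1, ← hedef]; ring
  have htΛ : Λ.trace = (Bᵀ * W).trace + e - t * Fintype.card β := by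
    have h1 : ∑ j, ∑ i, B i j = e := by rw [Finset.sum_comm]
    rw [hΛ, Matrix.trace_add, Matrix.trace_diagonal, Finset.sum_sub_distrib, h1]
    simp only [Finset.sum_const, Finset.card_univ, nsmul_eq_mul]
    ring
  have h1 := trace_mul_proj_nonneg hNpsd hP.compl
  have h2 := trace_mul_proj_nonneg hnR hP
  have e1 : (M * (1 - R) * (1 - P)).trace =
      M.trace - (M * R).trace - (M * P).trace + (M * R * P).trace := by
    have : M * (1 - R) * (1 - P) = M - M * R - M * P + M * R * P := by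
      rw [mul_sub, mul_one, mul_sub, mul_one, sub_mul]; abel
    rw [this, trace_add, trace_sub, trace_sub]
  have e2 : (-(M * R) * P).trace = - (M * R * P).trace := by
    rw [neg_mul, trace_neg]
  rw [e1] at h1
  rw [e2] at h2
  linarith

end Pool.Agent.Helper53.LE
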