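import Pool.Agent.Helper53.LE.Compare
import Pool.Agent.Helper53.LE.RealCore

/-!
Stability: structure of graphs whose sum of large Laplacian eigenvalues is nearly maximal.
-/

namespace Pool.Agent.Helper53.LE

open Matrix Finset

variable {V : Type*} [Fintype V] [DecidableEq V]

lemma dg_nonneg {A : Matrix V V ℝ} (hA : IsGr A) (i : V) : 0 ≤ dg A i :=
  Finset.sum_nonneg fun _ _ => hA.nonneg _ _

lemma dg_le {A : Matrix V V ℝ} (hA : IsGr A) (i : V) : dg A i ≤ Fintype.card V := by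
  unfold dg
  calc ∑ j, A i j ≤ ∑ _j : V, (1 : ℝ) := Finset.sum_le_sum fun j _ => hA.le_one i j
    _ = _ := by simp

lemma spec_hi {A P : Matrix V V ℝ} (hA : IsGr A) {θ : ℝ} (hS : IsSpec (lap A) P θ) (i : V)
    {a : ℝ} (ha : 0 < a) (hi : θ + a ≤ dg A i) : a ^ 2 * (1 - P i i) ≤ dg A i := by
  set Q := 1 - P with hQ
  have hQP : IsProj Q := hS.proj.compl
  have h1 : 0 ≤ ((θ • (1 : Matrix V V ℝ) - lap A) * Q) i i := hS.neg.diag_nonneg
  have h2 : ((θ • (1 : Matrix V V ℝ) - lap A) * Q) i i =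
      (θ - dg A i) * Q i i + ∑ j, A i j * Q i j := by
    have e : θ • (1 : Matrix V V ℝ) - lap A = diagonal (fun k => θ - dg A k) + A := by
      unfold lap
      ext a b
      by_cases hab : a = b
      · subst hab; simp; ring
      · simp [hab]
    rw [e, add_mul, Matrix.add_apply, diagonal_mul, Matrix.mul_apply]
    congr 1
    refine Finset.sum_congr rfl fun j _ => ?_
    rw [hQP.apply_symm j i]
  have h3 := Finset.sum_mul_sq_le_sq_mul_sq univ (fun j => A i j) (fun j => Q i j)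
  have h4 : ∑ j, A i j ^ 2 = dg A i := Finset.sum_congr rfl fun j _ => hA.sq i j
  rw [h4, hQP.sum_sq i] at h3
  have h5 : Q i i = 1 - P i i := by rw [hQ, Matrix.sub_apply, one_apply_eq]
  rw [← h5]
  have hq0 := hQP.diag_nonneg i
  have h6 : a * Q i i ≤ ∑ j, A i j * Q i j := by
    rw [h2] at h1
    have : a * Q i i ≤ (dg A i - θ) * Q i i := mul_le_mul_of_nonneg_right (by linarith) hq0
    linarith
  have h7 : (a * Q i i) ^ 2 ≤ dg A i * Q i i :=
    (pow_le_pow_left₀ (mul_nonneg ha.le hq0) h6 2).trans h3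
  rcases hq0.eq_or_lt with h | h
  · rw [← h, mul_zero]; exact dg_nonneg hA i
  · have : (a ^ 2 * Q i i) * Q i i ≤ dg A i * Q i i := by linarith
    exact le_of_mul_le_mul_right this h

lemma spec_lo {A P : Matrix V V ℝ} (hA : IsGr A) {θ : ℝ} (hS : IsSpec (lap A) P θ) (i : V)
    {a : ℝ} (ha : 0 < a) (hi : dg A i + a ≤ θ) : a ^ 2 * P i i ≤ dg A i := by
  have hP : IsProj P := hS.proj
  have h1 : 0 ≤ ((lap A - θ • (1 : Matrix V V ℝ)) * P) i i := hS.pos.diag_nonneg
  have h2 : ((lap A - θ • (1 : Matrix V V ℝ)) * P) i i =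
      (dg A i - θ) * P i i - ∑ j, A i j * P i j := by
    have e : lap A - θ • (1 : Matrix V V ℝ) = diagonal (fun k => dg A k - θ) - A := by
      unfold lap
      ext a b
      by_cases hab : a = b
      · subst hab; simp; ring
      · simp [hab]
    rw [e, sub_mul, Matrix.sub_apply, diagonal_mul, Matrix.mul_apply]
    congr 1
    refine Finset.sum_congr rfl fun j _ => ?_
    rw [hP.apply_symm j i]
  have h3 := Finset.sum_mul_sq_le_sq_mul_sq univ (fun j => A i j) (fun j => P i j)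
  have h4 : ∑ j, A i j ^ 2 = dg A i := Finset.sum_congr rfl fun j _ => hA.sq i j
  rw [h4, hP.sum_sq i] at h3
  have hq0 := hP.diag_nonneg i
  have h6 : a * P i i ≤ - ∑ j, A i j * P i j := by
    rw [h2] at h1
    have : a * P i i ≤ (θ - dg A i) * P i i := mul_le_mul_of_nonneg_right (by linarith) hq0
    linarith
  have h7 : (a * P i i) ^ 2 ≤ dg A i * P i i := by
    have := pow_le_pow_left₀ (mul_nonneg ha.le hq0) h6 2
    rw [neg_sq] at this
    exact this.trans h3
  rcases hq0.eq_or_lt with h | h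
  · rw [← h, mul_zero]; exact dg_nonneg hA i
  · have : (a ^ 2 * P i i) * P i i ≤ dg A i * P i i := by linarith
    exact le_of_mul_le_mul_right this h

/-- crude upper bound for the trace by degrees -/
lemma crude {A P : Matrix V V ℝ} (hA : IsGr A) (hP : IsProj P) (θ : ℝ) {n η : ℝ}
    (hnV : n = Fintype.card V) (hη : 0 < η) (hη2 : 1 ≤ η ^ 2 * n) :
    ((lap A - θ • (1 : Matrix V V ℝ)) * P).trace ≤ ∑ i, max (dg A i - θ) 0 + η * n ^ 2 := by
  have hn : 0 < n := by
    by_contra h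
    push Not at h
    have : η ^ 2 * n ≤ 0 := mul_nonpos_of_nonneg_of_nonpos (by positivity) h
    linarith
  have h1 : ((lap A - θ • (1 : Matrix V V ℝ)) * P).trace =
      ∑ i, (dg A i - θ) * P i i - ∑ i, ∑ j, A i j * P i j := by
    rw [sub_mul, trace_sub, trace_lap_mul hA hP, smul_mul_assoc, one_mul, trace_smul, smul_eq_mul,
      Matrix.trace]
    simp only [sub_mul, Finset.sum_sub_distrib, diag_apply]
    rw [Finset.mul_sum]
    ring
  have h2 : ∑ i, (dg A i - θ) * P i i ≤ ∑ i, max (dg A i - θ) 0 := by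
    refine Finset.sum_le_sum fun i _ => ?_
    have hp0 := hP.diag_nonneg i
    have hp1 := hP.diag_le_one i
    calc (dg A i - θ) * P i i ≤ max (dg A i - θ) 0 * P i i :=
          mul_le_mul_of_nonneg_right (le_max_left _ _) hp0
      _ ≤ max (dg A i - θ) 0 * 1 := mul_le_mul_of_nonneg_left hp1 (le_max_right _ _)
      _ = _ := mul_one _
  have h3 : (∑ i, ∑ j, A i j * P i j) ^ 2 ≤ (η * n ^ 2) ^ 2 := by
    have e1 : ∑ i, ∑ j, A i j * P i j = ∑ x : V × V, A x.1 x.2 * P x.1 x.2 := by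
      rw [Fintype.sum_prod_type]
    have h4 := Finset.sum_mul_sq_le_sq_mul_sq univ (fun x : V × V => A x.1 x.2)
      (fun x : V × V => P x.1 x.2)
    have h5 : ∑ x : V × V, A x.1 x.2 ^ 2 ≤ n ^ 2 := by
      calc ∑ x : V × V, A x.1 x.2 ^ 2 ≤ ∑ _x : V × V, (1 : ℝ) := by
            refine Finset.sum_le_sum fun x _ => ?_
            rw [hA.sq]; exact hA.le_one _ _
        _ = n ^ 2 := by simp [hnV]; ring
    have h6 : ∑ x : V × V, P x.1 x.2 ^ 2 ≤ n := by
      rw [Fintype.sum_prod_type]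
      calc ∑ i, ∑ j, P i j ^ 2 = ∑ i, P i i := Finset.sum_congr rfl fun i _ => hP.sum_sq i
        _ ≤ ∑ _i : V, (1 : ℝ) := Finset.sum_le_sum fun i _ => hP.diag_le_one i
        _ = n := by simp [hnV]
    rw [e1]
    calc (∑ x : V × V, A x.1 x.2 * P x.1 x.2) ^ 2
        ≤ (∑ x : V × V, A x.1 x.2 ^ 2) * ∑ x : V × V, P x.1 x.2 ^ 2 := h4
      _ ≤ n ^ 2 * n := by
          apply mul_le_mul h5 h6
          · exact Finset.sum_nonneg fun _ _ => sq_nonneg _
          · positivity
      _ = n ^ 3 * 1 := by ring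
      _ ≤ n ^ 3 * (η ^ 2 * n) := mul_le_mul_of_nonneg_left hη2 (by positivity)
      _ = _ := by ring
  have h4 := abs_le_of_sq_le_sq' h3 (by positivity)
  rw [h1]
  linarith [h4.1]

end Pool.Agent.Helper53.LE
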