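import Pool.Agent.Helper53.LE.Final

/-!
Upper bound for the sum of the large Laplacian eigenvalues of a dense graph.
-/

namespace Pool.Agent.Helper53.LE

open Matrix Finset

variable {V : Type*} [Fintype V] [DecidableEq V]

/-- admissible constants -/
structure Consts (ε δ η η1 η2 n : ℝ) : Prop where
  hn : 0 < n
  hε : 0 < ε
  hε1 : ε ≤ 1 / 4
  hδ : δ = ε / 10
  hη : 0 < η
  hη1 : η1 = 3 * η / ε ^ 2
  hη2 : η2 = 2 * η1 / δ
  hη3 : 24 * (η1 + η2) ≤ δ ^ 4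
  c1 : 4 ≤ η ^ 2 * n
  c2 : 4 ≤ η * n
  c3 : 400 ≤ δ ^ 2 * n
  c4 : 1 ≤ δ ^ 3 * n

lemma exists_consts {ε : ℝ} (hε : 0 < ε) (hε1 : ε ≤ 1 / 4) :
    ∃ δ η η1 η2 : ℝ, ∃ n0 : ℕ, ∀ n : ℕ, n0 ≤ n → Consts ε δ η η1 η2 n := by
  set δ : ℝ := ε / 10 with hδ
  have hδ0 : 0 < δ := by positivity
  have hδ1 : δ ≤ 1 / 40 := by rw [hδ]; linarith
  set η1 : ℝ := δ ^ 5 / 100 with hη1
  set η : ℝ := ε ^ 2 * η1 / 3 with hη
  have hη0 : 0 < η := by positivity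
  obtain ⟨n0, hn0⟩ := exists_nat_ge (400 / η ^ 2 + 400 / δ ^ 3)
  refine ⟨δ, η, η1, 2 * η1 / δ, n0, fun n hn => ?_⟩
  have hn' : 400 / η ^ 2 + 400 / δ ^ 3 ≤ (n : ℝ) := hn0.trans (by exact_mod_cast hn)
  have p1 : 0 < 400 / η ^ 2 := by positivity
  have p2 : 0 < 400 / δ ^ 3 := by positivity
  have hnpos : (0 : ℝ) < n := by linarith
  have q1 : 400 ≤ η ^ 2 * n := by
    have : 400 / η ^ 2 ≤ (n : ℝ) := by linarith
    rw [div_le_iff₀ (by positivity)] at this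
    linarith
  have q2 : 400 ≤ δ ^ 3 * n := by
    have : 400 / δ ^ 3 ≤ (n : ℝ) := by linarith
    rw [div_le_iff₀ (by positivity)] at this
    linarith
  have hη1' : η ≤ 1 := by
    have : δ ^ 5 ≤ 1 := pow_le_one₀ hδ0.le (by linarith)
    have h2 : ε ^ 2 ≤ 1 := pow_le_one₀ hε.le (by linarith)
    have h3 : ε ^ 2 * η1 ≤ 1 * 1 := by
      apply mul_le_mul h2 _ (by positivity) (by norm_num)
      rw [hη1]; linarith
    rw [hη]; linarith
  refine ⟨hnpos, hε, hε1, hδ, hη0, ?_, rfl, ?_, by linarith, ?_, ?_, by linarith⟩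
  · rw [hη]; field_simp
  · rw [hη1]
    have e : 24 * (δ ^ 5 / 100 + 2 * (δ ^ 5 / 100) / δ) = (24 / 100 * δ + 48 / 100) * δ ^ 4 := by
      field_simp; ring
    rw [e]
    have : 24 / 100 * δ + 48 / 100 ≤ 1 := by linarith
    calc (24 / 100 * δ + 48 / 100) * δ ^ 4 ≤ 1 * δ ^ 4 :=
          mul_le_mul_of_nonneg_right this (by positivity)
      _ = _ := by ring
  · have : η ^ 2 * n ≤ η * n := mul_le_mul_of_nonneg_right (by nlinarith) hnpos.le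
    linarith
  · have : δ ^ 3 * n ≤ δ ^ 2 * n := by
      apply mul_le_mul_of_nonneg_right _ hnpos.le
      nlinarith [sq_nonneg δ]
    linarith

lemma Consts.facts {ε δ η η1 η2 n : ℝ} (h : Consts ε δ η η1 η2 n) :
    0 < δ ∧ δ ≤ 1 / 40 ∧ 0 < η1 ∧ 0 < η2 ∧ 3 * η2 ≤ δ := by
  have hε := h.hε
  have hη := h.hη
  have h1 : 0 < δ := by rw [h.hδ]; positivity
  have h2 : δ ≤ 1 / 40 := by rw [h.hδ]; linarith [h.hε1]
  have h3 : 0 < η1 := by rw [h.hη1]; positivity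
  have h4 : 0 < η2 := by rw [h.hη2]; positivity
  have hδ4 : δ ^ 4 ≤ δ := by
    have : δ ^ 3 ≤ 1 := pow_le_one₀ h1.le (by linarith)
    nlinarith
  have := h.hη3
  exact ⟨h1, h2, h3, h4, by linarith⟩

lemma trace_lap_le {A P : Matrix V V ℝ} (hA : IsGr A) (hP : IsProj P) :
    (lap A * P).trace ≤ ∑ i, ∑ j, A i j := by
  have h1 := trace_lap_mul' hA hP
  have h2 : ∑ i, ∑ j, A i j * wt P i j ≤ ∑ i, ∑ j, A i j * 2 :=
    Finset.sum_le_sum fun i _ => Finset.sum_le_sum fun j _ =>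
      mul_le_mul_of_nonneg_left (wt_le_two hP i j) (hA.nonneg _ _)
  have h3 : ∑ i, ∑ j, A i j * 2 = 2 * ∑ i, ∑ j, A i j := by
    simp only [← Finset.sum_mul]; ring
  linarith

/-- near-extremality gives the structure `Base` -/
lemma base_of_near {A P : Matrix V V ℝ} (hA : IsGr A) {θ n p ε δ η η1 η2 : ℝ}
    (hC : Consts ε δ η η1 η2 n) (hS : IsSpec (lap A) P θ) (hnV : n = Fintype.card V)
    (hp0 : 0 ≤ p) (hp : p ^ 2 = ∑ i, ∑ j, A i j)
    (h1 : 2 * ε * n ^ 2 ≤ p ^ 2) (h2 : p ^ 2 ≤ (1 / 2 - 2 * ε) * n ^ 2)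
    (hb1 : p ^ 2 ≤ θ * n) (hb2 : θ * n ≤ p ^ 2 + n)
    (hnear : p ^ 2 - θ * p - 2 * n ≤ ((lap A - θ • (1 : Matrix V V ℝ)) * P).trace) :
    Base A θ n p δ η1 η2 := by
  have hη := hC.hη
  have hn := hC.hn
  have hcr := crude hA hS.proj θ hnV (half_pos hη)
    (by have := hC.c1; linarith)
  refine base hA hnV hn hC.hε hC.hε1 hC.hδ hη hC.hη1 hC.hη2 hC.hη3 (by linarith [hC.c2]) hp0 hp
    h1 h2 hb1 hb2 ?_
  have : 2 * n ≤ η / 2 * n ^ 2 := by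
    have := hC.c2
    nlinarith
  linarith

theorem upper_main {A P : Matrix V V ℝ} (hA : IsGr A) {θ n p ε δ η η1 η2 : ℝ}
    (hC : Consts ε δ η η1 η2 n) (hS : IsSpec (lap A) P θ) (hnV : n = Fintype.card V)
    (hp0 : 0 ≤ p) (hp : p ^ 2 = ∑ i, ∑ j, A i j)
    (h1 : 2 * ε * n ^ 2 ≤ p ^ 2) (h2 : p ^ 2 ≤ (1 / 2 - 2 * ε) * n ^ 2)
    (hb1 : p ^ 2 ≤ θ * n) (hb2 : θ * n ≤ p ^ 2 + n)
    {k : ℕ} (hk : P.trace = k) {K r : ℕ} (hr : r ≤ K)
    (hm : p ^ 2 = (K : ℝ) * (K + 1) + 2 * r) :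
    ((lap A - θ • (1 : Matrix V V ℝ)) * P).trace ≤
      (K : ℝ) * (K + 1) + r - θ * K + max ((r : ℝ) - θ) 0 := by
  by_contra hcon
  push Not at hcon
  obtain ⟨hδ0, hδ1, hη10, hη20, hη2δ⟩ := hC.facts
  have hn := hC.hn
  have hK0 : (0 : ℝ) ≤ K := Nat.cast_nonneg K
  have hr0 : (0 : ℝ) ≤ r := Nat.cast_nonneg r
  have hrK : (r : ℝ) ≤ K := by exact_mod_cast hr
  have hKp : (K : ℝ) ≤ p := by
    by_contra h
    push Not at h
    have : p ^ 2 < (K : ℝ) ^ 2 := pow_lt_pow_left₀ h hp0 (by norm_num)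
    linarith
  have hpn : p ≤ n := by
    by_contra h
    push Not at h
    have : n ^ 2 < p ^ 2 := pow_lt_pow_left₀ h hn.le (by norm_num)
    linarith [mul_pos hC.hε (pow_pos hn 2), pow_pos hn 2]
  have hθ0 : 0 ≤ θ := by
    have : 0 ≤ θ * n := by linarith [sq_nonneg p]
    exact nonneg_of_mul_nonneg_left this hn
  have hmax0 : 0 ≤ max ((r : ℝ) - θ) 0 := le_max_right _ _
  have hθKp : θ * K ≤ θ * p := mul_le_mul_of_nonneg_left hKp hθ0
  have hB := base_of_near hA hC hS hnV hp0 hp h1 h2 hb1 hb2 (by linarith)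
  have hkey := key hA hS hB hnV hn hδ0 hδ1 hC.c3 hη10 hη20 hC.hη3
  have hlow := trace_lower hA hS hB hnV hn hδ0 hC.c4 hη2δ
  set t : ℕ := (cliq A P θ (δ * n) (1 / 4)).card with ht
  have hF : ((lap A - θ • (1 : Matrix V V ℝ)) * P).trace = (lap A * P).trace - θ * k := by
    rw [sub_mul, trace_sub, smul_mul_assoc, one_mul, trace_smul, smul_eq_mul, hk]
  rw [hF] at hcon
  rw [hk] at hkey hlow
  have hδn : 0 < δ * n := by positivity
  -- integrality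
  have hint : (0 : ℝ) ≤ ((t : ℝ) - k) * ((t : ℝ) - k - 1) := by
    have : (0 : ℤ) ≤ ((t : ℤ) - k) * ((t : ℤ) - k - 1) := by
      rcases le_or_gt ((t : ℤ) - k) 0 with h | h
      · exact mul_nonneg_of_nonpos_of_nonpos h (by linarith)
      · exact mul_nonneg h.le (by linarith)
    exact_mod_cast this
  have htr2 := trace_lap_le hA hS.proj
  rw [← hp] at hkey htr2
  rcases le_or_gt k K with hkK | hkK
  · have hkK' : (k : ℝ) ≤ K := by exact_mod_cast hkK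
    have e1 : 0 ≤ ((K : ℝ) - k) * (((K : ℝ) + k + 1) / 2 - θ) := by
      apply mul_nonneg
      · linarith
      · linarith
    linarith
  · have hkK' : (K : ℝ) + 1 ≤ k := by exact_mod_cast hkK
    have e1 : θ * ((K : ℝ) + 1) ≤ θ * k := mul_le_mul_of_nonneg_left hkK' hθ0
    have e2 := le_max_left ((r : ℝ) - θ) 0
    linarith

end Pool.Agent.Helper53.LE
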